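import Pool.Agent.X114.TS2

/-! The local sampling criterion. -/

set_option autoImplicit false

open Filter Topology Set Real

namespace Pool.Agent.X114.TS

open Pool.Agent.H983R4.LH Pool.Agent.H983R4.GL Pool.Agent.H983R4.GL.Z

/-- all windows `[T - r, T + r]`, `T ≥ T₀`, contain at least `4 r log T` points of `S` with normalised logarithmic
energy at most `η log T` per point -/
def Rich (S : Set ℝ) (r η : ℝ) : Prop := ∃ T₀ : ℝ, ∀ T : ℝ, T₀ ≤ T → ∃ s : Finset ℝ,
  (∀ x ∈ s, x ∈ S ∧ |x - T| ≤ r) ∧ 4 * r * Real.log T ≤ s.card ∧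
  ∑ x ∈ s, ∑ y ∈ s.erase x, Real.log (2 * r / |x - y|) ≤ η * s.card * Real.log T

/-- Markov's inequality -/
lemma half {s : Finset ℝ} {g : ℝ → ℝ} (hg : ∀ x ∈ s, 0 ≤ g x) {V : ℝ} (hV : 0 < V)
    (h : ∑ x ∈ s, g x ≤ V * s.card) :
    (s.card : ℝ) / 2 ≤ (s.filter (fun x => g x ≤ 2 * V)).card := by
  have h1 : ∑ x ∈ s.filter (fun x => ¬ g x ≤ 2 * V), (2 * V) ≤ ∑ x ∈ s, g x := by
    refine (Finset.sum_le_sum (f := fun _ => 2 * V) (g := g) fun x hx => ?_).trans
      (Finset.sum_le_sum_of_subset_of_nonneg (Finset.filter_subset _ _) fun x hx _ => hg x hx)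
    rw [Finset.mem_filter, not_le] at hx
    exact hx.2.le
  rw [Finset.sum_const, nsmul_eq_mul] at h1
  have h2 := Finset.card_filter_add_card_filter_not (s := s) (fun x => g x ≤ 2 * V)
  have h3 : ((s.filter (fun x => g x ≤ 2 * V)).card : ℝ) +
      (s.filter (fun x => ¬ g x ≤ 2 * V)).card = s.card := by exact_mod_cast h2
  have h4 : ((s.filter (fun x => ¬ g x ≤ 2 * V)).card : ℝ) * (2 * V) ≤ V * s.card := h1.trans h
  nlinarith

lemma log_three : 1.09 ≤ Real.log 3 := by
  have he := Real.exp_one_lt_d9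
  have h1 : Real.log 3 = 1 + Real.log (3 / Real.exp 1) := by
    rw [Real.log_div (by norm_num) (Real.exp_ne_zero _), Real.log_exp]; ring
  have h2 := Real.one_sub_inv_le_log_of_pos (x := 3 / Real.exp 1) (by positivity)
  rw [inv_div] at h2
  rw [h1]
  linarith

lemma nat_two_pow (N : ℕ) : (N : ℝ) * (1 / 2) ^ (N - 1) ≤ 1 := by
  rcases Nat.eq_zero_or_pos N with h | h
  · rw [h]; simp
  · obtain ⟨m, rfl⟩ : ∃ m, N = m + 1 := ⟨N - 1, by omega⟩
    rw [Nat.add_sub_cancel, one_div, inv_pow, ← div_eq_mul_inv, div_le_one (by positivity)]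
    have : m + 1 ≤ 2 ^ m := Nat.lt_two_pow_self
    exact_mod_cast this

/-- the value at the centre -/
lemma window {T r η L M a : ℝ} {f : ℂ → ℂ} (hf : Differentiable ℂ f) (hr : 0 < r)
    (hη : 0 < η) (hL : 0 < L) (hM : ∀ z : ℂ, ‖z‖ = 4 * r → ‖f z‖ ≤ M) (ha : 0 ≤ a)
    {s : Finset ℝ} (hs : ∀ x ∈ s, |x - T| ≤ r) (hT : T ∉ s)
    (hfs : ∀ x ∈ s, ‖f (((x - T : ℝ) : ℂ) * Complex.I)‖ ≤ a)
    (hc : 4 * r * L ≤ s.card)
    (hE : ∑ x ∈ s, ∑ y ∈ s.erase x, Real.log (2 * r / |x - y|) ≤ η * s.card * L) :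
    ‖f 0‖ ≤ M * Real.exp (-(2.18 * r * L)) + a * Real.exp (2 * η * L) := by
  classical
  have hM0 : 0 ≤ M := (norm_nonneg _).trans (hM ((4 * r : ℝ) : ℂ) (by
    rw [Complex.norm_real, Real.norm_eq_abs, abs_of_pos (by linarith)]))
  -- all the logarithms are nonnegative
  have hnn : ∀ x ∈ s, ∀ y ∈ s, x ≠ y → 0 ≤ Real.log (2 * r / |x - y|) := by
    intro x hx y hy hne
    apply Real.log_nonneg
    have h1 : 0 < |x - y| := abs_pos.2 (sub_ne_zero.2 hne)
    rw [le_div_iff₀ h1, one_mul]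
    have h2 := abs_le.1 (hs x hx)
    have h3 := abs_le.1 (hs y hy)
    rw [abs_le]
    constructor <;> linarith
  set s' := s.filter (fun x => ∑ y ∈ s.erase x, Real.log (2 * r / |x - y|) ≤ 2 * (η * L)) with hs'
  have hcard : (s.card : ℝ) / 2 ≤ s'.card := by
    apply half _ (by positivity) (by linarith)
    intro x hx
    exact Finset.sum_nonneg fun y hy => hnn x hx y (Finset.mem_of_mem_erase hy)
      (Finset.ne_of_mem_erase hy).symm
  have hsub : s' ⊆ s := Finset.filter_subset _ _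
  set g : ℝ → ℂ := fun x => ((x - T : ℝ) : ℂ) * Complex.I with hg
  have hginj : Function.Injective g := by
    intro x y h
    have h1 := mul_right_cancel₀ Complex.I_ne_zero h
    have h2 : x - T = y - T := by exact_mod_cast h1
    linarith
  have hgn : ∀ x, ‖g x‖ = |x - T| := by
    intro x
    rw [hg]
    simp only
    rw [norm_mul, Complex.norm_I, mul_one, Complex.norm_real, Real.norm_eq_abs]
  have hgd : ∀ x y, ‖g x - g y‖ = |x - y| := by
    intro x y
    have : g x - g y = ((x - y : ℝ) : ℂ) * Complex.I := by rw [hg]; push_cast; ring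
    rw [this, norm_mul, Complex.norm_I, mul_one, Complex.norm_real, Real.norm_eq_abs]
  set t : Finset ℂ := s'.image g with ht
  have htc : t.card = s'.card := Finset.card_image_of_injective _ hginj
  have h0 : (0 : ℂ) ∉ t := by
    rw [ht, Finset.mem_image]
    rintro ⟨x, hx, h⟩
    have h1 := hgn x
    rw [h, norm_zero] at h1
    have h2 : x - T = 0 := abs_eq_zero.1 h1.symm
    have h3 : x = T := by linarith
    exact hT (h3 ▸ hsub hx)
  have h1 := point_bound hf hr (show r < 4 * r by linarith) hM h0 (by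
    intro w hw
    obtain ⟨x, hx, rfl⟩ := Finset.mem_image.1 hw
    rw [hgn]
    exact hs x (hsub hx))
  refine h1.trans (add_le_add ?_ ?_)
  · apply mul_le_mul_of_nonneg_left _ hM0
    have e : r / (4 * r - r) = 1 / 3 := by field_simp; norm_num
    rw [e, htc, one_div, inv_pow, ← Real.exp_log (show (0:ℝ) < 3 ^ s'.card by positivity),
      ← Real.exp_neg, Real.log_pow]
    apply Real.exp_le_exp.2
    have h3 := log_three
    have h4 : 2 * r * L ≤ s'.card := by linarith
    have h5 : 2 * r * L * 1.09 ≤ s'.card * Real.log 3 :=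
      mul_le_mul h4 h3 (by norm_num) (Nat.cast_nonneg _)
    linarith
  · rw [ht, Finset.sum_image (fun x _ y _ h => hginj h), ← ht]
    have h2 : ∀ x ∈ s', ‖f (g x)‖ * (r ^ (t.card - 1) * ∏ v ∈ t.erase (g x), ‖g x - v‖⁻¹) ≤
        a * ((1 / 2) ^ (t.card - 1) * Real.exp (2 * η * L)) := by
      intro x hx
      have e1 : t.erase (g x) = (s'.erase x).image g := by
        rw [ht, Finset.image_erase hginj]
      have e2 : (s'.erase x).card = t.card - 1 := by rw [Finset.card_erase_of_mem hx, htc]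
      rw [e1, Finset.prod_image (fun x _ y _ h => hginj h)]
      have e3 : r ^ (t.card - 1) * ∏ y ∈ s'.erase x, ‖g x - g y‖⁻¹ =
          (1 / 2) ^ (t.card - 1) * ∏ y ∈ s'.erase x, (2 * r / |x - y|) := by
        rw [← e2, ← Finset.prod_const, ← Finset.prod_const, ← Finset.prod_mul_distrib,
          ← Finset.prod_mul_distrib]
        refine Finset.prod_congr rfl fun y _ => ?_
        rw [hgd]
        ring
      rw [e3]
      have h5 : ∏ y ∈ s'.erase x, (2 * r / |x - y|) ≤ Real.exp (2 * η * L) := by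
        have h6 : ∏ y ∈ s'.erase x, (2 * r / |x - y|) =
            Real.exp (∑ y ∈ s'.erase x, Real.log (2 * r / |x - y|)) := by
          rw [Real.exp_sum]
          refine Finset.prod_congr rfl fun y hy => ?_
          have hne : x ≠ y := (Finset.ne_of_mem_erase hy).symm
          have : 0 < |x - y| := abs_pos.2 (sub_ne_zero.2 hne)
          rw [Real.exp_log (by positivity)]
        rw [h6]
        apply Real.exp_le_exp.2
        have h7 : ∑ y ∈ s'.erase x, Real.log (2 * r / |x - y|) ≤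
            ∑ y ∈ s.erase x, Real.log (2 * r / |x - y|) := by
          apply Finset.sum_le_sum_of_subset_of_nonneg (Finset.erase_subset_erase _ hsub)
          intro y hy _
          exact hnn x (hsub hx) y (Finset.mem_of_mem_erase hy) (Finset.ne_of_mem_erase hy).symm
        have h8 := (Finset.mem_filter.1 hx).2
        linarith
      have h9 := hfs x (hsub hx)
      have h10 : 0 ≤ ∏ y ∈ s'.erase x, (2 * r / |x - y|) :=
        Finset.prod_nonneg fun y _ => by positivity
      gcongr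
    refine (Finset.sum_le_sum h2).trans ?_
    rw [Finset.sum_const, nsmul_eq_mul, ← htc]
    have h3 := nat_two_pow t.card
    calc (t.card : ℝ) * (a * ((1 / 2) ^ (t.card - 1) * Real.exp (2 * η * L))) =
        (t.card * (1 / 2) ^ (t.card - 1)) * (a * Real.exp (2 * η * L)) := by ring
      _ ≤ 1 * (a * Real.exp (2 * η * L)) := mul_le_mul_of_nonneg_right h3 (by positivity)
      _ = _ := one_mul _

/-- **The local criterion.** -/
theorem local_criterion {S : Set ℝ} {r η κ : ℝ} (hr : 0 < r) (hr8 : r ≤ 1 / 8) (hη : 0 < η)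
    (hS : Rich S r η) (hκ : 0 ≤ κ)
    (h : ∀ ε : ℝ, 0 < ε → ∃ C : ℝ, ∀ t ∈ S,
      ‖riemannZeta (1 / 2 + t * Complex.I)‖ ≤ C * (1 + |t|) ^ (κ + ε)) :
    Adm (κ + 2 * η) := by
  obtain ⟨θ, hθ0, hθ, hmin⟩ := leastZ
  by_contra hcon
  have hlt : κ + 2 * η < θ := by
    by_contra hle
    push Not at hle
    apply hcon
    intro ε hε
    obtain ⟨C, hC⟩ := hθ ε hε
    refine ⟨|C|, fun t => (hC t).trans ?_⟩
    have h1 : (1 : ℝ) ≤ 1 + |t| := by linarith [abs_nonneg t]
    calc C * (1 + |t|) ^ (θ + ε) ≤ |C| * (1 + |t|) ^ (θ + ε) :=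
          mul_le_mul_of_nonneg_right (le_abs_self C) (by positivity)
      _ ≤ |C| * (1 + |t|) ^ (κ + 2 * η + ε) := by gcongr
  set δ : ℝ := θ - κ - 2 * η with hδ
  have hδ0 : 0 < δ := by rw [hδ]; linarith
  set ε : ℝ := min (r / 50) (δ / 8) with hε
  have hε0 : 0 < ε := lt_min (by positivity) (by positivity)
  have hεr : ε ≤ r / 50 := min_le_left _ _
  have hεδ : ε ≤ δ / 8 := min_le_right _ _
  obtain ⟨C₁, hC₁0, hC₁⟩ := disc_bound hθ0 hθ hε0
  obtain ⟨C₂, hC₂⟩ := h (δ / 4) (by positivity)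
  set C₃ : ℝ := 2 * (|C₂| * 2 ^ (κ + δ / 4)) with hC₃
  have hC₃0 : 0 ≤ C₃ := by positivity
  obtain ⟨T₀, hT₀⟩ := hS
  have hnot : ¬ Adm (θ - ε) := by
    intro hA
    have := hmin (θ - ε) (by linarith) hA
    linarith
  -- `T` large
  have hev : ∀ᶠ T : ℝ in atTop, C₁ * Real.exp (-(0.1 * r * Real.log T)) +
      C₃ * Real.exp (-(δ / 2 * Real.log T)) < 1 := by
    have h1 : ∀ c : ℝ, 0 < c → Tendsto (fun T : ℝ => Real.exp (-(c * Real.log T))) atTop (𝓝 0) := by
      intro c hc
      exact Real.tendsto_exp_neg_atTop_nhds_zero.comp (Real.tendsto_log_atTop.const_mul_atTop hc)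
    have h2 := ((h1 (0.1 * r) (by positivity)).const_mul C₁).add
      ((h1 (δ / 2) (by positivity)).const_mul C₃)
    rw [mul_zero, mul_zero, add_zero] at h2
    exact h2.eventually (gt_mem_nhds one_pos)
  obtain ⟨T₁, hT₁⟩ := eventually_atTop.1 hev
  obtain ⟨T, hT, hbig⟩ := large_values (κ := θ - ε) (by linarith) hnot (max (max T₀ T₁) 8)
  have hTa : T₀ ≤ T := (le_max_left _ _).trans ((le_max_left _ _).trans hT)
  have hTb : T₁ ≤ T := (le_max_right _ _).trans ((le_max_left _ _).trans hT)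
  have hT8 : 8 ≤ T := (le_max_right _ _).trans hT
  have hTp : 0 < T := by linarith
  set L : ℝ := Real.log T with hL
  have hL0 : 0 < L := Real.log_pos (by linarith)
  have hfin := hT₁ T hTb
  rw [← hL] at hfin
  have hbig' : Real.exp ((θ - ε) * L) < ‖f T 0‖ := by
    refine lt_of_lt_of_le ?_ (f_zero hT8)
    rwa [Real.rpow_def_of_pos hTp, mul_comm] at hbig
  -- the values on `S`
  have hval : ∀ x ∈ S, |x - T| ≤ r → 2 * ‖riemannZeta (1 / 2 + (x : ℂ) * Complex.I)‖ ≤
      C₃ * Real.exp ((κ + δ / 4) * L) := by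
    intro x hx hxT
    have h1 := hC₂ x hx
    have h2 : 1 + |x| ≤ 2 * T := by
      have := abs_le.1 hxT
      have : |x| ≤ T + r := by rw [abs_le]; constructor <;> linarith
      linarith
    have h3 : (1 + |x|) ^ (κ + δ / 4) ≤ 2 ^ (κ + δ / 4) * Real.exp ((κ + δ / 4) * L) := by
      calc (1 + |x|) ^ (κ + δ / 4) ≤ (2 * T) ^ (κ + δ / 4) :=
            Real.rpow_le_rpow (by positivity) h2 (by positivity)
        _ = 2 ^ (κ + δ / 4) * T ^ (κ + δ / 4) := Real.mul_rpow (by norm_num) hTp.le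
        _ = _ := by rw [Real.rpow_def_of_pos hTp, mul_comm (Real.log T)]
    calc 2 * ‖riemannZeta (1 / 2 + (x : ℂ) * Complex.I)‖ ≤ 2 * (C₂ * (1 + |x|) ^ (κ + δ / 4)) := by
          linarith
      _ ≤ 2 * (|C₂| * (2 ^ (κ + δ / 4) * Real.exp ((κ + δ / 4) * L))) := by
          have h4 : 0 ≤ (1 + |x|) ^ (κ + δ / 4) := by positivity
          have := le_abs_self C₂
          gcongr
      _ = _ := by rw [hC₃]; ring
  obtain ⟨s, hs1, hs2, hs3⟩ := hT₀ T hTa
  have hmain : ‖f T 0‖ ≤ C₁ * Real.exp ((θ + ε + 2 * r) * L) * Real.exp (-(2.18 * r * L)) +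
      C₃ * Real.exp ((κ + δ / 4) * L) * Real.exp (2 * η * L) := by
    by_cases hTs : T ∈ s
    · have h1 := f_line hT8 (y := 0) (by norm_num)
      rw [Complex.ofReal_zero, zero_mul, add_zero] at h1
      have h2 := hval T (hs1 T hTs).1 (by rw [sub_self, abs_zero]; exact hr.le)
      have h3 : 1 ≤ Real.exp (2 * η * L) := Real.one_le_exp (by positivity)
      have h4 : 0 ≤ C₃ * Real.exp ((κ + δ / 4) * L) := by positivity
      have h5 : 0 ≤ C₁ * Real.exp ((θ + ε + 2 * r) * L) * Real.exp (-(2.18 * r * L)) := by positivity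
      nlinarith
    · refine window (f_diff T) hr hη hL0 ?_ (by positivity) (fun x hx => (hs1 x hx).2) hTs ?_
        hs2 hs3
      · intro z hz
        have h1 := hC₁ T hT8 (4 * r) (by positivity) (by linarith) z hz.le
        rwa [show θ + ε + 4 * r / 2 = θ + ε + 2 * r by ring] at h1
      · intro x hx
        have hx' := (hs1 x hx).2
        have h1 := f_line hT8 (y := x - T) (hx'.trans (by linarith))
        rw [add_sub_cancel] at h1
        exact h1.trans (hval x (hs1 x hx).1 hx')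
  rw [mul_assoc C₁, ← Real.exp_add, mul_assoc C₃, ← Real.exp_add] at hmain
  have e1 : Real.exp ((θ + ε + 2 * r) * L + -(2.18 * r * L)) ≤
      Real.exp ((θ - ε) * L) * Real.exp (-(0.1 * r * L)) := by
    rw [← Real.exp_add]
    apply Real.exp_le_exp.2
    nlinarith
  have e2 : Real.exp ((κ + δ / 4) * L + 2 * η * L) ≤
      Real.exp ((θ - ε) * L) * Real.exp (-(δ / 2 * L)) := by
    rw [← Real.exp_add]
    apply Real.exp_le_exp.2
    have : κ + δ / 4 + 2 * η ≤ θ - ε - δ / 2 := by rw [hδ] at hεδ ⊢; linarith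
    nlinarith
  have e3 : ‖f T 0‖ ≤ Real.exp ((θ - ε) * L) * (C₁ * Real.exp (-(0.1 * r * L)) +
      C₃ * Real.exp (-(δ / 2 * L))) := by
    refine hmain.trans ?_
    have h1 := mul_le_mul_of_nonneg_left e1 hC₁0.le
    have h2 := mul_le_mul_of_nonneg_left e2 hC₃0
    linarith
  have e4 : Real.exp ((θ - ε) * L) * (C₁ * Real.exp (-(0.1 * r * L)) +
      C₃ * Real.exp (-(δ / 2 * L))) < Real.exp ((θ - ε) * L) * 1 :=
    mul_lt_mul_of_pos_left hfin (Real.exp_pos _)
  linarith

end Pool.Agent.X114.TS
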