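import Mathlib

/-! Point configurations of small logarithmic energy in sets of positive capacity. -/

set_option autoImplicit false

open Filter Topology Set MeasureTheory ENNReal

namespace Pool.Agent.X114.TS

/-- `log⁺ (1 / |x - y|)` -/
noncomputable def w (x y : ℝ) : ℝ≥0∞ := ENNReal.ofReal (Real.log (1 / |x - y|))

lemma w_symm (x y : ℝ) : w x y = w y x := by
  unfold w; rw [abs_sub_comm]

lemma w_meas : Measurable (Function.uncurry w) := by
  unfold w Function.uncurry
  fun_prop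

lemma w_meas' (x : ℝ) : Measurable (fun y => w y x) := by
  unfold w
  fun_prop

lemma w_meas'' (x : ℝ) : Measurable (fun y => w x y) := by
  unfold w
  fun_prop

/-- greedy selection of points -/
lemma select {X : Set ℝ} {μ : Measure ℝ} [IsFiniteMeasure μ] [NullSingletonClass μ] (hμ : μ ≠ 0)
    (hX : μ Xᶜ = 0) {V : ℝ≥0∞} (hV : ∀ x ∈ X, ∫⁻ y, w x y ∂μ ≤ V * μ univ) (n : ℕ) :
    ∃ s : Finset ℝ, s.card = n ∧ (↑s : Set ℝ) ⊆ X ∧
      ∑ x ∈ s, ∑ y ∈ s.erase x, w x y ≤ V * n * n := by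
  classical
  induction n with
  | zero => exact ⟨∅, rfl, by simp, by simp⟩
  | succ n ih =>
    obtain ⟨s, hs1, hs2, hs3⟩ := ih
    have hN : μ (Xᶜ ∪ ↑s) = 0 := by
      rw [measure_union_null_iff]
      exact ⟨hX, s.finite_toSet.measure_zero μ⟩
    have hmeas : Measurable (fun y => ∑ x ∈ s, w x y) :=
      Finset.measurable_fun_sum _ fun x _ => w_meas'' x
    obtain ⟨y, hy, hle⟩ := exists_notMem_null_le_laverage hμ hmeas.aemeasurable hN
    rw [mem_union, not_or] at hy
    obtain ⟨hy1, hy2⟩ := hy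
    have hyX : y ∈ X := by simpa using hy1
    have hys : y ∉ s := hy2
    have hμ0 : μ univ ≠ 0 := by
      intro h
      exact hμ (Measure.measure_univ_eq_zero.1 h)
    have hμt : μ univ ≠ ⊤ := measure_ne_top μ _
    have hlav : ⨍⁻ a, (∑ x ∈ s, w x a) ∂μ ≤ n * V := by
      rw [laverage_eq, lintegral_finsetSum _ fun x _ => w_meas'' x]
      rw [ENNReal.div_le_iff hμ0 hμt]
      calc ∑ x ∈ s, ∫⁻ a, w x a ∂μ ≤ ∑ _x ∈ s, V * μ univ :=
            Finset.sum_le_sum fun x hx => hV x (hs2 hx)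
        _ = n * V * μ univ := by
            rw [Finset.sum_const, hs1, nsmul_eq_mul, mul_assoc]
    have hyle : ∑ x ∈ s, w x y ≤ n * V := hle.trans hlav
    refine ⟨insert y s, ?_, ?_, ?_⟩
    · rw [Finset.card_insert_of_notMem hys, hs1]
    · intro z hz
      rw [Finset.coe_insert, mem_insert_iff] at hz
      rcases hz with h | h
      · rw [h]; exact hyX
      · exact hs2 h
    · rw [Finset.sum_insert hys, Finset.erase_insert hys]
      have h1 : ∑ x ∈ s, ∑ z ∈ (insert y s).erase x, w x z =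
          ∑ x ∈ s, w x y + ∑ x ∈ s, ∑ z ∈ s.erase x, w x z := by
        rw [← Finset.sum_add_distrib]
        refine Finset.sum_congr rfl fun x hx => ?_
        have hne : y ≠ x := fun h => hys (h ▸ hx)
        rw [Finset.erase_insert_of_ne hne, Finset.sum_insert]
        intro h
        exact hys (Finset.mem_of_mem_erase h)
      have h2 : ∑ z ∈ s, w y z = ∑ x ∈ s, w x y := Finset.sum_congr rfl fun x _ => w_symm _ _
      rw [h1, h2]
      calc ∑ x ∈ s, w x y + (∑ x ∈ s, w x y + ∑ x ∈ s, ∑ z ∈ s.erase x, w x z)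
          ≤ n * V + (n * V + V * n * n) := by gcongr
        _ = V * (n * n + n * 2) := by ring
        _ ≤ V * ((n + 1) * (n + 1)) := by
            gcongr
            calc ((n:ℝ≥0∞) * n + n * 2) ≤ n * n + n * 2 + 1 := le_self_add
              _ = (n + 1) * (n + 1) := by ring
        _ = V * ((n + 1 : ℕ) : ℝ≥0∞) * ((n + 1 : ℕ) : ℝ≥0∞) := by push_cast; ring

/-- the energy at small distances tends to zero -/
lemma small_energy {ν : Measure ℝ} [IsFiniteMeasure ν] (hE : ∫⁻ x, ∫⁻ y, w x y ∂ν ∂ν ≠ ⊤) :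
    Tendsto (fun j : ℕ => ∫⁻ x, ∫⁻ y, (if |x - y| ≤ 1 / ((j : ℝ) + 1) then w x y else 0) ∂ν ∂ν) atTop
      (𝓝 0) := by
  have hm : ∀ j : ℕ, Measurable (fun p : ℝ × ℝ =>
      if |p.1 - p.2| ≤ 1 / ((j : ℝ) + 1) then w p.1 p.2 else 0) := by
    intro j
    apply Measurable.ite
    · exact measurableSet_le (by fun_prop) (by fun_prop)
    · exact w_meas
    · exact measurable_const
  have e1 : ∀ j : ℕ, ∫⁻ x, ∫⁻ y, (if |x - y| ≤ 1 / ((j : ℝ) + 1) then w x y else 0) ∂ν ∂ν =
      ∫⁻ p : ℝ × ℝ, (if |p.1 - p.2| ≤ 1 / ((j : ℝ) + 1) then w p.1 p.2 else 0) ∂(ν.prod ν) := by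
    intro j
    rw [lintegral_prod _ (hm j).aemeasurable]
  have e2 : ∫⁻ p : ℝ × ℝ, w p.1 p.2 ∂(ν.prod ν) ≠ ⊤ := by
    have h3 : AEMeasurable (fun p : ℝ × ℝ => w p.1 p.2) (ν.prod ν) := w_meas.aemeasurable
    rw [lintegral_prod _ h3]
    exact hE
  simp only [e1]
  have h := tendsto_lintegral_of_dominated_convergence (μ := ν.prod ν)
    (F := fun (j : ℕ) (p : ℝ × ℝ) => if |p.1 - p.2| ≤ 1 / ((j : ℝ) + 1) then w p.1 p.2 else 0)
    (f := fun _ => 0) (fun p => w p.1 p.2) hm
    (fun j => Eventually.of_forall fun p => by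
      simp only
      split_ifs
      · exact le_rfl
      · exact zero_le) e2
    (Eventually.of_forall fun p => by
      by_cases hp : p.1 = p.2
      · have : w p.1 p.2 = 0 := by
          unfold w
          rw [hp, sub_self, abs_zero, _root_.div_zero, Real.log_zero, ENNReal.ofReal_zero]
        simp only [this, ite_self]
        exact tendsto_const_nhds
      · have h0 : 0 < |p.1 - p.2| := abs_pos.2 (sub_ne_zero.2 hp)
        have h1 : Tendsto (fun j : ℕ => 1 / ((j : ℝ) + 1)) atTop (𝓝 0) :=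
          tendsto_one_div_add_atTop_nhds_zero_nat
        have h2 := h1.eventually (gt_mem_nhds h0)
        refine tendsto_const_nhds.congr' ?_
        filter_upwards [h2] with j hj
        rw [if_neg (not_le.2 hj)])
  simpa using h

lemma ofReal_sum_le' (s : Finset ℝ) (g : ℝ → ℝ) :
    ENNReal.ofReal (∑ x ∈ s, g x) ≤ ∑ x ∈ s, ENNReal.ofReal (g x) := by
  classical
  induction s using Finset.induction_on with
  | empty => simp
  | insert a s ha ih =>
    rw [Finset.sum_insert ha, Finset.sum_insert ha]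
    exact ENNReal.ofReal_add_le.trans (by gcongr)

/-- many points of small energy in a short interval -/
lemma configs {ν : Measure ℝ} [IsFiniteMeasure ν] [NullSingletonClass ν] (hν : ν ≠ 0)
    (hE : ∫⁻ x, ∫⁻ y, w x y ∂ν ∂ν ≠ ⊤) {A : Set ℝ} (hAm : MeasurableSet A) {N : ℕ}
    (hN : 0 < N) (hA : ν (A ∩ Ico (-(N:ℝ)) N)ᶜ = 0) {c : ℝ} (hc : 0 < c) :
    ∃ J : ℕ, ∀ j : ℕ, J ≤ j → ∃ k : ℤ, ∀ n : ℕ, ∃ s : Finset ℝ, s.card = n ∧
      (∀ x ∈ s, x ∈ A ∧ (k : ℝ) / (j + 1) ≤ x ∧ x < ((k : ℝ) + 1) / (j + 1)) ∧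
      ∑ x ∈ s, ∑ y ∈ s.erase x, Real.log (1 / |x - y|) ≤ c * (j + 1) * n ^ 2 := by
  classical
  have hN' : (0:ℝ) < N := by exact_mod_cast hN
  set m : ℝ := ν.real univ with hm
  have hm0 : 0 < m := by
    rw [hm, measureReal_def]
    apply ENNReal.toReal_pos _ (measure_ne_top _ _)
    intro h
    exact hν (Measure.measure_univ_eq_zero.1 h)
  set τ : ℝ := c * m / (4 * N) with hτ
  have hτ0 : 0 < τ := by positivity
  have hlim := (small_energy hE).eventually (gt_mem_nhds (show (0:ℝ≥0∞) < ENNReal.ofReal (τ * m / 2) from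
    ENNReal.ofReal_pos.2 (by positivity)))
  obtain ⟨J, hJ⟩ := eventually_atTop.1 hlim
  refine ⟨J, fun j hj => ?_⟩
  have he := hJ j hj
  have hj0 : (0:ℝ) < (j:ℝ) + 1 := by positivity
  set U : ℝ → ℝ≥0∞ := fun x => ∫⁻ y, (if |x - y| ≤ 1 / ((j : ℝ) + 1) then w x y else 0) ∂ν with hU
  have hUm : Measurable U := by
    apply Measurable.lintegral_prod_right'
      (f := fun p : ℝ × ℝ => if |p.1 - p.2| ≤ 1 / ((j : ℝ) + 1) then w p.1 p.2 else 0)
    apply Measurable.ite
    · exact measurableSet_le (by fun_prop) (by fun_prop)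
    · exact w_meas
    · exact measurable_const
  set bad : Set ℝ := {x | ENNReal.ofReal τ ≤ U x} with hbad
  have hbm : MeasurableSet bad := measurableSet_le measurable_const hUm
  have hb : ν.real bad ≤ m / 2 := by
    have h1 : ENNReal.ofReal τ * ν bad ≤ ENNReal.ofReal (τ * m / 2) :=
      (mul_meas_ge_le_lintegral hUm _).trans he.le
    have h2 := ENNReal.toReal_mono ENNReal.ofReal_ne_top h1
    rw [ENNReal.toReal_mul, ENNReal.toReal_ofReal hτ0.le, ENNReal.toReal_ofReal (by positivity)] at h2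
    rw [measureReal_def]
    have h3 : τ * (ν bad).toReal ≤ τ * (m / 2) := by linarith
    exact le_of_mul_le_mul_left h3 hτ0
  set G : Set ℝ := badᶜ ∩ (A ∩ Ico (-(N:ℝ)) N) with hG
  have hGm : MeasurableSet G := hbm.compl.inter (hAm.inter measurableSet_Ico)
  have hGge : m / 2 ≤ ν.real G := by
    have h1 : ν.real univ ≤ ν.real G + (ν.real bad + ν.real (A ∩ Ico (-(N:ℝ)) N)ᶜ) := by
      have h2 : (univ : Set ℝ) ⊆ G ∪ (bad ∪ (A ∩ Ico (-(N:ℝ)) N)ᶜ) := by
        intro x _
        by_cases h3 : x ∈ bad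
        · exact Or.inr (Or.inl h3)
        · by_cases h4 : x ∈ A ∩ Ico (-(N:ℝ)) N
          · exact Or.inl ⟨h3, h4⟩
          · exact Or.inr (Or.inr h4)
      refine (measureReal_mono h2 (measure_ne_top _ _)).trans ?_
      refine (measureReal_union_le _ _).trans ?_
      gcongr
      exact measureReal_union_le _ _
    have h5 : ν.real (A ∩ Ico (-(N:ℝ)) N)ᶜ = 0 := by rw [measureReal_def, hA, ENNReal.toReal_zero]
    rw [h5, ← hm] at h1
    linarith
  -- pigeonhole
  set B : ℤ → Set ℝ := fun k => Ico ((k : ℝ) / (j + 1)) (((k : ℝ) + 1) / (j + 1)) with hB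
  set I : Finset ℤ := Finset.Ico (-((N * (j + 1) : ℕ) : ℤ)) ((N * (j + 1) : ℕ) : ℤ) with hI
  have hIc : I.card = 2 * (N * (j + 1)) := by
    rw [hI, Int.card_Ico]
    omega
  have hcover : G ⊆ ⋃ k ∈ I, G ∩ B k := by
    intro x hx
    have h1 := hx.2.2
    rw [mem_Ico] at h1
    set k : ℤ := ⌊x * (j + 1)⌋ with hk
    have h2 : (k : ℝ) ≤ x * (j + 1) := Int.floor_le _
    have h3 : x * (j + 1) < k + 1 := Int.lt_floor_add_one _
    rw [mem_iUnion₂]
    refine ⟨k, ?_, hx, ?_⟩
    · rw [hI, Finset.mem_Ico]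
      constructor
      · rw [hk, Int.le_floor]
        push_cast
        have := mul_le_mul_of_nonneg_right h1.1 hj0.le
        linarith
      · rw [hk, Int.floor_lt]
        push_cast
        exact mul_lt_mul_of_pos_right h1.2 hj0
    · rw [hB, mem_Ico]
      constructor
      · rw [div_le_iff₀ hj0]; exact h2
      · rw [lt_div_iff₀ hj0]; exact h3
  obtain ⟨k, -, hk⟩ : ∃ k ∈ I, m / (4 * (N * (j + 1))) ≤ ν.real (G ∩ B k) := by
    by_contra hcon
    push Not at hcon
    have hne : I.Nonempty := by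
      rw [← Finset.card_pos, hIc]; positivity
    have h1 : ∑ k ∈ I, ν.real (G ∩ B k) < ∑ _k ∈ I, m / (4 * (N * (j + 1))) :=
      Finset.sum_lt_sum_of_nonempty hne hcon
    have h2 : ν.real G ≤ ∑ k ∈ I, ν.real (G ∩ B k) :=
      (measureReal_mono hcover (measure_ne_top _ _)).trans (measureReal_biUnion_finset_le _ _)
    rw [Finset.sum_const, hIc, nsmul_eq_mul] at h1
    have h3 : ((2 * (N * (j + 1)) : ℕ) : ℝ) * (m / (4 * (N * (j + 1)))) = m / 2 := by
      push_cast
      field_simp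
      ring
    rw [h3] at h1
    linarith
  refine ⟨k, fun n => ?_⟩
  set X : Set ℝ := G ∩ B k with hX
  have hXm : MeasurableSet X := hGm.inter measurableSet_Ico
  set μ : Measure ℝ := ν.restrict X with hμ
  have hXpos : 0 < ν.real X := lt_of_lt_of_le (by positivity) hk
  have hμ0 : μ ≠ 0 := by
    intro h
    have h1 : μ univ = 0 := by rw [h]; rfl
    rw [hμ, Measure.restrict_apply_univ] at h1
    rw [measureReal_def, h1] at hXpos
    simp at hXpos
  have hμX : μ Xᶜ = 0 := by
    rw [hμ, Measure.restrict_apply hXm.compl, compl_inter_self, measure_empty]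
  obtain ⟨s, hs1, hs2, hs3⟩ := select hμ0 hμX (V := ENNReal.ofReal (c * (j + 1))) (by
    intro x hx
    have hxU : U x < ENNReal.ofReal τ := not_le.1 hx.1.1
    have h1 : ∫⁻ y, w x y ∂μ ≤ U x := by
      rw [hμ, ← lintegral_indicator hXm]
      apply lintegral_mono
      intro y
      by_cases hy : y ∈ X
      · rw [indicator_of_mem hy]
        have h2 := hx.2
        have h3 := hy.2
        rw [hB, mem_Ico] at h2 h3
        have h4 : |x - y| ≤ 1 / ((j : ℝ) + 1) := by
          have h5 : ((k : ℝ) + 1) / (j + 1) = (k : ℝ) / (j + 1) + 1 / (j + 1) := by rw [add_div]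
          rw [abs_le]
          constructor <;> linarith
        simp only [h4, if_true]
        exact le_rfl
      · rw [indicator_of_notMem hy]
        exact zero_le
    refine h1.trans (hxU.le.trans ?_)
    have h2 : μ univ = ENNReal.ofReal (ν.real X) := by
      rw [hμ, Measure.restrict_apply_univ, measureReal_def, ENNReal.ofReal_toReal (measure_ne_top _ _)]
    rw [h2, ← ENNReal.ofReal_mul (by positivity)]
    apply ENNReal.ofReal_le_ofReal
    calc τ = c * (j + 1) * (m / (4 * (N * (j + 1)))) := by rw [hτ]; field_simp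
      _ ≤ c * (j + 1) * ν.real X := by gcongr) n
  refine ⟨s, hs1, fun x hx => ?_, ?_⟩
  · have h1 := hs2 hx
    exact ⟨h1.1.2.1, h1.2.1, h1.2.2⟩
  · have h1 : ENNReal.ofReal (∑ x ∈ s, ∑ y ∈ s.erase x, Real.log (1 / |x - y|)) ≤
        ENNReal.ofReal (c * (j + 1) * n ^ 2) := by
      refine le_trans (le_trans ?_ hs3) ?_
      · refine le_trans (ofReal_sum_le' _ _) ?_
        refine Finset.sum_le_sum fun x _ => ?_
        exact ofReal_sum_le' _ _
      · rw [mul_assoc, ENNReal.ofReal_mul (by positivity : 0 ≤ c * ((j:ℝ) + 1))]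
        gcongr
        rw [ENNReal.ofReal_pow (Nat.cast_nonneg _), ENNReal.ofReal_natCast, sq]
    exact (ENNReal.ofReal_le_ofReal_iff (by positivity)).1 h1

end Pool.Agent.X114.TS
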