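import Pool.Agent.X114.FM5

/-! Moments over families: the final equivalence. -/

set_option autoImplicit false

open MeasureTheory Filter Topology Set Real

namespace Pool.Agent.X114.FM

open Pool.Agent.H983R4.GL

variable {ι : Type} {L : ι → ℂ → ℂ} {X : ι → ℝ → ℝ} {F : ℕ → Finset ι} {v : ℕ → ι → ℝ}

/-- the weighted `k`-th power sum over the family at height `t` -/
noncomputable def S (L : ι → ℂ → ℂ) (F : ℕ → Finset ι) (v : ℕ → ι → ℝ) (k : ℝ) (N : ℕ) (t : ℝ) : ℝ :=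
  ∑ i ∈ F N, v N i * ‖L i (1 / 2 + t * Complex.I)‖ ^ k

def MomB (L : ι → ℂ → ℂ) (F : ℕ → Finset ι) (v : ℕ → ι → ℝ) (k κ δ : ℝ) : Prop :=
  ∀ ρ : ℝ, ρ < δ → ∀ ε : ℝ, 0 < ε → ∃ B : ℝ, ∀ N : ℕ, 2 ≤ N → ∀ t : ℝ, |t| ≤ (N:ℝ) ^ ρ →
    S L F v k N t ≤ B * (N:ℝ) ^ (κ + ε)

def SampB (L : ι → ℂ → ℂ) (F : ℕ → Finset ι) (v : ℕ → ι → ℝ) (k κ δ : ℝ) (D : ℕ → Set ℝ)
    (α : ℝ) : Prop :=
  ∀ ρ : ℝ, ρ < δ → ∀ ε : ℝ, 0 < ε → ∃ B : ℝ, ∀ N : ℕ, 2 ≤ N → ∀ t ∈ D N, |t| ≤ (N:ℝ) ^ ρ →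
    S L F v k N (t + α) ≤ B * (N:ℝ) ^ (κ + ε)

lemma S_cont (hd : ∀ i, Differentiable ℂ (L i)) {k : ℝ} (hk : 0 < k) (N : ℕ) :
    Continuous (S L F v k N) := by
  unfold S
  refine continuous_finsetSum _ fun i _ => continuous_const.mul ?_
  refine Continuous.rpow_const ?_ fun _ => Or.inr hk.le
  exact continuous_norm.comp ((hd i).continuous.comp (by fun_prop))

lemma S_nonneg (hv : ∀ N i, 0 ≤ v N i) (k : ℝ) (N : ℕ) (t : ℝ) : 0 ≤ S L F v k N t :=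
  Finset.sum_nonneg fun i _ => mul_nonneg (hv N i) (Real.rpow_nonneg (norm_nonneg _) _)

/-- finitely many levels, bounded heights -/
lemma small (hd : ∀ i, Differentiable ℂ (L i)) {k : ℝ} (hk : 0 < k) (R : ℝ) (N₁ : ℕ) :
    ∃ B : ℝ, 0 ≤ B ∧ ∀ N : ℕ, N < N₁ → ∀ t : ℝ, |t| ≤ R → S L F v k N t ≤ B := by
  have h : ∀ N : ℕ, ∃ B : ℝ, 0 ≤ B ∧ ∀ t : ℝ, |t| ≤ R → S L F v k N t ≤ B := by
    intro N
    obtain ⟨B, hB⟩ := (isCompact_Icc (a := -R) (b := R)).exists_bound_of_continuousOn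
      (S_cont (F := F) (v := v) hd hk N).continuousOn
    refine ⟨|B|, abs_nonneg B, fun t ht => ?_⟩
    have h1 := hB t (abs_le.1 ht)
    rw [Real.norm_eq_abs] at h1
    exact (le_abs_self _).trans (h1.trans (le_abs_self B))
  choose B hB0 hB using h
  refine ⟨∑ N ∈ Finset.range N₁, B N, Finset.sum_nonneg fun N _ => hB0 N, fun N hN t ht => ?_⟩
  exact (hB N t ht).trans (Finset.single_le_sum (f := B) (fun N _ => hB0 N) (Finset.mem_range.2 hN))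

lemma large (e : ℝ) (he : 0 < e) (R : ℝ) : ∃ N₁ : ℕ, ∀ N : ℕ, N₁ ≤ N → R ≤ (N:ℝ) ^ e := by
  have h1 := (tendsto_rpow_atTop he).comp (tendsto_natCast_atTop_atTop (R := ℝ))
  have h2 := h1.eventually_ge_atTop R
  rw [eventually_atTop] at h2
  exact h2

lemma wfam_of_fam (H : Fam L X) {δ κ e : ℝ} (he : 0 < e) (hv : ∀ N i, 0 ≤ v N i)
    (hX : ∀ N : ℕ, 2 ≤ N → ∀ i ∈ F N, ∀ T : ℝ, |T| ≤ 2 * (N:ℝ) ^ δ → X i T ≤ (N:ℝ) ^ e)
    (hmass : ∀ ε : ℝ, 0 < ε → ∃ B : ℝ, ∀ N : ℕ, 2 ≤ N → ∑ i ∈ F N, v N i ≤ B * (N:ℝ) ^ (κ + ε)) :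
    ∃ p C m K : ℝ, 0 < p ∧ WFam L F v p C m K δ κ := by
  obtain ⟨p, C, m, K, hp, hC, hm, hK, hld⟩ := H.ld
  refine ⟨p * e, C, m, K, by positivity, hv, fun N hN i hi T hT => ?_, hmass⟩
  refine ld_mono (hld i T) ?_
  have h1 := Real.log_le_log (by linarith [H.one i T]) (hX N hN i hi T hT)
  have hN0 : (0:ℝ) < N := by
    have : (2:ℝ) ≤ N := by exact_mod_cast hN
    linarith
  rw [Real.log_rpow hN0] at h1
  calc p * Real.log (X i T) ≤ p * (e * Real.log N) := by gcongr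
    _ = _ := by ring

/-- **The equivalence.** -/
theorem momB_iff (H : Fam L X) {δ κ e k : ℝ} (he : 0 < e) (hκ : 0 ≤ κ) (hk : 0 < k)
    (hv : ∀ N i, 0 ≤ v N i)
    (hX : ∀ N : ℕ, 2 ≤ N → ∀ i ∈ F N, ∀ T : ℝ, |T| ≤ 2 * (N:ℝ) ^ δ → X i T ≤ (N:ℝ) ^ e)
    (hmass : ∀ ε : ℝ, 0 < ε → ∃ B : ℝ, ∀ N : ℕ, 2 ≤ N → ∑ i ∈ F N, v N i ≤ B * (N:ℝ) ^ (κ + ε))
    (hδ : 0 < δ) {E : Set ℝ} (hE : PosCap E) {D : ℕ → Set ℝ} (hD : NetN δ D) :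
    MomB L F v k κ δ ↔ ∀ α ∈ E, SampB L F v k κ δ D α := by
  have hd : ∀ i, Differentiable ℂ (L i) := by
    obtain ⟨p, C, m, K, hp, hC, hm, hK, hld⟩ := H.ld
    exact fun i => (hld i 0).hd
  constructor
  · intro h α _ ρ hρ ε hε
    set ρ₀ : ℝ := max ρ 0 with hρ₀
    have hρ0 : 0 ≤ ρ₀ := le_max_right _ _
    have hρδ : ρ₀ < δ := max_lt hρ hδ
    obtain ⟨B, hB⟩ := h ((ρ₀ + δ) / 2) (by linarith) ε hε
    obtain ⟨N₁, hN₁⟩ := large ((δ - ρ₀) / 2) (by linarith) (1 + |α|)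
    obtain ⟨B', hB'0, hB'⟩ := small (F := F) (v := v) hd hk ((N₁:ℝ) ^ ρ₀ + |α|) N₁
    refine ⟨|B| + B', fun N hN t _ ht => ?_⟩
    have hNr : (2:ℝ) ≤ N := by exact_mod_cast hN
    have hN0 : (0:ℝ) < N := by linarith
    have hNp : 1 ≤ (N:ℝ) ^ (κ + ε) := Real.one_le_rpow (by linarith) (by linarith)
    have htρ : |t| ≤ (N:ℝ) ^ ρ₀ :=
      ht.trans (Real.rpow_le_rpow_of_exponent_le (by linarith) (le_max_left _ _))
    have htα : |t + α| ≤ (N:ℝ) ^ ρ₀ + |α| := (abs_add_le t α).trans (by linarith)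
    rcases lt_or_ge N N₁ with hNN | hNN
    · have h1 : (N:ℝ) ^ ρ₀ ≤ (N₁:ℝ) ^ ρ₀ := by
        have : (N:ℝ) ≤ N₁ := by exact_mod_cast hNN.le
        gcongr
      refine (hB' N hNN (t + α) (by linarith)).trans ?_
      nlinarith [abs_nonneg B]
    · have h1 := hN₁ N hNN
      have h2 : (N:ℝ) ^ ρ₀ + |α| ≤ (N:ℝ) ^ ((ρ₀ + δ) / 2) := by
        have h3 : 1 ≤ (N:ℝ) ^ ρ₀ := Real.one_le_rpow (by linarith) hρ0
        calc (N:ℝ) ^ ρ₀ + |α| ≤ (1 + |α|) * (N:ℝ) ^ ρ₀ := by nlinarith [abs_nonneg α]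
          _ ≤ (N:ℝ) ^ ((δ - ρ₀) / 2) * (N:ℝ) ^ ρ₀ := by gcongr
          _ = _ := by rw [← Real.rpow_add hN0]; congr 1; ring
      refine (hB N hN (t + α) (htα.trans h2)).trans ?_
      have h4 := le_abs_self B
      nlinarith
  · intro h ρ hρ ε hε
    set ρ₀ : ℝ := max ρ 0 with hρ₀
    have hρ0 : 0 ≤ ρ₀ := le_max_right _ _
    have hρδ : ρ₀ < δ := max_lt hρ hδ
    set ρ₁ : ℝ := (2 * ρ₀ + δ) / 3 with hρ₁
    set ρ₂ : ℝ := (ρ₀ + 2 * δ) / 3 with hρ₂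
    have h12 : ρ₁ < ρ₂ := by rw [hρ₁, hρ₂]; linarith
    have h2δ : ρ₂ < δ := by rw [hρ₂]; linarith
    have h01 : ρ₀ < ρ₁ := by rw [hρ₁]; linarith
    obtain ⟨u, hu⟩ := exists_isMax hd
    obtain ⟨p, C, m, K, hp, hF⟩ := wfam_of_fam (δ := ρ₂) H he hv (fun N hN i hi T hT => hX N hN i hi T
      (hT.trans (by
        have hNr : (1:ℝ) ≤ N := by exact_mod_cast (by omega : 1 ≤ N)
        gcongr))) hmass
    have hD' : NetN ρ₂ D := by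
      intro r hr
      obtain ⟨N₀, hN₀⟩ := hD r hr
      refine ⟨max N₀ 1, fun N hN T hT => hN₀ N ((le_max_left _ _).trans hN) T (hT.trans ?_)⟩
      have hNr : (1:ℝ) ≤ N := by exact_mod_cast (le_max_right N₀ 1).trans hN
      gcongr
    have hPM := thinF hu hd hF hp hk hκ hE hD' (fun α hα ε hε => by
      obtain ⟨B, hB⟩ := h α hα ρ₂ h2δ ε hε
      exact ⟨B, fun N hN t ht htN => hB N hN t ht htN⟩)
    obtain ⟨B, hB⟩ := hPM ρ₁ (by linarith) h12 ε hε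
    obtain ⟨N₁, hN₁⟩ := large (ρ₁ - ρ₀) (by linarith) 2
    obtain ⟨B', hB'0, hB'⟩ := small (F := F) (v := v) hd hk ((N₁:ℝ) ^ ρ₀) N₁
    refine ⟨|B| + B', fun N hN t ht => ?_⟩
    have hNr : (2:ℝ) ≤ N := by exact_mod_cast hN
    have hN0 : (0:ℝ) < N := by linarith
    have hNp : 1 ≤ (N:ℝ) ^ (κ + ε) := Real.one_le_rpow (by linarith) (by linarith)
    have htρ : |t| ≤ (N:ℝ) ^ ρ₀ :=
      ht.trans (Real.rpow_le_rpow_of_exponent_le (by linarith) (le_max_left _ _))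
    rcases lt_or_ge N N₁ with hNN | hNN
    · have h1 : (N:ℝ) ^ ρ₀ ≤ (N₁:ℝ) ^ ρ₀ := by
        have : (N:ℝ) ≤ N₁ := by exact_mod_cast hNN.le
        gcongr
      refine (hB' N hNN t (by linarith)).trans ?_
      nlinarith [abs_nonneg B]
    · have h1 := hN₁ N hNN
      have h3 : 1 ≤ (N:ℝ) ^ ρ₀ := Real.one_le_rpow (by linarith) hρ0
      have h2 : (N:ℝ) ^ ρ₀ + 1 ≤ (N:ℝ) ^ ρ₁ := by
        calc (N:ℝ) ^ ρ₀ + 1 ≤ 2 * (N:ℝ) ^ ρ₀ := by linarith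
          _ ≤ (N:ℝ) ^ (ρ₁ - ρ₀) * (N:ℝ) ^ ρ₀ := by gcongr
          _ = _ := by rw [← Real.rpow_add hN0]; congr 1; ring
      have hf1 : ((⌊t⌋ : ℤ) : ℝ) ≤ t := Int.floor_le t
      have hf2 : t < (⌊t⌋ : ℤ) + 1 := Int.lt_floor_add_one t
      have ht' := abs_le.1 htρ
      have h4 : |((⌊t⌋ : ℤ) : ℝ)| ≤ (N:ℝ) ^ ρ₁ := by
        rw [abs_le]; constructor <;> linarith
      have h5 := hB N hN ⌊t⌋ h4
      have h6 : S L F v k N t ≤ ∑ i ∈ F N, v N i * G L i (u i ⌊t⌋) ^ k := by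
        unfold S
        apply Finset.sum_le_sum
        intro i _
        refine mul_le_mul_of_nonneg_left ?_ (hv N i)
        refine Real.rpow_le_rpow (norm_nonneg _) ?_ hk.le
        exact (hu i ⌊t⌋).2 t (by rw [abs_le]; constructor <;> linarith)
      refine (h6.trans h5).trans ?_
      have h7 := le_abs_self B
      nlinarith

/-- moments of unbounded order give the Lindelöf bound -/
theorem lind_of_momB {κ δ : ℝ} (hκ : 0 ≤ κ)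
    (h : ∀ k₀ : ℝ, ∃ k : ℝ, k₀ ≤ k ∧ 0 < k ∧ MomB L F (fun _ _ => 1) k κ δ) (ρ : ℝ) (hρ : ρ < δ)
    (ε : ℝ) (hε : 0 < ε) : ∃ B : ℝ, ∀ N : ℕ, 2 ≤ N → ∀ i ∈ F N, ∀ t : ℝ, |t| ≤ (N:ℝ) ^ ρ →
      ‖L i (1 / 2 + t * Complex.I)‖ ≤ B * (N:ℝ) ^ ε := by
  obtain ⟨k, hk1, hk0, hM⟩ := h ((κ + 1) / ε)
  obtain ⟨B, hB⟩ := hM ρ hρ 1 one_pos
  refine ⟨|B| ^ k⁻¹, fun N hN i hi t ht => ?_⟩
  have hNr : (2:ℝ) ≤ N := by exact_mod_cast hN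
  have hN0 : (0:ℝ) < N := by linarith
  have h1 := hB N hN t ht
  have h2 : ‖L i (1 / 2 + t * Complex.I)‖ ^ k ≤ |B| * (N:ℝ) ^ (κ + 1) := by
    have h3 : ‖L i (1 / 2 + t * Complex.I)‖ ^ k ≤ S L F (fun _ _ => 1) k N t := by
      unfold S
      have := Finset.single_le_sum (f := fun i => (1:ℝ) * ‖L i (1 / 2 + t * Complex.I)‖ ^ k)
        (fun i _ => by positivity) hi
      simpa using this
    refine (h3.trans h1).trans ?_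
    gcongr
    exact le_abs_self B
  have h4 := Real.rpow_le_rpow (by positivity) h2 (inv_nonneg.2 hk0.le)
  rw [Real.rpow_rpow_inv (norm_nonneg _) hk0.ne', Real.mul_rpow (abs_nonneg B) (by positivity),
    ← Real.rpow_mul hN0.le] at h4
  refine h4.trans ?_
  gcongr
  · linarith
  · rw [div_le_iff₀ hε] at hk1
    rw [← div_eq_mul_inv, div_le_iff₀ hk0]
    linarith

end Pool.Agent.X114.FM
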