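import Pool.Agent.X114.CP3

/-! Families of L-functions: small values near large values, and criteria. -/

set_option autoImplicit false

open MeasureTheory Filter Topology Set Real

namespace Pool.Agent.X114.CP

open Pool.Agent.X114.TS Pool.Agent.H983R4.GL

lemma CapGe.translate {E : Set ℝ} {c : ℝ} (H : CapGe E c) (T : ℝ) : CapGe {x | x - T ∈ E} c := by
  obtain ⟨ν, h1, h2, h3, h4⟩ := H
  set e : ℝ ≃ᵐ ℝ := (Homeomorph.addRight T).toMeasurableEquiv with he
  have hee : ∀ x, e x = x + T := fun _ => rfl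
  refine ⟨ν.map e, ?_, ?_, ?_, ?_⟩
  · rw [MeasurableEquiv.map_apply, preimage_univ, h1]
  · rw [MeasurableEquiv.map_apply]
    have : e ⁻¹' {x | x - T ∈ E}ᶜ = Eᶜ := by
      ext x
      simp [hee]
    rw [this, h2]
  · intro x
    rw [MeasurableEquiv.map_apply]
    have : e ⁻¹' {x} = {x - T} := by
      ext y
      rw [mem_preimage, hee, mem_singleton_iff, mem_singleton_iff]
      constructor <;> intro h <;> linarith
    rw [this, h3]
  · intro x
    rw [lintegral_map (w_meas'' x) e.measurable]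
    refine le_trans (le_of_eq ?_) (h4 (x - T))
    apply lintegral_congr
    intro y
    rw [hee]
    unfold w
    congr 4
    ring

variable {ι : Type*} {L : ι → ℂ → ℂ} {X : ι → ℝ → ℝ}

/-- the points near `T` with a value at most `X ^ κ` -/
def Small (L : ι → ℂ → ℂ) (X : ι → ℝ → ℝ) (κ : ℝ) (i : ι) (T h : ℝ) : Set ℝ :=
  {x : ℝ | |x - T| ≤ h ∧ ‖L i (1 / 2 + x * Complex.I)‖ ≤ X i T ^ κ}

theorem cap_small (H : Fam L X) {κ μ : ℝ} (hκμ : κ < μ) :
    ∃ δ : ℝ, 0 < δ ∧ ∃ X₀ : ℝ, ∀ (i : ι) (T : ℝ), X₀ ≤ X i T →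
      X i T ^ μ ≤ ‖L i (1 / 2 + T * Complex.I)‖ → ∀ h : ℝ, 0 < h → h ≤ 1 / 8 →
      ∀ c : ℝ, 0 < c → c ≤ 1 → CapGe (Small L X κ i T h) c → c ≤ h * (8 * h / 3) ^ δ := by
  obtain ⟨p, C, m, K, hp, hC, hm, hK, hld⟩ := H.ld
  obtain ⟨δ, hδ, Λ₀, h⟩ := small_values (p := p) (C := C) (m := m) (K := K) hp hκμ
  refine ⟨δ, hδ, Real.exp Λ₀, fun i T hX hz h' h0 h8 c hc hc1 hcap => ?_⟩
  have hX1 := H.one i T
  have hXp : 0 < X i T := by linarith
  have h2 : Λ₀ ≤ Real.log (X i T) := by rwa [Real.le_log_iff_exp_le hXp]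
  have e : ∀ y : ℝ, Real.exp (y * Real.log (X i T)) = X i T ^ y := by
    intro y
    rw [Real.rpow_def_of_pos hXp, mul_comm]
  refine h (L i) T (Real.log (X i T)) h2 (hld i T) (by rw [e]; exact hz) h' h0 h8 c hc hc1 ?_
  rw [e]
  exact hcap

lemma small_meas (H : Fam L X) (κ : ℝ) (i : ι) (T h : ℝ) : MeasurableSet (Small L X κ i T h) := by
  obtain ⟨p, C, m, K, hp, hC, hm, hK, hld⟩ := H.ld
  have hc : Continuous fun x : ℝ => ‖L i (1 / 2 + x * Complex.I)‖ :=
    continuous_norm.comp ((hld i 0).hd.continuous.comp (by fun_prop))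
  have h0 : Continuous fun x : ℝ => |x - T| := by fun_prop
  have h1 : IsClosed (Small L X κ i T h) :=
    (isClosed_le h0 continuous_const).inter (isClosed_le hc continuous_const)
  exact h1.measurableSet

theorem vol_small (H : Fam L X) {κ μ : ℝ} (hκμ : κ < μ) :
    ∃ δ : ℝ, 0 < δ ∧ ∃ X₀ : ℝ, ∀ (i : ι) (T : ℝ), X₀ ≤ X i T →
      X i T ^ μ ≤ ‖L i (1 / 2 + T * Complex.I)‖ → ∀ h : ℝ, 0 < h → h ≤ 1 / 8 →
      (∀ c : ℝ, 0 < c → c ≤ 1 → CapGe (Small L X κ i T h) c → c ≤ h * (8 * h / 3) ^ δ) ∧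
      volume (Small L X κ i T h) ≤ ENNReal.ofReal (2 * Real.exp 1 * (h * (8 * h / 3) ^ δ)) := by
  obtain ⟨δ, hδ, X₀, h⟩ := cap_small H hκμ
  refine ⟨δ, hδ, X₀, fun i T hX hz h' h0 h8 => ⟨h i T hX hz h' h0 h8, ?_⟩⟩
  set V := volume (Small L X κ i T h') with hV
  have hle : V ≤ ENNReal.ofReal (2 * h') := by
    have h1 : Small L X κ i T h' ⊆ Icc (T - h') (T + h') := by
      intro x hx
      have := abs_le.1 hx.1
      rw [mem_Icc]; constructor <;> linarith
    refine (measure_mono h1).trans (le_of_eq ?_)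
    rw [Real.volume_Icc]
    congr 1
    ring
  have hfin : V ≠ ⊤ := ne_top_of_le_ne_top ENNReal.ofReal_ne_top hle
  rcases eq_or_ne V 0 with h00 | h00
  · rw [h00]; exact zero_le
  · have hv : 0 < V.toReal := ENNReal.toReal_pos h00 hfin
    have hv2 : V.toReal ≤ 2 * h' := by
      have := ENNReal.toReal_mono ENNReal.ofReal_ne_top hle
      rwa [ENNReal.toReal_ofReal (by positivity)] at this
    have h1 := capGe_of_volume (small_meas H κ i T h') hv (by linarith)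
      (by rw [ENNReal.ofReal_toReal hfin])
    have he1 : 1 ≤ Real.exp 1 := Real.one_le_exp (by norm_num)
    have h2 := h i T hX hz h' h0 h8 _ (by positivity) (by
      rw [div_le_one (by positivity)]; linarith) h1
    rw [← ENNReal.ofReal_toReal hfin]
    apply ENNReal.ofReal_le_ofReal
    rw [div_le_iff₀ (by positivity)] at h2
    linarith

/-- windows with many (in the sense of capacity) values `≤ X ^ (κ + ε)` -/
def CapExponent (L : ι → ℂ → ℂ) (X : ι → ℝ → ℝ) (S : Set (ι × ℝ)) (κ : ℝ) : Prop :=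
  ∀ ε : ℝ, 0 < ε → ∀ η : ℝ, 0 < η → ∃ X₀ : ℝ, ∀ (i : ι) (T : ℝ), (i, T) ∈ S → X₀ ≤ X i T →
    ∃ h c : ℝ, 0 < h ∧ h ≤ 1 / 8 ∧ h ^ (1 + η) ≤ c ∧ c ≤ 1 ∧ CapGe (Small L X (κ + ε) i T h) c

theorem adm_of_cap (H : Fam L X) {κ₀ : ℝ} (hκ : 0 ≤ κ₀) {S : Set (ι × ℝ)}
    (h : CapExponent L X S κ₀) : AdmOn L X S κ₀ := by
  intro ε hε
  obtain ⟨p, C, m, K, hp, hC, hm, hK, hld⟩ := H.ld
  obtain ⟨δ, hδ, X₀, hcap⟩ := cap_small H (κ := κ₀ + ε / 2) (μ := κ₀ + ε) (by linarith)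
  obtain ⟨X₁, hX₁⟩ := h (ε / 2) (by linarith) (δ / 2) (by linarith)
  set R := max 1 (max X₀ X₁) with hR
  have hR1 : 1 ≤ R := le_max_left _ _
  refine ⟨max 1 (Real.exp C * R ^ p), fun i T hS => ?_⟩
  have hX1 := H.one i T
  have hXp : 0 < X i T := by linarith
  have hXe : 1 ≤ X i T ^ (κ₀ + ε) := Real.one_le_rpow hX1 (by linarith)
  by_cases hc : X i T ≤ R
  · have h1 := (hld i T).g (1 / 2 + T * Complex.I) (by simp)
    have e1 : (1 / 2 + (T : ℂ) * Complex.I).im = T := by simp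
    rw [e1, sub_self, abs_zero, add_zero, Real.log_one, mul_zero, add_zero] at h1
    have h2 : ‖L i (1 / 2 + T * Complex.I)‖ ≤ Real.exp (C + p * Real.log (X i T)) :=
      (le_exp_posLog (norm_nonneg _)).trans (Real.exp_le_exp.2 h1)
    have h3 : Real.exp (C + p * Real.log (X i T)) = Real.exp C * X i T ^ p := by
      rw [Real.exp_add, Real.rpow_def_of_pos hXp]
      congr 2
      ring
    have h4 : X i T ^ p ≤ R ^ p := Real.rpow_le_rpow hXp.le hc hp.le
    have h5 : Real.exp C * X i T ^ p ≤ Real.exp C * R ^ p :=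
      mul_le_mul_of_nonneg_left h4 (Real.exp_pos _).le
    have h6 : Real.exp C * R ^ p ≤ max 1 (Real.exp C * R ^ p) := le_max_right _ _
    have h7 : max 1 (Real.exp C * R ^ p) ≤ max 1 (Real.exp C * R ^ p) * X i T ^ (κ₀ + ε) :=
      le_mul_of_one_le_right (by positivity) hXe
    linarith
  · push Not at hc
    have hX₀ : X₀ ≤ X i T := ((le_max_left _ _).trans (le_max_right _ _)).trans hc.le
    have hX₁' : X₁ ≤ X i T := ((le_max_right _ _).trans (le_max_right _ _)).trans hc.le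
    have h1 : ‖L i (1 / 2 + T * Complex.I)‖ ≤ X i T ^ (κ₀ + ε) := by
      by_contra hcon
      push Not at hcon
      obtain ⟨h', c, hh0, hh8, hc1, hc2, hc3⟩ := hX₁ i T hS hX₁'
      have hc0 : 0 < c := lt_of_lt_of_le (Real.rpow_pos_of_pos hh0 _) hc1
      rw [show κ₀ + ε / 2 = κ₀ + ε / 2 from rfl] at hc3
      have h2 := hcap i T hX₀ hcon.le h' hh0 hh8 c hc0 hc2 hc3
      have h3 : h' ^ (1 + δ / 2) ≤ h' * (8 * h' / 3) ^ δ := hc1.trans h2
      rw [Real.rpow_add hh0, Real.rpow_one] at h3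
      have h4 : h' ^ (δ / 2) ≤ (8 * h' / 3) ^ δ := le_of_mul_le_mul_left h3 hh0
      have h5 : (8 * h' / 3) ^ δ = ((8 * h' / 3) ^ 2) ^ (δ / 2) := by
        rw [← Real.rpow_natCast (8 * h' / 3) 2, ← Real.rpow_mul (by positivity)]
        congr 1
        push_cast
        ring
      rw [h5] at h4
      have h6 : (8 * h' / 3) ^ 2 < h' := by nlinarith
      have h7 := Real.rpow_lt_rpow (by positivity) h6 (by linarith : 0 < δ / 2)
      linarith
    refine h1.trans (le_mul_of_one_le_left (by positivity) (le_max_left _ _))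

theorem cap_of_adm (H : Fam L X) {κ₀ : ℝ} (hκ : 0 ≤ κ₀) (h : AdmOn L X univ κ₀) :
    CapExponent L X univ κ₀ := by
  intro ε hε η hη
  obtain ⟨X₀, -, hX₀⟩ := H.empty hκ h hε
  set r : ℝ := min (1 / 8) (Real.exp (-(1 / η))) with hr
  have hr0 : 0 < r := lt_min (by norm_num) (Real.exp_pos _)
  have hr8 : r ≤ 1 / 8 := min_le_left _ _
  refine ⟨X₀, fun i T _ hX => ⟨r, r / Real.exp 1, hr0, hr8, ?_, ?_, ?_⟩⟩
  · rw [Real.rpow_add hr0, Real.rpow_one, div_eq_mul_inv, ← Real.exp_neg]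
    apply mul_le_mul_of_nonneg_left _ hr0.le
    calc r ^ η ≤ (Real.exp (-(1 / η))) ^ η :=
          Real.rpow_le_rpow hr0.le (min_le_right _ _) hη.le
      _ = Real.exp (-1) := by
          rw [← Real.exp_mul]; congr 1; field_simp
  · rw [div_le_one (Real.exp_pos _)]
    have : 1 ≤ Real.exp 1 := Real.one_le_exp (by norm_num)
    linarith
  · have he : Small L X (κ₀ + ε) i T r = Icc (T - r) (T + r) := by
      ext x
      constructor
      · intro hx
        have := abs_le.1 hx.1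
        rw [mem_Icc]; constructor <;> linarith
      · intro hx
        rw [mem_Icc] at hx
        have h1 : |x - T| ≤ r := by rw [abs_le]; constructor <;> linarith
        refine ⟨h1, ?_⟩
        by_contra hcon
        push Not at hcon
        have h2 : x ∈ Big L X (κ₀ + ε) i T r := ⟨h1, hcon⟩
        rw [hX₀ i T hX r (by linarith)] at h2
        exact h2
    rw [he]
    have h1 := capGe_of_volume (E := Icc (T - r) (T + r)) measurableSet_Icc (v := 2 * r)
      (by positivity) (by linarith) (by rw [Real.volume_Icc]; congr 1; ring)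
    have e2 : 2 * r / (2 * Real.exp 1) = r / Real.exp 1 := by
      rw [mul_div_mul_left _ _ (by norm_num)]
    rwa [e2] at h1

/-- a set of reals that is not too thin at `0` -/
def NotThin (E : Set ℝ) : Prop := ∀ η : ℝ, 0 < η → ∃ h c : ℝ, 0 < h ∧ h ≤ 1 / 8 ∧ h ^ (1 + η) ≤ c ∧
  c ≤ 1 ∧ CapGe {x | x ∈ E ∧ |x| ≤ h} c

theorem adm_of_thin (H : Fam L X) {κ₀ : ℝ} (hκ : 0 ≤ κ₀) {E : Set ℝ} (hE : NotThin E)
    {S : Set (ι × ℝ)} (h : AdmOn L X {q | ∃ T : ℝ, (q.1, T) ∈ S ∧ q.2 - T ∈ E} κ₀) :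
    AdmOn L X S κ₀ := by
  apply adm_of_cap H hκ
  intro ε hε η hη
  obtain ⟨h', c, h1, h2, h3, h4, h5⟩ := hE η hη
  obtain ⟨m, hm, hsh⟩ := H.shift
  obtain ⟨B, hB⟩ := h (ε / 2) (by linarith)
  set e : ℝ := κ₀ + ε / 2 with he
  have he0 : 0 < e := by rw [he]; linarith
  set D : ℝ := |B| * 2 ^ (m * e) + 1 with hD
  have hD1 : 1 ≤ D := by
    have : 0 ≤ |B| * 2 ^ (m * e) := by positivity
    rw [hD]; linarith
  refine ⟨max 2 (D ^ (2 / ε)), fun i T hS hX => ⟨h', c, h1, h2, h3, h4, ?_⟩⟩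
  have hXD : D ^ (2 / ε) ≤ X i T := (le_max_right _ _).trans hX
  have hX1 := H.one i T
  have hXp : 0 < X i T := by linarith
  have g2 : D ≤ X i T ^ (ε / 2) := by
    have h3 := Real.rpow_le_rpow (by positivity) hXD (by linarith : 0 ≤ ε / 2)
    rw [← Real.rpow_mul (by linarith)] at h3
    have : 2 / ε * (ε / 2) = 1 := by field_simp
    rwa [this, Real.rpow_one] at h3
  have hc0 : 0 < c := lt_of_lt_of_le (Real.rpow_pos_of_pos h1 _) h3
  refine (h5.translate T).mono ?_ hc0 le_rfl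
  rintro x ⟨hx1, hx2⟩
  refine ⟨hx2, ?_⟩
  have g4 := hB i x ⟨T, hS, hx1⟩
  have g5 : X i x ≤ 2 ^ m * X i T := by
    have h6 := hsh i T (x - T)
    rw [add_sub_cancel] at h6
    refine h6.trans ?_
    refine mul_le_mul_of_nonneg_right ?_ hXp.le
    exact Real.rpow_le_rpow (by positivity) (by linarith) hm
  have g7 : X i x ^ e ≤ 2 ^ (m * e) * X i T ^ e := by
    have h8 := Real.rpow_le_rpow (by linarith [H.one i x]) g5 he0.le
    rwa [Real.mul_rpow (by positivity) hXp.le, ← Real.rpow_mul (by norm_num)] at h8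
  have g9 : X i T ^ (κ₀ + ε) = X i T ^ (ε / 2) * X i T ^ e := by
    rw [← Real.rpow_add hXp]; congr 1; rw [he]; ring
  have g10 : B * X i x ^ e ≤ |B| * (2 ^ (m * e) * X i T ^ e) := by
    calc B * X i x ^ e ≤ |B| * X i x ^ e :=
          mul_le_mul_of_nonneg_right (le_abs_self B) (Real.rpow_nonneg (by linarith [H.one i x]) _)
      _ ≤ _ := mul_le_mul_of_nonneg_left g7 (abs_nonneg B)
  have g11 : |B| * (2 ^ (m * e) * X i T ^ e) ≤ X i T ^ (ε / 2) * X i T ^ e := by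
    rw [← mul_assoc]
    exact mul_le_mul_of_nonneg_right (by linarith) (by positivity)
  rw [g9]
  exact g4.trans (g10.trans g11)

end Pool.Agent.X114.CP
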