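import Pool.Agent.X114.TM4

/-! Moments: integrals, and the converse. -/

set_option autoImplicit false

open Filter Topology Set Real MeasureTheory

namespace Pool.Agent.X114.TM

open Pool.Agent.X114.TS (w configs w_meas)
open Pool.Agent.X114.CP (kernel_integral)

/-- configurations for Lebesgue measure -/
lemma conf_leb {η : ℝ} (hη : 0 < η) :
    ∃ r y₀ : ℝ, 0 < r ∧ r ≤ 1 / 8 ∧ ∀ n : ℕ, ∃ s : Finset ℝ, s.card = n ∧
      (∀ x ∈ s, |x - y₀| ≤ r / 2) ∧
      ∑ x ∈ s, ∑ y ∈ s.erase x, Real.log (2 * r / |x - y|) ≤ η / (5 * r) * n ^ 2 := by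
  set ν : Measure ℝ := volume.restrict (Ico (0:ℝ) 1) with hν
  have hν1 : ν univ = 1 := by rw [hν, Measure.restrict_apply_univ, Real.volume_Ico]; simp
  have : IsFiniteMeasure ν := ⟨by rw [hν1]; exact ENNReal.one_lt_top⟩
  have hν0 : ν ≠ 0 := by
    intro h
    rw [h] at hν1
    simp at hν1
  have hE : ∫⁻ x, ∫⁻ y, w x y ∂ν ∂ν ≠ ⊤ := by
    have h1 : ∀ᵐ x ∂ν, ∫⁻ y, w x y ∂ν ≤ ENNReal.ofReal 2 := by
      rw [hν, ae_restrict_iff' measurableSet_Ico]
      refine Eventually.of_forall fun x hx => ?_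
      have h2 := kernel_integral one_pos le_rfl x
      rw [div_one, Real.log_one, add_zero, mul_one, mul_one] at h2
      rw [← h2]
      apply lintegral_mono_set
      intro y hy
      rw [mem_Ico] at hx hy
      rw [mem_Icc]
      constructor <;> linarith
    have h2 : ∫⁻ x, ∫⁻ y, w x y ∂ν ∂ν ≤ ∫⁻ _x, ENNReal.ofReal 2 ∂ν := lintegral_mono_ae h1
    rw [lintegral_const, hν1, mul_one] at h2
    exact ne_top_of_le_ne_top ENNReal.ofReal_ne_top h2
  obtain ⟨r, y₀, h1, h2, h3⟩ := conf hν0 hE (A := univ) MeasurableSet.univ (N := 1) one_pos (by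
    rw [hν, Measure.restrict_apply' measurableSet_Ico, univ_inter]
    have : (Ico (-((1:ℕ):ℝ)) ((1:ℕ):ℝ))ᶜ ∩ Ico (0:ℝ) 1 = ∅ := by
      ext x
      simp only [mem_inter_iff, mem_compl_iff, mem_Ico, mem_empty_iff_false, iff_false]
      push_cast
      rintro ⟨h1, h2, h3⟩
      exact h1 ⟨by linarith, h3⟩
    rw [this, measure_empty]) hη
  refine ⟨r, y₀, h1, h2, fun n => ?_⟩
  obtain ⟨s, a, b, c⟩ := h3 n
  exact ⟨s, a, fun x hx => (b x hx).2, c⟩

/-- a good translate of a configuration -/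
lemma avg {q : ℝ} (hq : 0 < q) {s : Finset ℝ} {y₀ r T : ℝ} (hr : 0 < r) (hr8 : r ≤ 1 / 8)
    (hs : ∀ x ∈ s, |x - y₀| ≤ r / 2) : ∃ a : ℝ, |a + y₀ - T| ≤ r / 2 ∧
      ∑ x ∈ s, Z (a + x) ^ q ≤ s.card / r * ∫ x in (T - 1)..(T + 1), Z x ^ q := by
  have hc := Zq_cont hq
  set h : ℝ → ℝ := fun b => ∑ x ∈ s, Z (b + x) ^ q with hh
  have hhc : Continuous h := continuous_finsetSum _ fun x _ => hc.comp (by fun_prop)
  obtain ⟨a, ha, hmin⟩ := (isCompact_Icc (a := T - y₀ - r / 2) (b := T - y₀ + r / 2)).exists_isMinOn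
    ⟨T - y₀, by constructor <;> linarith⟩ hhc.continuousOn
  refine ⟨a, ?_, ?_⟩
  · rw [abs_le]; constructor <;> linarith [ha.1, ha.2]
  · have h1 : h a * r ≤ ∫ b in (T - y₀ - r / 2)..(T - y₀ + r / 2), h b := by
      have h2 : ∫ _b in (T - y₀ - r / 2)..(T - y₀ + r / 2), h a ≤
          ∫ b in (T - y₀ - r / 2)..(T - y₀ + r / 2), h b :=
        intervalIntegral.integral_mono_on (by linarith) (by simp)
          (hhc.intervalIntegrable _ _) fun b hb => hmin hb
      rw [intervalIntegral.integral_const, smul_eq_mul] at h2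
      linarith
    have h3 : ∫ b in (T - y₀ - r / 2)..(T - y₀ + r / 2), h b ≤
        s.card * ∫ x in (T - 1)..(T + 1), Z x ^ q := by
      have e : ∫ b in (T - y₀ - r / 2)..(T - y₀ + r / 2), h b =
          ∑ x ∈ s, ∫ b in (T - y₀ - r / 2)..(T - y₀ + r / 2), Z (b + x) ^ q :=
        intervalIntegral.integral_finsetSum fun x _ =>
          (hc.comp (by fun_prop : Continuous fun b : ℝ => b + x)).intervalIntegrable _ _
      rw [e, ← nsmul_eq_mul]
      apply Finset.sum_le_card_nsmul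
      intro x hx
      rw [intervalIntegral.integral_comp_add_right (fun b => Z b ^ q)]
      have h4 := abs_le.1 (hs x hx)
      exact intervalIntegral.integral_mono_interval (by linarith) (by linarith) (by linarith)
        (Eventually.of_forall fun b => Zq_nonneg q b) (hc.intervalIntegrable _ _)
    rw [div_mul_eq_mul_div, le_div_iff₀ hr]
    exact h1.trans h3

/-- the integral over a unit interval -/
noncomputable def gg (q : ℝ) (m : ℕ) : ℝ := ∫ x in (m:ℝ)..(m + 1 : ℕ), Z x ^ q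

lemma gg_nonneg (q : ℝ) (m : ℕ) : 0 ≤ gg q m :=
  intervalIntegral.integral_nonneg (by push_cast; linarith) fun x _ => Zq_nonneg q x

lemma gg_sum {q : ℝ} (hq : 0 < q) {a b : ℕ} (hab : a ≤ b) :
    ∑ m ∈ Finset.Ico a b, gg q m = ∫ x in (a:ℝ)..b, Z x ^ q :=
  intervalIntegral.sum_integral_adjacent_intervals_Ico hab
    fun k _ => (Zq_cont hq).intervalIntegrable _ _

/-- **Configurations from integrals.** -/
theorem samp_int {u : ℕ → ℝ} (hu : IsMax u) {q κ r y₀ η : ℝ} (hq : 0 < q) (hκ : 0 ≤ κ)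
    (hr : 0 < r) (hr8 : r ≤ 1 / 8) (hη : 0 < η) (hM : MomentBound q κ)
    (hconf : ∀ n : ℕ, ∃ s : Finset ℝ, s.card = n ∧ (∀ x ∈ s, |x - y₀| ≤ r / 2) ∧
      ∑ x ∈ s, ∑ y ∈ s.erase x, Real.log (2 * r / |x - y|) ≤ η / (5 * r) * n ^ 2) :
    Samp u q κ r η := by
  classical
  choose s hs1 hs2 hs3 using hconf
  set m₀ : ℕ := ⌈Real.exp (1 / r)⌉₊ + 2 with hm₀
  have hLm : ∀ m : ℕ, m₀ ≤ m → 1 ≤ r * Real.log (u m) := by
    intro m hm
    have hmr : (m₀:ℝ) ≤ m := by exact_mod_cast hm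
    have h1 : Real.exp (1 / r) + 2 ≤ m₀ := by
      rw [hm₀]; push_cast
      have := Nat.le_ceil (Real.exp (1 / r))
      linarith
    have h2 := abs_le.1 (hu m).1
    have h3 : Real.exp (1 / r) ≤ u m := by linarith
    have hTp : 0 < u m := (Real.exp_pos _).trans_le h3
    have hL : 1 / r ≤ Real.log (u m) := by rwa [Real.le_log_iff_exp_le hTp]
    rw [div_le_iff₀ hr] at hL
    linarith
  set k : ℕ → ℕ := fun m => ⌈4 * r * Real.log (u m)⌉₊ with hk
  have hS : ∀ m : ℕ, ∃ s' : Finset ℝ, (m₀ ≤ m → (∀ x ∈ s', |x - u m| ≤ r) ∧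
      4 * r * Real.log (u m) ≤ s'.card ∧
      ∑ x ∈ s', ∑ y ∈ s'.erase x, Real.log (2 * r / |x - y|) ≤ η * s'.card * Real.log (u m)) ∧
      ∑ x ∈ s', Z x ^ q ≤ k m / r * ∫ x in (u m - 1)..(u m + 1), Z x ^ q := by
    intro m
    by_cases hm : m₀ ≤ m
    · obtain ⟨a, ha1, ha2⟩ := avg hq (T := u m) hr hr8 (hs2 (k m))
      obtain ⟨s', h1, h2, h3, h4⟩ := conf_shift (s := s (k m)) (y₀ := y₀) (a := a) (T := u m)
        hr hη (hs2 _) ha1 (by rw [hs1]; exact hs3 (k m)) (hLm m hm) (hs1 _)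
      refine ⟨s', fun _ => ⟨h1, h2, h3⟩, ?_⟩
      rw [h4 fun x => Z x ^ q]
      rwa [hs1] at ha2
    · refine ⟨∅, fun h => absurd h hm, ?_⟩
      have := intervalIntegral.integral_nonneg (μ := volume) (show u m - 1 ≤ u m + 1 by linarith)
        fun x _ => Zq_nonneg q x
      simp only [Finset.sum_empty]
      positivity
  choose s' hs' hs'' using hS
  refine ⟨m₀, s', hs', fun ε hε => ?_⟩
  apply fin_fix (by linarith)
  obtain ⟨C, hC, hlog⟩ := log_small (c := 4 * r) (δ := ε / 2) (by positivity) (by positivity)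
  obtain ⟨B, hB⟩ := hM (ε / 2) (by positivity)
  refine ⟨C / r * (5 * (3 * (|B| * 2 ^ (κ + ε / 2)))), 6, fun N hN hN1 => ?_⟩
  have hNr : (6:ℝ) ≤ N := by exact_mod_cast hN
  have hN0 : (0:ℝ) < N := by linarith
  set K : ℕ := ⌈4 * r * Real.log (3 * N)⌉₊ with hK
  have h1 : ∀ m ∈ Finset.Ico N (2 * N), ∑ x ∈ s' m, Z x ^ q ≤
      (K + 1) / r * ∑ i ∈ Finset.range (2 * 2 + 1), gg q (m - 2 + i) := by
    intro m hm
    rw [Finset.mem_Ico] at hm
    have hmr : (N:ℝ) ≤ m := by exact_mod_cast hm.1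
    have hmr2 : (m:ℝ) + 1 ≤ 2 * N := by exact_mod_cast hm.2
    have h2 := abs_le.1 (hu m).1
    have h3 : (k m : ℝ) ≤ K + 1 := by
      have : k m ≤ K := by
        rw [hK, hk]
        apply Nat.ceil_mono
        gcongr
        · linarith
        · linarith
      have : (k m : ℝ) ≤ K := by exact_mod_cast this
      linarith
    have e1 : ∑ i ∈ Finset.range (2 * 2 + 1), gg q (m - 2 + i) =
        ∫ x in ((m - 2 : ℕ):ℝ)..((m + 3 : ℕ):ℝ), Z x ^ q := by
      rw [← gg_sum hq (by omega), Finset.sum_Ico_eq_sum_range]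
      have : m + 3 - (m - 2) = 2 * 2 + 1 := by omega
      rw [this]
    have e2 : ((m - 2 : ℕ):ℝ) = m - 2 := by
      rw [Nat.cast_sub (by omega)]; norm_num
    have h4 : ∫ x in (u m - 1)..(u m + 1), Z x ^ q ≤ ∑ i ∈ Finset.range (2 * 2 + 1), gg q (m - 2 + i) := by
      rw [e1, e2]
      push_cast
      exact intervalIntegral.integral_mono_interval (by linarith) (by linarith) (by linarith)
        (Eventually.of_forall fun b => Zq_nonneg q b) ((Zq_cont hq).intervalIntegrable _ _)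
    have h5 : 0 ≤ ∫ x in (u m - 1)..(u m + 1), Z x ^ q :=
      intervalIntegral.integral_nonneg (by linarith) fun x _ => Zq_nonneg q x
    refine (hs'' m).trans ?_
    gcongr
  refine (Finset.sum_le_sum h1).trans ?_
  rw [← Finset.mul_sum]
  have h2 := window_sum (gg_nonneg q) (w := 2) (N := N) (by omega)
  have hb : ∀ K : ℕ, 1 ≤ K → K ≤ 2 * N → ∑ m ∈ Finset.Ico K (2 * K), gg q m ≤
      |B| * 2 ^ (κ + ε / 2) * (N:ℝ) ^ (κ + ε / 2) := by
    intro K hK hK2
    have hKr : (K:ℝ) ≤ 2 * N := by exact_mod_cast hK2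
    have hK1 : (1:ℝ) ≤ K := by exact_mod_cast hK
    rw [gg_sum hq (by omega)]
    have := hB K hK1
    push_cast
    calc ∫ x in (K:ℝ)..(2 * K), Z x ^ q ≤ B * (K:ℝ) ^ (κ + ε / 2) := this
      _ ≤ |B| * (2 * N) ^ (κ + ε / 2) := by
          gcongr
          · exact le_abs_self B
      _ = _ := by rw [Real.mul_rpow (by norm_num) hN0.le]; ring
  have h3 := hb ((N + 1) / 2) (by omega) (by omega)
  have h4 := hb N hN1 (by omega)
  have h5 := hb (2 * N) (by omega) le_rfl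
  have h6 : ∑ m ∈ Finset.Ico N (2 * N), ∑ i ∈ Finset.range (2 * 2 + 1), gg q (m - 2 + i) ≤
      5 * (3 * (|B| * 2 ^ (κ + ε / 2) * (N:ℝ) ^ (κ + ε / 2))) := by
    refine h2.trans ?_
    push_cast
    linarith
  have h7 := hlog N hN1
  have h8 : 0 ≤ ∑ m ∈ Finset.Ico N (2 * N), ∑ i ∈ Finset.range (2 * 2 + 1), gg q (m - 2 + i) :=
    Finset.sum_nonneg fun m _ => Finset.sum_nonneg fun i _ => gg_nonneg q _
  calc ((K:ℝ) + 1) / r * ∑ m ∈ Finset.Ico N (2 * N), ∑ i ∈ Finset.range (2 * 2 + 1), gg q (m - 2 + i)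
      ≤ (C * (N:ℝ) ^ (ε / 2)) / r * (5 * (3 * (|B| * 2 ^ (κ + ε / 2) * (N:ℝ) ^ (κ + ε / 2)))) := by
        gcongr
    _ = C / r * (5 * (3 * (|B| * 2 ^ (κ + ε / 2)))) * ((N:ℝ) ^ (ε / 2) * (N:ℝ) ^ (κ + ε / 2)) := by ring
    _ = _ := by rw [← Real.rpow_add hN0]; congr 2; ring

/-- the integrals are bounded by the local maxima -/
theorem moment_of_P {u : ℕ → ℝ} (hu : IsMax u) {q κ : ℝ} (hq : 0 < q) (hκ : 0 ≤ κ)
    (hP : P u q κ) : MomentBound q κ := by
  intro ε hε
  obtain ⟨C, hC⟩ := hP ε hε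
  refine ⟨2 * (|C| * 2 ^ (κ + ε)), fun T hT => ?_⟩
  set N : ℕ := ⌊T⌋₊ with hN
  have hT0 : 0 ≤ T := by linarith
  have h1 : (N:ℝ) ≤ T := Nat.floor_le hT0
  have h2 : T < N + 1 := Nat.lt_floor_add_one T
  have hN1 : 1 ≤ N := by
    exact Nat.le_floor (by push_cast; exact hT)
  have hN1r : (1:ℝ) ≤ N := by exact_mod_cast hN1
  have hg : ∀ m : ℕ, gg q m ≤ Z (u m) ^ q := by
    intro m
    have h3 : ∫ x in (m:ℝ)..(m + 1 : ℕ), Z x ^ q ≤ ∫ _x in (m:ℝ)..(m + 1 : ℕ), Z (u m) ^ q := by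
      refine intervalIntegral.integral_mono_on (by push_cast; linarith)
        ((Zq_cont hq).intervalIntegrable _ _) (by simp) fun x hx => ?_
      push_cast at hx
      apply Real.rpow_le_rpow (Z_nonneg _) ((hu m).2 x _) hq.le
      rw [abs_le]; constructor <;> linarith [hx.1, hx.2]
    rw [intervalIntegral.integral_const, smul_eq_mul] at h3
    push_cast at h3
    unfold gg
    push_cast
    linarith
  have h3 : ∫ x in T..(2 * T), Z x ^ q ≤ ∫ x in (N:ℝ)..((4 * N : ℕ) : ℝ), Z x ^ q := by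
    push_cast
    exact intervalIntegral.integral_mono_interval h1 (by linarith) (by linarith)
      (Eventually.of_forall fun b => Zq_nonneg q b) ((Zq_cont hq).intervalIntegrable _ _)
  rw [← gg_sum hq (by omega), ← Finset.sum_Ico_consecutive (gg q) (show N ≤ 2 * N by omega)
    (show 2 * N ≤ 4 * N by omega)] at h3
  have h4 := (Finset.sum_le_sum fun m (_ : m ∈ Finset.Ico N (2 * N)) => hg m).trans (hC N hN1)
  have h5 := (Finset.sum_le_sum fun m (_ : m ∈ Finset.Ico (2 * N) (2 * (2 * N))) => hg m).trans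
    (hC (2 * N) (by omega))
  have e : 2 * (2 * N) = 4 * N := by ring
  rw [e] at h5
  push_cast at h5
  have hb : ∀ x : ℝ, 0 ≤ x → x ≤ 2 * T → C * x ^ (κ + ε) ≤ |C| * 2 ^ (κ + ε) * T ^ (κ + ε) := by
    intro x hx hx2
    calc C * x ^ (κ + ε) ≤ |C| * (2 * T) ^ (κ + ε) := by
          gcongr
          · exact le_abs_self C
      _ = _ := by rw [Real.mul_rpow (by norm_num) hT0]; ring
  have h6 := hb N (by linarith) (by linarith)
  have h7 := hb (2 * N) (by linarith) (by linarith)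
  linarith

/-- the number of the `t n` in unit intervals is at most `O (x ^ ε)` -/
def Sparse (t : ℕ → ℝ) : Prop := ∀ ε : ℝ, 0 < ε → ∃ C : ℝ, ∀ x : ℝ, 0 ≤ x → ∀ F : Finset ℕ,
  (∀ n ∈ F, x ≤ t n ∧ t n ≤ x + 1) → (F.card : ℝ) ≤ C * (1 + x) ^ ε

/-- the sampled sums are bounded by the local maxima -/
theorem sample_of_P {u : ℕ → ℝ} (hu : IsMax u) {q κ : ℝ} (hq : 0 < q) (hκ : 0 ≤ κ)
    (hP : P u q κ) {t : ℕ → ℝ} (ht : Sparse t) (α : ℝ) : SampleBound t q κ α := by
  classical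
  intro ε hε
  obtain ⟨C, hC⟩ := hP (ε / 2) (by positivity)
  obtain ⟨B, hB⟩ := ht (ε / 2) (by positivity)
  have hα := abs_nonneg α
  -- bounded range
  set T₀ : ℝ := 4 * |α| + 8 with hT₀
  obtain ⟨V, hV⟩ : ∃ V : ℝ, ∀ x : ℝ, |x| ≤ 2 * T₀ + |α| → Z x ^ q ≤ V := by
    obtain ⟨x, hx, hx2⟩ := (isCompact_Icc (a := -(2 * T₀ + |α|)) (b := 2 * T₀ + |α|)).exists_isMaxOn
      ⟨0, by constructor <;> linarith⟩ (Zq_cont hq).continuousOn
    exact ⟨Z x ^ q, fun y hy => hx2 (abs_le.1 hy)⟩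
  have hV0 : 0 ≤ V := (Zq_nonneg q 0).trans (hV 0 (by rw [abs_zero]; positivity))
  -- the number of points in longer intervals
  have hcnt : ∀ (K : ℕ) (x : ℝ), 0 ≤ x → ∀ F : Finset ℕ, (∀ n ∈ F, x ≤ t n ∧ t n ≤ x + K) →
      (F.card : ℝ) ≤ K * (|B| * (1 + x + K) ^ (ε / 2)) + |B| * (1 + x) ^ (ε / 2) := by
    intro K
    induction K with
    | zero =>
      intro x hx F hF
      have h1 := hB x hx F fun n hn => by
        have := hF n hn
        push_cast at this
        constructor <;> linarith [this.1, this.2]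
      push_cast
      calc (F.card : ℝ) ≤ B * (1 + x) ^ (ε / 2) := h1
        _ ≤ |B| * (1 + x) ^ (ε / 2) := by gcongr; exact le_abs_self B
        _ = _ := by ring
    | succ K ih =>
      intro x hx F hF
      have h1 := ih x hx (F.filter fun n => t n ≤ x + K) fun n hn => by
        rw [Finset.mem_filter] at hn
        exact ⟨(hF n hn.1).1, hn.2⟩
      have h2 := hB (x + K) (by positivity) (F.filter fun n => ¬ t n ≤ x + K) fun n hn => by
        rw [Finset.mem_filter, not_le] at hn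
        have := (hF n hn.1).2
        push_cast at this
        constructor
        · exact hn.2.le
        · linarith
      have h3 := Finset.card_filter_add_card_filter_not (s := F) (fun n => t n ≤ x + K)
      have h4 : ((F.filter fun n => t n ≤ x + K).card : ℝ) +
          (F.filter fun n => ¬ t n ≤ x + K).card = F.card := by exact_mod_cast h3
      have h5 : (1 + x + (K:ℝ)) ^ (ε / 2) ≤ (1 + x + ((K + 1 : ℕ) : ℝ)) ^ (ε / 2) := by
        gcongr
        push_cast
        linarith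
      have h6 : B * (1 + (x + K)) ^ (ε / 2) ≤ |B| * (1 + x + ((K + 1 : ℕ) : ℝ)) ^ (ε / 2) := by
        calc B * (1 + (x + K)) ^ (ε / 2) ≤ |B| * (1 + (x + K)) ^ (ε / 2) := by
              gcongr; exact le_abs_self B
          _ = |B| * (1 + x + K) ^ (ε / 2) := by rw [add_assoc]
          _ ≤ _ := by gcongr
      have h7 : (K:ℝ) * (|B| * (1 + x + K) ^ (ε / 2)) ≤
          K * (|B| * (1 + x + ((K + 1 : ℕ) : ℝ)) ^ (ε / 2)) := by gcongr
      push_cast at h6 h7 ⊢
      linarith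
  set K₁ : ℕ := ⌈2 * T₀⌉₊ with hK₁
  set B₁ : ℝ := K₁ * (|B| * (1 + 0 + K₁) ^ (ε / 2)) + |B| * (1 + 0) ^ (ε / 2) with hB₁
  have hB10 : 0 ≤ B₁ := by positivity
  refine ⟨B₁ * V + 4 * |B| * 4 ^ (ε / 2) * (3 * (|C| * 2 ^ (κ + ε / 2))), fun T hT F hF => ?_⟩
  have hTp : 0 < T := by linarith
  have hT1 : 1 ≤ T ^ (κ + ε) := Real.one_le_rpow hT (by linarith)
  rcases le_or_gt T T₀ with hc | hc
  · -- small heights
    have h1 : (F.card : ℝ) ≤ B₁ := by
      apply hcnt K₁ 0 le_rfl F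
      intro n hn
      have h2 := hF n hn
      have h3 := Nat.le_ceil (2 * T₀)
      rw [← hK₁] at h3
      constructor <;> linarith
    have h2 : ∑ n ∈ F, Z (t n + α) ^ q ≤ F.card * V := by
      rw [← nsmul_eq_mul]
      apply Finset.sum_le_card_nsmul
      intro n hn
      apply hV
      have h2 := hF n hn
      have h3 := abs_le.1 (le_refl |α|)
      rw [abs_le]
      constructor <;> linarith
    calc ∑ n ∈ F, Z (t n + α) ^ q ≤ F.card * V := h2
      _ ≤ (B₁ * V) * 1 := by rw [mul_one]; gcongr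
      _ ≤ (B₁ * V + 4 * |B| * 4 ^ (ε / 2) * (3 * (|C| * 2 ^ (κ + ε / 2)))) * T ^ (κ + ε) := by
          gcongr
          have : 0 ≤ 4 * |B| * 4 ^ (ε / 2) * (3 * (|C| * 2 ^ (κ + ε / 2))) := by positivity
          linarith
  · -- large heights
    set N : ℕ := ⌊T / 2⌋₊ with hN
    have hN1 : (N:ℝ) ≤ T / 2 := Nat.floor_le (by linarith)
    have hN2 : T / 2 < N + 1 := Nat.lt_floor_add_one _
    have hN4' : 4 ≤ N := Nat.le_floor (by push_cast; linarith)
    have hN4 : (4:ℝ) ≤ N := by exact_mod_cast hN4'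
    have h3 := abs_le.1 (le_refl |α|)
    have hrange : ∀ n ∈ F, (N:ℝ) ≤ t n + α ∧ t n + α < 8 * N := by
      intro n hn
      have h2 := hF n hn
      constructor <;> linarith
    set φ : ℕ → ℕ := fun n => ⌊t n + α⌋₊ with hφ
    have hφ1 : ∀ n ∈ F, (φ n : ℝ) ≤ t n + α ∧ t n + α < φ n + 1 := by
      intro n hn
      exact ⟨Nat.floor_le (by linarith [(hrange n hn).1]), Nat.lt_floor_add_one _⟩
    have hφ2 : ∀ n ∈ F, φ n ∈ Finset.Ico N (8 * N) := by
      intro n hn
      have a1 := hφ1 n hn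
      have a2 := hrange n hn
      rw [Finset.mem_Ico]
      constructor
      · exact Nat.le_floor a2.1
      · have : (φ n : ℝ) < 8 * N := by linarith
        exact_mod_cast this
    have h4 : ∑ n ∈ F, Z (t n + α) ^ q ≤ ∑ n ∈ F, Z (u (φ n)) ^ q := by
      apply Finset.sum_le_sum
      intro n hn
      apply Real.rpow_le_rpow (Z_nonneg _) _ hq.le
      apply (hu (φ n)).2
      have := hφ1 n hn
      rw [abs_le]; constructor <;> linarith
    have h5 : ∑ n ∈ F, Z (u (φ n)) ^ q = ∑ m ∈ Finset.Ico N (8 * N),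
        ((F.filter fun n => φ n = m).card : ℝ) * Z (u m) ^ q := by
      rw [← Finset.sum_fiberwise_of_maps_to hφ2]
      apply Finset.sum_congr rfl
      intro m _
      rw [Finset.sum_congr rfl (g := fun _ => Z (u m) ^ q) fun n hn => by
        rw [(Finset.mem_filter.1 hn).2], Finset.sum_const, nsmul_eq_mul]
    have h6 : ∀ m ∈ Finset.Ico N (8 * N), ((F.filter fun n => φ n = m).card : ℝ) ≤
        |B| * (4 ^ (ε / 2) * T ^ (ε / 2)) := by
      intro m hm
      rw [Finset.mem_Ico] at hm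
      have hmN : (N:ℝ) ≤ m := by exact_mod_cast hm.1
      rcases (F.filter fun n => φ n = m).eq_empty_or_nonempty with h | ⟨n₁, hn₁⟩
      · rw [h]; simp only [Finset.card_empty, Nat.cast_zero]; positivity
      have hb := Finset.mem_filter.1 hn₁
      have hb1 := hφ1 n₁ hb.1
      have hb2 := hF n₁ hb.1
      rw [hb.2] at hb1
      have h7 := hB (m - α) (by linarith) (F.filter fun n => φ n = m) fun n hn => by
        have a1 := Finset.mem_filter.1 hn
        have a2 := hφ1 n a1.1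
        rw [a1.2] at a2
        constructor <;> linarith
      refine h7.trans ?_
      rw [← Real.mul_rpow (by norm_num) hTp.le]
      calc B * (1 + (m - α)) ^ (ε / 2) ≤ |B| * (1 + (m - α)) ^ (ε / 2) := by
            gcongr
            · exact Real.rpow_nonneg (by linarith) _
            · exact le_abs_self B
        _ ≤ _ := by
            gcongr
            · linarith
            · linarith
    have h7 : ∑ n ∈ F, Z (t n + α) ^ q ≤ |B| * (4 ^ (ε / 2) * T ^ (ε / 2)) *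
        ∑ m ∈ Finset.Ico N (8 * N), Z (u m) ^ q := by
      refine h4.trans (h5.le.trans ?_)
      rw [Finset.mul_sum]
      exact Finset.sum_le_sum fun m hm => mul_le_mul_of_nonneg_right (h6 m hm) (Zq_nonneg q _)
    have hb : ∀ K : ℕ, 1 ≤ K → (K:ℝ) ≤ 2 * T → ∑ m ∈ Finset.Ico K (2 * K), Z (u m) ^ q ≤
        |C| * 2 ^ (κ + ε / 2) * T ^ (κ + ε / 2) := by
      intro K hK hK2
      calc ∑ m ∈ Finset.Ico K (2 * K), Z (u m) ^ q ≤ C * (K:ℝ) ^ (κ + ε / 2) := hC K hK
        _ ≤ |C| * (2 * T) ^ (κ + ε / 2) := by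
            gcongr
            · exact le_abs_self C
        _ = _ := by rw [Real.mul_rpow (by norm_num) hTp.le]; ring
    have h8 : ∑ m ∈ Finset.Ico N (8 * N), Z (u m) ^ q ≤
        3 * (|C| * 2 ^ (κ + ε / 2) * T ^ (κ + ε / 2)) := by
      rw [← Finset.sum_Ico_consecutive _ (show N ≤ 2 * N by omega) (show 2 * N ≤ 8 * N by omega),
        ← Finset.sum_Ico_consecutive _ (show 2 * N ≤ 4 * N by omega) (show 4 * N ≤ 8 * N by omega)]
      have b1 := hb N (by omega) (by linarith)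
      have b2 := hb (2 * N) (by omega) (by push_cast; linarith)
      have b3 := hb (4 * N) (by omega) (by push_cast; linarith)
      rw [show 2 * (2 * N) = 4 * N by ring] at b2
      rw [show 2 * (4 * N) = 8 * N by ring] at b3
      linarith
    calc ∑ n ∈ F, Z (t n + α) ^ q ≤ |B| * (4 ^ (ε / 2) * T ^ (ε / 2)) *
          (3 * (|C| * 2 ^ (κ + ε / 2) * T ^ (κ + ε / 2))) := h7.trans (by gcongr)
      _ = (|B| * 4 ^ (ε / 2) * (3 * (|C| * 2 ^ (κ + ε / 2)))) *
          (T ^ (ε / 2) * T ^ (κ + ε / 2)) := by ring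
      _ = (|B| * 4 ^ (ε / 2) * (3 * (|C| * 2 ^ (κ + ε / 2)))) * T ^ (κ + ε) := by
          rw [← Real.rpow_add hTp]; congr 2; ring
      _ ≤ _ := by
          gcongr
          have e1 : 0 ≤ B₁ * V := by positivity
          have e2 : 0 ≤ |B| * 4 ^ (ε / 2) * (3 * (|C| * 2 ^ (κ + ε / 2))) := by positivity
          linarith

end Pool.Agent.X114.TM
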