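import Pool.Agent.X114.CP1

/-! Sets of positive measure have positive capacity: the sharp order. -/

set_option autoImplicit false

open Filter Topology Set MeasureTheory ENNReal

namespace Pool.Agent.X114.CP

open Pool.Agent.X114.TS

/-- the integral of the kernel over a short interval -/
lemma kernel_integral {ρ : ℝ} (hρ : 0 < ρ) (hρ1 : ρ ≤ 1) (x : ℝ) :
    ∫⁻ y in Icc (x - ρ) (x + ρ), w x y ∂volume = ENNReal.ofReal (2 * ρ * (1 + Real.log (1 / ρ))) := by
  have h1 : ∫⁻ y in Icc (x - ρ) (x + ρ), w x y ∂volume =
      ∫⁻ u in Icc (-ρ) ρ, ENNReal.ofReal (-Real.log |u|) ∂volume := by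
    rw [← lintegral_indicator measurableSet_Icc, ← lintegral_indicator measurableSet_Icc,
      ← lintegral_add_right_eq_self (μ := (volume : Measure ℝ)) _ x]
    apply lintegral_congr
    intro u
    by_cases hu : u ∈ Icc (-ρ) ρ
    · have hu' : u + x ∈ Icc (x - ρ) (x + ρ) := by
        rw [mem_Icc] at hu ⊢; constructor <;> linarith
      rw [indicator_of_mem hu', indicator_of_mem hu]
      unfold w
      rw [one_div, Real.log_inv]
      congr 3
      rw [show x - (u + x) = -u by ring, abs_neg]
    · have hu' : u + x ∉ Icc (x - ρ) (x + ρ) := by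
        intro h
        apply hu
        rw [mem_Icc] at h ⊢; constructor <;> linarith
      rw [indicator_of_notMem hu', indicator_of_notMem hu]
  have hint : IntervalIntegrable (fun u : ℝ => -Real.log |u|) volume (-ρ) ρ := by
    have : (fun u : ℝ => -Real.log |u|) = fun u : ℝ => -Real.log u := by
      ext u; rw [Real.log_abs]
    rw [this]
    exact intervalIntegral.intervalIntegrable_log'.neg
  have hnn : ∀ u ∈ Icc (-ρ) ρ, 0 ≤ -Real.log |u| := by
    intro u hu
    rw [neg_nonneg]
    apply Real.log_nonpos (abs_nonneg _)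
    rw [abs_le]; rw [mem_Icc] at hu; constructor <;> linarith
  rw [h1, ← ofReal_integral_eq_lintegral_ofReal]
  · congr 1
    rw [integral_Icc_eq_integral_Ioc, ← intervalIntegral.integral_of_le (by linarith)]
    have : (fun u : ℝ => -Real.log |u|) = fun u : ℝ => -Real.log u := by
      ext u; rw [Real.log_abs]
    rw [this, intervalIntegral.integral_neg, integral_log, Real.log_neg_eq_log, one_div, Real.log_inv]
    ring
  · have := (intervalIntegrable_iff_integrableOn_Ioc_of_le (by linarith : -ρ ≤ ρ)).1 hint
    exact (integrableOn_Icc_iff_integrableOn_Ioc (by simp)).2 this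
  · filter_upwards [ae_restrict_mem measurableSet_Icc] with u hu
    exact hnn u hu

/-- **Measure and capacity.** -/
lemma capGe_of_volume {E : Set ℝ} (hE : MeasurableSet E) {v : ℝ} (hv : 0 < v) (hv2 : v ≤ 2)
    (hvol : volume E = ENNReal.ofReal v) : CapGe E (v / (2 * Real.exp 1)) := by
  set ρ : ℝ := v / 2 with hρ
  have hρ0 : 0 < ρ := by positivity
  have hρ1 : ρ ≤ 1 := by rw [hρ]; linarith
  set μ : Measure ℝ := (ENNReal.ofReal (1 / v)) • volume.restrict E with hμ
  refine ⟨μ, ?_, ?_, ?_, ?_⟩
  · rw [hμ, Measure.smul_apply, Measure.restrict_apply_univ, hvol, smul_eq_mul,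
      ← ENNReal.ofReal_mul (by positivity), one_div, inv_mul_cancel₀ hv.ne', ENNReal.ofReal_one]
  · rw [hμ, Measure.smul_apply, Measure.restrict_apply hE.compl, compl_inter_self, measure_empty,
      smul_zero]
  · intro x
    rw [hμ, Measure.smul_apply, smul_eq_mul]
    have : (volume.restrict E) {x} = 0 :=
      le_antisymm ((Measure.restrict_apply_le _ _).trans (by simp)) zero_le
    rw [this, mul_zero]
  · intro x
    rw [hμ, lintegral_smul_measure, smul_eq_mul]
    set B : Set ℝ := Icc (x - ρ) (x + ρ) with hB
    have hBm : MeasurableSet B := measurableSet_Icc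
    have hBv : volume B = ENNReal.ofReal v := by
      rw [hB, Real.volume_Icc]; congr 1; rw [hρ]; ring
    set q : ℝ≥0∞ := ENNReal.ofReal (Real.log (1 / ρ)) with hq
    -- compare the kernel with `q`
    have hin : ∀ y ∈ B, q ≤ w x y ∨ y = x := by
      intro y hy
      by_cases hxy : y = x
      · exact Or.inr hxy
      · left
        unfold w
        apply ENNReal.ofReal_le_ofReal
        have h0 : 0 < |x - y| := abs_pos.2 (sub_ne_zero.2 (Ne.symm hxy))
        apply Real.log_le_log (by positivity)
        apply one_div_le_one_div_of_le h0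
        rw [hB, mem_Icc] at hy
        rw [abs_le]; constructor <;> linarith
    have hout : ∀ y, y ∉ B → w x y ≤ q := by
      intro y hy
      unfold w
      apply ENNReal.ofReal_le_ofReal
      have h0 : ρ < |x - y| := by
        by_contra hcon
        push Not at hcon
        apply hy
        rw [abs_le] at hcon
        rw [hB, mem_Icc]; constructor <;> linarith
      apply Real.log_le_log (by have := hρ0.trans h0; positivity)
      exact one_div_le_one_div_of_le hρ0 h0.le
    have hsplitE : ∫⁻ y in E, w x y ∂volume = ∫⁻ y in E ∩ B, w x y ∂volume + ∫⁻ y in E \ B, w x y ∂volume :=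
      (lintegral_inter_add_sdiff _ _ hBm).symm
    have hsplitB : ∫⁻ y in B, w x y ∂volume = ∫⁻ y in B ∩ E, w x y ∂volume + ∫⁻ y in B \ E, w x y ∂volume :=
      (lintegral_inter_add_sdiff _ _ hE).symm
    have hdiff : volume (E \ B) = volume (B \ E) := by
      have h1 := measure_inter_add_sdiff (μ := (volume : Measure ℝ)) E hBm
      have h2 := measure_inter_add_sdiff (μ := (volume : Measure ℝ)) B hE
      rw [hvol] at h1
      rw [hBv, inter_comm] at h2
      have h3 : volume (E ∩ B) ≠ ⊤ := by
        refine ne_top_of_le_ne_top ?_ (measure_mono inter_subset_left)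
        rw [hvol]; exact ENNReal.ofReal_ne_top
      rw [← h2] at h1
      exact (ENNReal.add_right_inj h3).1 h1
    have h1 : ∫⁻ y in E \ B, w x y ∂volume ≤ q * volume (E \ B) := by
      rw [← setLIntegral_const]
      exact setLIntegral_mono' (hE.diff hBm) fun y hy => hout y hy.2
    have h2 : q * volume (B \ E) ≤ ∫⁻ y in B \ E, w x y ∂volume := by
      rw [← setLIntegral_const]
      apply setLIntegral_mono_ae (w_meas'' x).aemeasurable
      have hx0 : ∀ᵐ y : ℝ, y ≠ x := by
        rw [ae_iff]
        simp
      filter_upwards [hx0] with y hy hyB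
      exact (hin y hyB.1).resolve_right hy
    have h3 : ∫⁻ y in E, w x y ∂volume ≤ ENNReal.ofReal (2 * ρ * (1 + Real.log (1 / ρ))) := by
      rw [← kernel_integral hρ0 hρ1 x, hsplitE, ← hB, hsplitB, inter_comm E B]
      exact add_le_add le_rfl (h1.trans (by rw [hdiff]; exact h2))
    refine (mul_le_mul_right h3 _).trans (le_of_eq ?_)
    rw [← ENNReal.ofReal_mul (by positivity)]
    congr 1
    have e1 : 1 / v * (2 * ρ * (1 + Real.log (1 / ρ))) = 1 + Real.log (1 / ρ) := by
      rw [hρ]; field_simp
    rw [e1]
    have e2 : 1 / (v / (2 * Real.exp 1)) = Real.exp 1 * (1 / ρ) := by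
      rw [hρ]; field_simp
    rw [e2, Real.log_mul (Real.exp_ne_zero _) (by positivity), Real.log_exp]

end Pool.Agent.X114.CP
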