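import Pool.Agent.X114.TM2
import Pool.Agent.X114.CP2

/-! Moments: iteration and configurations. -/

set_option autoImplicit false

open Filter Topology Set Real MeasureTheory

namespace Pool.Agent.X114.TM

open Pool.Agent.H983R4.LH Pool.Agent.H983R4.GL Pool.Agent.H983R4.GL.Z
open Pool.Agent.X114.TS (w configs w_meas)

lemma base {u : ℕ → ℝ} (hu : IsMax u) {q : ℝ} (hq : 0 < q) : ∃ σ : ℝ, 0 ≤ σ ∧ P u q σ := by
  obtain ⟨θ, hθ0, hθ, -⟩ := leastZ
  refine ⟨1 + q * θ, by positivity, fun ε hε => ?_⟩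
  obtain ⟨B, hB⟩ := hθ (ε / q) (by positivity)
  refine ⟨|B| ^ q * 4 ^ ((θ + ε / q) * q), fun N hN => ?_⟩
  have hNr : (1:ℝ) ≤ N := by exact_mod_cast hN
  have hN0 : (0:ℝ) < N := by linarith
  have h1 : ∀ m ∈ Finset.Ico N (2 * N), Z (u m) ^ q ≤ |B| ^ q * (4 ^ ((θ + ε / q) * q) *
      (N:ℝ) ^ ((θ + ε / q) * q)) := by
    intro m hm
    rw [Finset.mem_Ico] at hm
    have hmr2 : (m:ℝ) + 1 ≤ 2 * N := by exact_mod_cast hm.2
    have hu1 := abs_le.1 (hu m).1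
    have hm0 : (0:ℝ) ≤ m := Nat.cast_nonneg m
    have h2 : 1 + |u m| ≤ 4 * N := by
      have : |u m| ≤ m + 1 := by rw [abs_le]; constructor <;> linarith
      linarith
    have h3 : Z (u m) ≤ |B| * (4 * N) ^ (θ + ε / q) := by
      calc Z (u m) ≤ B * (1 + |u m|) ^ (θ + ε / q) := hB (u m)
        _ ≤ |B| * (1 + |u m|) ^ (θ + ε / q) := by gcongr; exact le_abs_self B
        _ ≤ _ := by gcongr
    calc Z (u m) ^ q ≤ (|B| * (4 * N) ^ (θ + ε / q)) ^ q := Real.rpow_le_rpow (Z_nonneg _) h3 hq.le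
      _ = |B| ^ q * (4 * (N:ℝ)) ^ ((θ + ε / q) * q) := by
          rw [Real.mul_rpow (abs_nonneg _) (by positivity), ← Real.rpow_mul (by positivity)]
      _ = _ := by rw [Real.mul_rpow (by norm_num) hN0.le]
  refine (Finset.sum_le_sum h1).trans ?_
  rw [Finset.sum_const, Nat.card_Ico, nsmul_eq_mul]
  have e : ((2 * N - N : ℕ) : ℝ) = N := by
    have : 2 * N - N = N := by omega
    rw [this]
  rw [e]
  have e2 : (N:ℝ) ^ (1 + q * θ + ε) = N * (N:ℝ) ^ ((θ + ε / q) * q) := by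
    rw [show 1 + q * θ + ε = 1 + (θ + ε / q) * q by field_simp; ring, Real.rpow_add hN0, Real.rpow_one]
  rw [e2]
  apply le_of_eq
  ring

/-- **The iteration.** -/
theorem iter {u : ℕ → ℝ} (hu : IsMax u) {q κ : ℝ} (hq : 0 < q) (hκ : 1 ≤ κ)
    (hS : ∀ η : ℝ, 0 < η → ∃ r : ℝ, 0 < r ∧ r ≤ 1 / 8 ∧ Samp u q κ r η) : P u q κ := by
  obtain ⟨σ₀, hσ₀, hP₀⟩ := base hu hq
  have main : ∀ η : ℝ, 0 < η → P u q (κ + 2 * η * q) := by
    intro η hη
    obtain ⟨r, hr, hr8, hs⟩ := hS η hη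
    have hrq : 0 < r * q := by positivity
    have hηq : 0 < 2 * η * q := by positivity
    have h : ∀ n : ℕ, P u q (max (σ₀ - n * (0.1 * r * q)) (κ + 2 * η * q)) := by
      intro n
      induction n with
      | zero =>
        intro ε hε
        obtain ⟨C, hC⟩ := hP₀ ε hε
        refine ⟨|C|, fun N hN => (hC N hN).trans ?_⟩
        have hNr : (1:ℝ) ≤ N := by exact_mod_cast hN
        calc C * (N:ℝ) ^ (σ₀ + ε) ≤ |C| * (N:ℝ) ^ (σ₀ + ε) := by gcongr; exact le_abs_self C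
          _ ≤ _ := by
              gcongr
              have := le_max_left (σ₀ - ((0:ℕ):ℝ) * (0.1 * r * q)) (κ + 2 * η * q)
              simpa using this
      | succ n ih =>
        have h1 := step hu hq hκ hr hr8 hη (by
          have := le_max_right (σ₀ - n * (0.1 * r * q)) (κ + 2 * η * q)
          linarith) hs ih
        have e : max (max (σ₀ - n * (0.1 * r * q)) (κ + 2 * η * q) - 0.1 * r * q) (κ + 2 * η * q) =
            max (σ₀ - ((n + 1 : ℕ) : ℝ) * (0.1 * r * q)) (κ + 2 * η * q) := by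
          push_cast
          rcases le_total (σ₀ - n * (0.1 * r * q)) (κ + 2 * η * q) with h2 | h2
          · rw [max_eq_right h2, max_eq_right (by linarith), max_eq_right (by linarith)]
          · rw [max_eq_left h2]
            congr 1
            ring
        rwa [e] at h1
    obtain ⟨n, hn⟩ := exists_nat_gt (σ₀ / (0.1 * r * q))
    have h1 := h n
    have h2 : σ₀ ≤ n * (0.1 * r * q) := by
      rw [div_lt_iff₀ (by positivity)] at hn
      exact hn.le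
    rwa [max_eq_right (by linarith)] at h1
  intro ε hε
  obtain ⟨C, hC⟩ := main (ε / (4 * q)) (by positivity) (ε / 2) (by positivity)
  refine ⟨C, fun N hN => ?_⟩
  have := hC N hN
  rwa [show κ + 2 * (ε / (4 * q)) * q + ε / 2 = κ + ε by field_simp; ring] at this

/-- configurations in a set of positive capacity -/
lemma conf {ν : Measure ℝ} [IsFiniteMeasure ν] [NullSingletonClass ν] (hν : ν ≠ 0)
    (hE : ∫⁻ x, ∫⁻ y, w x y ∂ν ∂ν ≠ ⊤) {A : Set ℝ} (hAm : MeasurableSet A) {N : ℕ}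
    (hN : 0 < N) (hA : ν (A ∩ Ico (-(N:ℝ)) N)ᶜ = 0) {η : ℝ} (hη : 0 < η) :
    ∃ r y₀ : ℝ, 0 < r ∧ r ≤ 1 / 8 ∧ ∀ n : ℕ, ∃ s : Finset ℝ, s.card = n ∧
      (∀ x ∈ s, x ∈ A ∧ |x - y₀| ≤ r / 2) ∧
      ∑ x ∈ s, ∑ y ∈ s.erase x, Real.log (2 * r / |x - y|) ≤ η / (5 * r) * n ^ 2 := by
  obtain ⟨J, hJ⟩ := configs hν hE hAm hN hA (c := η / 5) (by positivity)
  set j : ℕ := max J 8 with hj
  obtain ⟨k, hk⟩ := hJ j (le_max_left _ _)
  have hj8 : (8:ℝ) ≤ j := by exact_mod_cast le_max_right J 8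
  set r : ℝ := 1 / ((j : ℝ) + 1) with hr
  have hj1 : (0:ℝ) < (j:ℝ) + 1 := by positivity
  have hr0 : 0 < r := by positivity
  have hr8 : r ≤ 1 / 8 := by
    rw [hr]; gcongr; linarith
  have hrj : ((j:ℝ) + 1) * r = 1 := by rw [hr]; field_simp
  set y₀ : ℝ := ((k:ℝ) + 1 / 2) / (j + 1) with hy₀
  refine ⟨r, y₀, hr0, hr8, fun n => ?_⟩
  obtain ⟨s, hs1, hs2, hs3⟩ := hk n
  refine ⟨s, hs1, fun x hx => ?_, ?_⟩
  · obtain ⟨h1, h2, h3⟩ := hs2 x hx
    refine ⟨h1, ?_⟩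
    have e1 : y₀ = (k:ℝ) / (j + 1) + r / 2 := by rw [hy₀, hr]; ring
    have e2 : ((k:ℝ) + 1) / (j + 1) = (k:ℝ) / (j + 1) + r := by rw [hr]; ring
    rw [e2] at h3
    rw [abs_le]
    constructor <;> linarith
  · have h1 : ∀ x ∈ s, ∑ y ∈ s.erase x, Real.log (2 * r / |x - y|) ≤
        ∑ y ∈ s.erase x, Real.log (1 / |x - y|) := by
      intro x hx
      apply Finset.sum_le_sum
      intro y hy
      have hne : x ≠ y := (Finset.ne_of_mem_erase hy).symm
      have h2 : 0 < |x - y| := abs_pos.2 (sub_ne_zero.2 hne)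
      apply Real.log_le_log (by positivity)
      gcongr
      linarith
    refine (Finset.sum_le_sum h1).trans (hs3.trans ?_)
    apply le_of_eq
    have : (j:ℝ) + 1 = 1 / r := by rw [hr]; field_simp
    rw [this]
    field_simp

/-- translates of configurations -/
lemma conf_shift {s : Finset ℝ} {y₀ r a η T : ℝ} (hr : 0 < r) (hη : 0 < η)
    (hs : ∀ x ∈ s, |x - y₀| ≤ r / 2) (ha : |a + y₀ - T| ≤ r / 2)
    (hE : ∑ x ∈ s, ∑ y ∈ s.erase x, Real.log (2 * r / |x - y|) ≤ η / (5 * r) * s.card ^ 2)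
    (hL : 1 ≤ r * Real.log T) (hc : s.card = ⌈4 * r * Real.log T⌉₊) :
    ∃ s' : Finset ℝ, (∀ x ∈ s', |x - T| ≤ r) ∧ 4 * r * Real.log T ≤ s'.card ∧
      ∑ x ∈ s', ∑ y ∈ s'.erase x, Real.log (2 * r / |x - y|) ≤ η * s'.card * Real.log T ∧
      ∀ g : ℝ → ℝ, ∑ x ∈ s', g x = ∑ x ∈ s, g (a + x) := by
  classical
  set e : ℝ ↪ ℝ := ⟨fun x => a + x, fun b c h => by simpa using h⟩ with he
  have hee : ∀ x, e x = a + x := fun _ => rfl
  refine ⟨s.map e, ?_, ?_, ?_, fun g => ?_⟩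
  · intro x hx
    obtain ⟨α, hα, rfl⟩ := Finset.mem_map.1 hx
    have h1 := abs_le.1 (hs α hα)
    have h2 := abs_le.1 ha
    rw [hee, abs_le]
    constructor <;> linarith
  · rw [Finset.card_map, hc]
    exact Nat.le_ceil _
  · rw [Finset.sum_map, Finset.card_map]
    have h1 : ∀ x ∈ s, ∑ y ∈ (s.map e).erase (e x), Real.log (2 * r / |e x - y|) =
        ∑ y ∈ s.erase x, Real.log (2 * r / |x - y|) := by
      intro x hx
      rw [← Finset.map_erase, Finset.sum_map]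
      apply Finset.sum_congr rfl
      intro y hy
      rw [hee, hee, add_sub_add_left_eq_sub]
    rw [Finset.sum_congr rfl h1]
    refine hE.trans ?_
    have h2 : (s.card : ℝ) ≤ 5 * (r * Real.log T) := by
      rw [hc]
      have := (Nat.ceil_lt_add_one (show 0 ≤ 4 * r * Real.log T by nlinarith)).le
      linarith
    have h3 : 0 ≤ (s.card : ℝ) := Nat.cast_nonneg _
    calc η / (5 * r) * (s.card : ℝ) ^ 2 = η / (5 * r) * s.card * s.card := by ring
      _ ≤ η / (5 * r) * s.card * (5 * (r * Real.log T)) := by gcongr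
      _ = _ := by field_simp
  · rw [Finset.sum_map]
    rfl

/-- logarithms are small -/
lemma log_small {c δ : ℝ} (hc : 0 ≤ c) (hδ : 0 < δ) : ∃ C : ℝ, 0 < C ∧ ∀ N : ℕ, 1 ≤ N →
    ((⌈c * Real.log (3 * N)⌉₊ : ℕ) : ℝ) + 1 ≤ C * (N:ℝ) ^ δ := by
  refine ⟨c * (3 ^ δ / δ) + 2, by positivity, fun N hN => ?_⟩
  have hNr : (1:ℝ) ≤ N := by exact_mod_cast hN
  have hN0 : (0:ℝ) < N := by linarith
  have h1 : Real.log (3 * N) ≤ (3 * (N:ℝ)) ^ δ / δ := Real.log_le_rpow_div (by positivity) hδ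
  have h0 : 0 ≤ Real.log (3 * N) := Real.log_nonneg (by linarith)
  have h2 := (Nat.ceil_lt_add_one (show 0 ≤ c * Real.log (3 * N) by positivity)).le
  have h3 : 1 ≤ (N:ℝ) ^ δ := Real.one_le_rpow hNr hδ.le
  rw [Real.mul_rpow (by norm_num) hN0.le] at h1
  have h4 := mul_le_mul_of_nonneg_left h1 hc
  calc ((⌈c * Real.log (3 * N)⌉₊ : ℕ) : ℝ) + 1 ≤ c * (3 ^ δ * (N:ℝ) ^ δ / δ) + 2 * 1 := by linarith
    _ ≤ c * (3 ^ δ * (N:ℝ) ^ δ / δ) + 2 * (N:ℝ) ^ δ := by gcongr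
    _ = _ := by ring

end Pool.Agent.X114.TM
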