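import Pool.Agent.X114.FM1
import Pool.Agent.X114.TM3

/-! Sampling for families: sets of positive capacity. -/

set_option autoImplicit false

open MeasureTheory Filter Topology Set Real

namespace Pool.Agent.X114.FM

open Pool.Agent.H983R4.GL
open Pool.Agent.X114.TS (w)

variable {ι : Type} {L : ι → ℂ → ℂ} {X : ι → ℝ → ℝ}

/-- translates of configurations -/
lemma conf_shift {s : Finset ℝ} {y₀ r a η T Λ : ℝ} (hr : 0 < r) (hη : 0 < η)
    (hs : ∀ x ∈ s, |x - y₀| ≤ r / 2) (ha : |a + y₀ - T| ≤ r / 2)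
    (hE : ∑ x ∈ s, ∑ y ∈ s.erase x, Real.log (2 * r / |x - y|) ≤ η / (5 * r) * s.card ^ 2)
    (hL : 1 ≤ r * Λ) (hc : s.card = ⌈4 * r * Λ⌉₊) :
    ∃ s' : Finset ℝ, (∀ x ∈ s', |x - T| ≤ r ∧ ∃ α ∈ s, x = a + α) ∧ 4 * r * Λ ≤ s'.card ∧
      ∑ x ∈ s', ∑ y ∈ s'.erase x, Real.log (2 * r / |x - y|) ≤ η * s'.card * Λ := by
  classical
  set e : ℝ ↪ ℝ := ⟨fun x => a + x, fun b c h => by simpa using h⟩ with he
  have hee : ∀ x, e x = a + x := fun _ => rfl
  refine ⟨s.map e, ?_, ?_, ?_⟩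
  · intro x hx
    obtain ⟨α, hα, rfl⟩ := Finset.mem_map.1 hx
    have h1 := abs_le.1 (hs α hα)
    have h2 := abs_le.1 ha
    refine ⟨?_, α, hα, hee α⟩
    rw [hee, abs_le]
    constructor <;> linarith
  · rw [Finset.card_map, hc]
    exact Nat.le_ceil _
  · rw [Finset.sum_map, Finset.card_map]
    have h1 : ∀ x ∈ s, ∑ y ∈ (s.map e).erase (e x), Real.log (2 * r / |e x - y|) =
        ∑ y ∈ s.erase x, Real.log (2 * r / |x - y|) := by
      intro x hx
      rw [← Finset.map_erase, Finset.sum_map]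
      apply Finset.sum_congr rfl
      intro y hy
      rw [hee, hee, add_sub_add_left_eq_sub]
    rw [Finset.sum_congr rfl h1]
    refine hE.trans ?_
    have h2 : (s.card : ℝ) ≤ 5 * (r * Λ) := by
      rw [hc]
      have := (Nat.ceil_lt_add_one (show 0 ≤ 4 * r * Λ by nlinarith)).le
      linarith
    have h3 : 0 ≤ (s.card : ℝ) := Nat.cast_nonneg _
    calc η / (5 * r) * (s.card : ℝ) ^ 2 = η / (5 * r) * s.card * s.card := by ring
      _ ≤ η / (5 * r) * s.card * (5 * (r * Λ)) := by gcongr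
      _ = _ := by field_simp

/-- positive capacity -/
def PosCap (E : Set ℝ) : Prop := ∃ ν : Measure ℝ, ν univ ≠ ⊤ ∧ ν ≠ 0 ∧ ν Eᶜ = 0 ∧
  (∀ x : ℝ, ν {x} = 0) ∧
  ∫⁻ x, ∫⁻ y, ENNReal.ofReal (Real.log (1 / |x - y|)) ∂ν ∂ν ≠ ⊤

/-- nets whose mesh tends to zero with the conductor -/
def Net (X : ι → ℝ → ℝ) (D : ι → Set ℝ) : Prop := ∀ ρ : ℝ, 0 < ρ → ∃ X₀ : ℝ, ∀ (i : ι) (T : ℝ),
  X₀ ≤ X i T → ∃ t ∈ D i, |t - T| ≤ ρ

theorem closed (H : Fam L X) {κ : ℝ} (h : ∀ η : ℝ, 0 < η → AdmOn L X univ (κ + η)) :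
    AdmOn L X univ κ := by
  intro ε hε
  obtain ⟨C, hC⟩ := h (ε / 2) (by linarith) (ε / 2) (by linarith)
  refine ⟨C, fun i t ht => ?_⟩
  have := hC i t ht
  rwa [show κ + ε / 2 + ε / 2 = κ + ε by ring] at this

/-- **Thin sampling for families.** -/
theorem thin (H : Fam L X) {E : Set ℝ} (hE : PosCap E) {D : ι → Set ℝ} (hD : Net X D) {κ : ℝ}
    (hκ : 0 ≤ κ) (h : ∀ α ∈ E, ∀ ε : ℝ, 0 < ε → ∃ C : ℝ, ∀ (i : ι), ∀ t ∈ D i,
      ‖L i (1 / 2 + ((t + α : ℝ) : ℂ) * Complex.I)‖ ≤ C * X i t ^ (κ + ε)) :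
    AdmOn L X univ κ := by
  classical
  apply closed H
  intro η₀ hη₀
  obtain ⟨p, c, m, K, hp, hc, hm, hK, hld⟩ := H.ld
  obtain ⟨n, hn, hsh⟩ := H.shift
  obtain ⟨ν, hfin, hν, hνE, hatom, hen⟩ := hE
  have : IsFiniteMeasure ν := ⟨lt_top_iff_ne_top.2 hfin⟩
  have : NullSingletonClass ν := ⟨hatom⟩
  -- the sets with uniform constants, in bounded intervals
  set A : ℕ → Set ℝ := fun k => {α | ∀ (i : ι), ∀ t ∈ D i,
    ‖L i (1 / 2 + ((t + α : ℝ) : ℂ) * Complex.I)‖ ≤ k * X i t ^ (κ + η₀ / 2)} with hA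
  have hAc : ∀ k, IsClosed (A k) := by
    intro k
    have e : A k = ⋂ (i : ι) (t : ℝ) (_ : t ∈ D i),
        {α | ‖L i (1 / 2 + ((t + α : ℝ) : ℂ) * Complex.I)‖ ≤ k * X i t ^ (κ + η₀ / 2)} := by
      ext α
      simp [hA]
    rw [e]
    refine isClosed_iInter fun i => isClosed_iInter fun t => isClosed_iInter fun _ => ?_
    apply isClosed_le _ continuous_const
    exact continuous_norm.comp ((hld i 0).hd.continuous.comp (by fun_prop))
  have hcov : E ⊆ ⋃ k : ℕ, A k ∩ Ico (-((k + 1 : ℕ) : ℝ)) ((k + 1 : ℕ) : ℝ) := by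
    intro α hα
    obtain ⟨C, hC⟩ := h α hα (η₀ / 2) (by positivity)
    obtain ⟨k, hk⟩ := exists_nat_gt (max C |α|)
    have hk1 : C < k := (le_max_left _ _).trans_lt hk
    have hk2 : |α| < k := (le_max_right _ _).trans_lt hk
    rw [abs_lt] at hk2
    rw [mem_iUnion]
    refine ⟨k, ?_, ?_, ?_⟩
    · intro i t ht
      refine (hC i t ht).trans ?_
      have := H.one i t
      gcongr
    · push_cast; linarith
    · push_cast; linarith
  obtain ⟨k, hk⟩ : ∃ k : ℕ, ν (A k ∩ Ico (-((k + 1 : ℕ) : ℝ)) ((k + 1 : ℕ) : ℝ)) ≠ 0 := by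
    by_contra hno
    push Not at hno
    apply hν
    rw [← Measure.measure_univ_eq_zero]
    refine measure_mono_null (t := (⋃ k : ℕ, A k ∩ Ico (-((k + 1 : ℕ) : ℝ)) ((k + 1 : ℕ) : ℝ)) ∪ Eᶜ) ?_ ?_
    · intro x _
      by_cases hx : x ∈ E
      · exact Or.inl (hcov hx)
      · exact Or.inr hx
    · rw [measure_union_null_iff]
      exact ⟨measure_iUnion_null hno, hνE⟩
  set Y : Set ℝ := A k ∩ Ico (-((k + 1 : ℕ) : ℝ)) ((k + 1 : ℕ) : ℝ) with hY
  have hYm : MeasurableSet Y := (hAc k).measurableSet.inter measurableSet_Ico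
  set μ : Measure ℝ := ν.restrict Y with hμ
  have : NullSingletonClass μ := ⟨fun x => by
    have := Measure.le_iff'.1 (Measure.restrict_le_self (μ := ν) (s := Y)) {x}
    rw [hatom x] at this
    exact le_antisymm this (zero_le)⟩
  have hμ0 : μ ≠ 0 := by
    intro h0
    apply hk
    rw [← Measure.restrict_apply_self, ← hμ, h0]
    rfl
  have hμE : ∫⁻ x, ∫⁻ y, w x y ∂μ ∂μ ≠ ⊤ := by
    refine ne_top_of_le_ne_top hen ?_
    calc ∫⁻ x, ∫⁻ y, w x y ∂μ ∂μ ≤ ∫⁻ x, ∫⁻ y, w x y ∂ν ∂μ :=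
          lintegral_mono fun x => lintegral_mono' Measure.restrict_le_self le_rfl
      _ ≤ ∫⁻ x, ∫⁻ y, w x y ∂ν ∂ν := lintegral_mono' Measure.restrict_le_self le_rfl
  set A' : Set ℝ := A k ∩ Ico (-((k + 1 : ℕ) : ℝ)) ((k + 1 : ℕ) : ℝ) with hA'
  have hμA : μ (A' ∩ Ico (-((k + 1 : ℕ) : ℝ)) ((k + 1 : ℕ) : ℝ))ᶜ = 0 := by
    have e : A' ∩ Ico (-((k + 1 : ℕ) : ℝ)) ((k + 1 : ℕ) : ℝ) = Y := by
      rw [hA', hY, inter_assoc, inter_self]
    rw [e, hμ, Measure.restrict_apply hYm.compl, compl_inter_self, measure_empty]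
  obtain ⟨r, y₀, hr0, hr8, hconf⟩ := Pool.Agent.X114.TM.conf hμ0 hμE (A := A') hYm
    (N := k + 1) (Nat.succ_pos k) hμA (η := η₀ / (4 * p)) (by positivity)
  -- the sampling set
  set S : Set (ι × ℝ) := {q | ∃ t ∈ D q.1, ∃ α ∈ A', q.2 = t + α} with hS
  have hrich : Rich X S p r (η₀ / (4 * p)) := by
    obtain ⟨X₁, hX₁⟩ := hD (r / 2) (by positivity)
    set M : ℝ := (1 + |y₀|) ^ n with hM
    have hM1 : 1 ≤ M := Real.one_le_rpow (by linarith [abs_nonneg y₀]) hn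
    refine ⟨max (M * max X₁ 0) (Real.exp (1 / (r * p))), fun i T hX => ?_⟩
    have hXT := H.one i T
    have h1 : M * max X₁ 0 ≤ X i T := (le_max_left _ _).trans hX
    have h2 : X i T ≤ M * X i (T - y₀) := by
      have := hsh i (T - y₀) y₀
      rwa [sub_add_cancel] at this
    have h3 : X₁ ≤ X i (T - y₀) := by
      have h4 : M * max X₁ 0 ≤ M * X i (T - y₀) := h1.trans h2
      exact (le_max_left _ _).trans (le_of_mul_le_mul_left h4 (by linarith))
    obtain ⟨t, htD, ht⟩ := hX₁ i (T - y₀) h3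
    have hexp : Real.exp (1 / (r * p)) ≤ X i T := (le_max_right _ _).trans hX
    have hL : 1 ≤ r * (p * Real.log (X i T)) := by
      have h5 : 1 / (r * p) ≤ Real.log (X i T) := by
        rwa [Real.le_log_iff_exp_le (by linarith)]
      rw [div_le_iff₀ (by positivity)] at h5
      linarith
    obtain ⟨s, hs1, hs2, hs3⟩ := hconf ⌈4 * r * (p * Real.log (X i T))⌉₊
    obtain ⟨s', h5, h6, h7⟩ := conf_shift (s := s) (y₀ := y₀) (a := t) (T := T)
      (Λ := p * Real.log (X i T)) hr0 (show 0 < η₀ / (4 * p) by positivity)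
      (fun x hx => (hs2 x hx).2) (by rwa [show t + y₀ - T = t - (T - y₀) by ring])
      (by rw [hs1]; exact hs3) hL hs1
    refine ⟨s', fun x hx => ?_, h6, h7⟩
    obtain ⟨h8, α, hα, rfl⟩ := h5 x hx
    exact ⟨⟨t, htD, α, (hs2 α hα).1, rfl⟩, h8⟩
  have hon : AdmOn L X S (κ + η₀ / 2) := by
    intro ε hε
    refine ⟨k * ((1 + (k + 1)) ^ n) ^ (κ + η₀ / 2), ?_⟩
    rintro i x ⟨t, ht, α, hα, hx⟩
    simp only at ht hx
    subst hx
    have h1 := hα.1 i t ht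
    have h2 : |α| ≤ k + 1 := by
      have := hα.2
      rw [mem_Ico] at this
      push_cast at this
      rw [abs_le]; constructor <;> linarith
    have h3 : X i t ≤ (1 + (k + 1)) ^ n * X i (t + α) := by
      have h4 := hsh i (t + α) (-α)
      rw [add_neg_cancel_right, abs_neg] at h4
      refine h4.trans ?_
      have := H.one i (t + α)
      gcongr
    have hXt := H.one i t
    have hXx := H.one i (t + α)
    have hk0 : (0:ℝ) ≤ k := Nat.cast_nonneg k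
    calc ‖L i (1 / 2 + ((t + α : ℝ) : ℂ) * Complex.I)‖ ≤ k * X i t ^ (κ + η₀ / 2) := h1
      _ ≤ k * ((1 + (k + 1)) ^ n * X i (t + α)) ^ (κ + η₀ / 2) := by gcongr
      _ = k * ((1 + (k + 1)) ^ n) ^ (κ + η₀ / 2) * X i (t + α) ^ (κ + η₀ / 2) := by
          rw [Real.mul_rpow (by positivity) (by linarith)]; ring
      _ ≤ _ := mul_le_mul_of_nonneg_left (Real.rpow_le_rpow_of_exponent_le hXx (by linarith))
          (by positivity)
  have := local_criterion H hp hc hm hK hld hr0 hr8 (by positivity) hrich (by linarith) hon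
  rwa [show κ + η₀ / 2 + 2 * (η₀ / (4 * p)) * p = κ + η₀ by field_simp; ring] at this

end Pool.Agent.X114.FM
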