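import Pool.Agent.X114.TS1
import Pool.Agent.X114.TS4

/-! Sets of capacity at least `c`; nearly optimal point configurations; small values near a large value. -/

set_option autoImplicit false

open Filter Topology Set MeasureTheory ENNReal

namespace Pool.Agent.X114.CP

open Pool.Agent.X114.TS

/-- `E` has (inner) logarithmic capacity at least `c` -/
def CapGe (E : Set ℝ) (c : ℝ) : Prop := ∃ ν : Measure ℝ, ν univ = 1 ∧ ν Eᶜ = 0 ∧ (∀ x, ν {x} = 0) ∧
  ∀ x : ℝ, ∫⁻ y, w x y ∂ν ≤ ENNReal.ofReal (Real.log (1 / c))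

lemma CapGe.mono {E E' : Set ℝ} (h : E ⊆ E') {c c' : ℝ} (hc' : 0 < c') (hcc : c' ≤ c)
    (H : CapGe E c) : CapGe E' c' := by
  obtain ⟨ν, h1, h2, h3, h4⟩ := H
  refine ⟨ν, h1, measure_mono_null (compl_subset_compl.2 h) h2, h3, fun x => (h4 x).trans ?_⟩
  apply ENNReal.ofReal_le_ofReal
  apply Real.log_le_log (by have := hc'.trans_le hcc; positivity)
  exact one_div_le_one_div_of_le hc' hcc

/-- the logarithmic energy of a finite set -/
noncomputable def En (s : Finset ℝ) : ℝ := ∑ x ∈ s, ∑ y ∈ s.erase x, Real.log (1 / |x - y|)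

lemma En_insert {s : Finset ℝ} {y : ℝ} (hy : y ∉ s) :
    En (insert y s) = En s + 2 * ∑ z ∈ s, Real.log (1 / |y - z|) := by
  classical
  unfold En
  rw [Finset.sum_insert hy, Finset.erase_insert hy]
  have h1 : ∑ x ∈ s, ∑ z ∈ (insert y s).erase x, Real.log (1 / |x - z|) =
      ∑ x ∈ s, Real.log (1 / |x - y|) + ∑ x ∈ s, ∑ z ∈ s.erase x, Real.log (1 / |x - z|) := by
    rw [← Finset.sum_add_distrib]
    refine Finset.sum_congr rfl fun x hx => ?_
    have hne : y ≠ x := fun h => hy (h ▸ hx)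
    rw [Finset.erase_insert_of_ne hne, Finset.sum_insert]
    intro h
    exact hy (Finset.mem_of_mem_erase h)
  have h2 : ∑ z ∈ s, Real.log (1 / |y - z|) = ∑ x ∈ s, Real.log (1 / |x - y|) :=
    Finset.sum_congr rfl fun x _ => by rw [abs_sub_comm]
  rw [h1, h2]
  ring

/-- nearly extremal configurations -/
lemma fekete {E : Set ℝ} {c T : ℝ} (hc : 0 < c) (hc1 : c ≤ 1) (hE : ∀ x ∈ E, |x - T| ≤ 1 / 2)
    (H : CapGe E c) (N : ℕ) :
    ∃ s : Finset ℝ, s.card = N + 1 ∧ (↑s : Set ℝ) ⊆ E ∧ ∀ x ∈ s,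
      ∑ z ∈ s.erase x, Real.log (1 / |x - z|) ≤ N * Real.log (1 / c) + Real.log 2 := by
  classical
  obtain ⟨ν, h1, h2, h3, h4⟩ := H
  have : IsProbabilityMeasure ν := ⟨h1⟩
  have : NullSingletonClass ν := ⟨h3⟩
  have hlc : 0 ≤ Real.log (1 / c) := Real.log_nonneg (by rw [le_div_iff₀ hc]; linarith)
  have hν : ν ≠ 0 := IsProbabilityMeasure.ne_zero ν
  -- nonnegativity
  have hnn : ∀ x ∈ E, ∀ y ∈ E, 0 ≤ Real.log (1 / |x - y|) := by
    intro x hx y hy
    rcases eq_or_ne x y with h | h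
    · rw [h, sub_self, abs_zero, _root_.div_zero, Real.log_zero]
    · apply Real.log_nonneg
      have h5 : 0 < |x - y| := abs_pos.2 (sub_ne_zero.2 h)
      rw [le_div_iff₀ h5, one_mul]
      have h6 := abs_le.1 (hE x hx)
      have h7 := abs_le.1 (hE y hy)
      rw [abs_le]; constructor <;> linarith
  -- a new point for every finite set
  have hnew : ∀ s : Finset ℝ, (↑s : Set ℝ) ⊆ E → ∃ y ∈ E, y ∉ s ∧
      ∑ z ∈ s, Real.log (1 / |y - z|) ≤ s.card * Real.log (1 / c) := by
    intro s hs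
    have hN : ν (Eᶜ ∪ ↑s) = 0 := by
      rw [measure_union_null_iff]
      exact ⟨h2, s.finite_toSet.measure_zero ν⟩
    have hmeas : Measurable (fun y => ∑ x ∈ s, w x y) :=
      Finset.measurable_fun_sum _ fun x _ => w_meas'' x
    obtain ⟨y, hy, hle⟩ := exists_notMem_null_le_laverage hν hmeas.aemeasurable hN
    rw [mem_union, not_or] at hy
    obtain ⟨hy1, hy2⟩ := hy
    have hyE : y ∈ E := by simpa using hy1
    refine ⟨y, hyE, hy2, ?_⟩
    have h5 : ∑ x ∈ s, w x y ≤ s.card * ENNReal.ofReal (Real.log (1 / c)) := by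
      refine hle.trans ?_
      rw [laverage_eq, h1, _root_.div_one, lintegral_finsetSum _ fun x _ => w_meas'' x]
      calc ∑ x ∈ s, ∫⁻ a, w x a ∂ν ≤ ∑ _x ∈ s, ENNReal.ofReal (Real.log (1 / c)) :=
            Finset.sum_le_sum fun x _ => h4 x
        _ = _ := by rw [Finset.sum_const, nsmul_eq_mul]
    have h6 : ENNReal.ofReal (∑ z ∈ s, Real.log (1 / |y - z|)) ≤
        ENNReal.ofReal (s.card * Real.log (1 / c)) := by
      refine (ofReal_sum_le' _ _).trans ?_
      rw [ENNReal.ofReal_mul (Nat.cast_nonneg _), ENNReal.ofReal_natCast]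
      refine le_trans (le_of_eq ?_) h5
      refine Finset.sum_congr rfl fun z _ => ?_
      rw [w_symm]
      rfl
    exact (ENNReal.ofReal_le_ofReal_iff (by positivity)).1 h6
  -- existence of configurations
  have hex : ∀ n : ℕ, ∃ s : Finset ℝ, s.card = n ∧ (↑s : Set ℝ) ⊆ E := by
    intro n
    induction n with
    | zero => exact ⟨∅, rfl, by simp⟩
    | succ n ih =>
      obtain ⟨s, hs1, hs2⟩ := ih
      obtain ⟨y, hy1, hy2, -⟩ := hnew s hs2
      refine ⟨insert y s, by rw [Finset.card_insert_of_notMem hy2, hs1], ?_⟩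
      intro z hz
      rw [Finset.coe_insert, mem_insert_iff] at hz
      rcases hz with h | h
      · rw [h]; exact hy1
      · exact hs2 h
  set S : Set ℝ := {e | ∃ s : Finset ℝ, s.card = N + 1 ∧ (↑s : Set ℝ) ⊆ E ∧ En s = e} with hS
  have hSne : S.Nonempty := by
    obtain ⟨s, a, b⟩ := hex (N + 1)
    exact ⟨En s, s, a, b, rfl⟩
  have hEn : ∀ s : Finset ℝ, (↑s : Set ℝ) ⊆ E → 0 ≤ En s := by
    intro s hs
    exact Finset.sum_nonneg fun x hx => Finset.sum_nonneg fun y hy =>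
      hnn x (hs hx) y (hs (Finset.mem_of_mem_erase hy))
  have hSbd : BddBelow S := ⟨0, by rintro e ⟨s, -, b, rfl⟩; exact hEn s b⟩
  have hl2 : 0 < Real.log 2 := Real.log_pos (by norm_num)
  obtain ⟨e, ⟨s, hs1, hs2, rfl⟩, hlt⟩ := exists_lt_of_csInf_lt hSne
    (show sInf S < sInf S + 2 * Real.log 2 by linarith)
  refine ⟨s, hs1, hs2, fun x hx => ?_⟩
  have hsub : (↑(s.erase x) : Set ℝ) ⊆ E := fun z hz => hs2 (Finset.mem_of_mem_erase hz)
  obtain ⟨y, hy1, hy2, hy3⟩ := hnew (s.erase x) hsub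
  have hcard : (s.erase x).card = N := by rw [Finset.card_erase_of_mem hx, hs1]; rfl
  rw [hcard] at hy3
  have h5 : sInf S ≤ En (insert y (s.erase x)) := by
    apply csInf_le hSbd
    refine ⟨_, by rw [Finset.card_insert_of_notMem hy2, hcard], ?_, rfl⟩
    intro z hz
    rw [Finset.coe_insert, mem_insert_iff] at hz
    rcases hz with h | h
    · rw [h]; exact hy1
    · exact hsub h
  have h6 := En_insert hy2
  have h7 := En_insert (Finset.notMem_erase x s)
  rw [Finset.insert_erase hx] at h7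
  linarith

/-- the value at the centre of a window with many small values -/
lemma window {T h c M a : ℝ} {f : ℂ → ℂ} (hf : Differentiable ℂ f) (hh : 0 < h) (hh8 : h ≤ 1 / 8)
    (hc : 0 < c) (hc1 : c ≤ 1) (hM : ∀ z : ℂ, ‖z‖ = 1 / 2 → ‖f z‖ ≤ M) (ha : 0 ≤ a)
    {E : Set ℝ} (hE : ∀ x ∈ E, |x - T| ≤ h) (hT : T ∉ E)
    (hfE : ∀ x ∈ E, ‖f (((x - T : ℝ) : ℂ) * Complex.I)‖ ≤ a) (H : CapGe E c) (N : ℕ) :
    ‖f 0‖ ≤ M * (8 * h / 3) ^ (N + 1) + 2 * (N + 1) * a * (h / c) ^ N := by
  classical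
  obtain ⟨s, hs1, hs2, hs3⟩ := fekete hc hc1 (fun x hx => (hE x hx).trans (by linarith)) H N
  have hM0 : 0 ≤ M := (norm_nonneg _).trans (hM ((1 / 2 : ℝ) : ℂ) (by
    rw [Complex.norm_real, Real.norm_eq_abs, abs_of_pos (by norm_num)]))
  set g : ℝ → ℂ := fun x => ((x - T : ℝ) : ℂ) * Complex.I with hg
  have hginj : Function.Injective g := by
    intro x y h
    have h1 := mul_right_cancel₀ Complex.I_ne_zero h
    have h2 : x - T = y - T := by exact_mod_cast h1
    linarith
  have hgn : ∀ x, ‖g x‖ = |x - T| := by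
    intro x
    rw [hg]
    simp only
    rw [norm_mul, Complex.norm_I, mul_one, Complex.norm_real, Real.norm_eq_abs]
  have hgd : ∀ x y, ‖g x - g y‖ = |x - y| := by
    intro x y
    have : g x - g y = ((x - y : ℝ) : ℂ) * Complex.I := by rw [hg]; push_cast; ring
    rw [this, norm_mul, Complex.norm_I, mul_one, Complex.norm_real, Real.norm_eq_abs]
  set t : Finset ℂ := s.image g with ht
  have htc : t.card = N + 1 := by rw [ht, Finset.card_image_of_injective _ hginj, hs1]
  have h0 : (0 : ℂ) ∉ t := by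
    rw [ht, Finset.mem_image]
    rintro ⟨x, hx, h⟩
    have h1 := hgn x
    rw [h, norm_zero] at h1
    have h2 : x - T = 0 := abs_eq_zero.1 h1.symm
    have h3 : x = T := by linarith
    exact hT (h3 ▸ hs2 hx)
  have h1 := point_bound hf hh (show h < 1 / 2 by linarith) hM h0 (by
    intro v hv
    obtain ⟨x, hx, rfl⟩ := Finset.mem_image.1 hv
    rw [hgn]
    exact hE x (hs2 hx))
  refine h1.trans (add_le_add ?_ ?_)
  · rw [htc]
    apply mul_le_mul_of_nonneg_left _ hM0
    apply pow_le_pow_left₀ (by apply _root_.div_nonneg hh.le; linarith)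
    rw [div_le_iff₀ (by linarith)]
    nlinarith
  · rw [ht, Finset.sum_image (fun x _ y _ h => hginj h), ← ht, htc, Nat.add_sub_cancel]
    have h2 : ∀ x ∈ s, ‖f (g x)‖ * (h ^ N * ∏ v ∈ t.erase (g x), ‖g x - v‖⁻¹) ≤
        a * (2 * (h / c) ^ N) := by
      intro x hx
      have e1 : t.erase (g x) = (s.erase x).image g := by
        rw [ht, Finset.image_erase hginj]
      rw [e1, Finset.prod_image (fun x _ y _ h => hginj h)]
      have h6 : ∏ y ∈ s.erase x, ‖g x - g y‖⁻¹ ≤ 2 * (1 / c) ^ N := by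
        have h7 : ∏ y ∈ s.erase x, ‖g x - g y‖⁻¹ =
            Real.exp (∑ y ∈ s.erase x, Real.log (1 / |x - y|)) := by
          rw [Real.exp_sum]
          refine Finset.prod_congr rfl fun y hy => ?_
          have hne : x ≠ y := (Finset.ne_of_mem_erase hy).symm
          have : 0 < |x - y| := abs_pos.2 (sub_ne_zero.2 hne)
          rw [Real.exp_log (by positivity), hgd, one_div]
        rw [h7]
        refine (Real.exp_le_exp.2 (hs3 x hx)).trans (le_of_eq ?_)
        rw [Real.exp_add, Real.exp_log (by norm_num), mul_comm (N : ℝ), Real.exp_mul,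
          Real.exp_log (by positivity), Real.rpow_natCast]
        ring
      have h9 := hfE x (hs2 hx)
      have h10 : 0 ≤ ∏ y ∈ s.erase x, ‖g x - g y‖⁻¹ :=
        Finset.prod_nonneg fun y _ => inv_nonneg.2 (norm_nonneg _)
      calc ‖f (g x)‖ * (h ^ N * ∏ y ∈ s.erase x, ‖g x - g y‖⁻¹) ≤ a * (h ^ N * (2 * (1 / c) ^ N)) := by
            gcongr
        _ = _ := by rw [div_eq_mul_one_div h c, mul_pow]; ring
    refine (Finset.sum_le_sum h2).trans (le_of_eq ?_)
    rw [Finset.sum_const, nsmul_eq_mul, hs1]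
    push_cast
    ring

end Pool.Agent.X114.CP
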