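import Pool.Agent.X114.CP2
import Pool.Agent.X114.TS3
import Pool.Agent.H983R4.GL.F3

/-! Near a large value the set of small values has small capacity. -/

set_option autoImplicit false

open MeasureTheory Filter Topology Set Real

namespace Pool.Agent.X114.CP

open Pool.Agent.X114.TS Pool.Agent.H983R4.GL

lemma le_exp_posLog {x : ℝ} (hx : 0 ≤ x) : x ≤ Real.exp (log⁺ x) := by
  rcases eq_or_lt_of_le hx with h | h
  · rw [← h]; positivity
  · calc x = Real.exp (Real.log x) := (Real.exp_log h).symm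
      _ ≤ _ := Real.exp_le_exp.2 (le_max_right _ _)

variable {F : ℂ → ℂ} {T ℓ C m K : ℝ}

/-- the crude bound in a disc -/
lemma disc (H : LD F T ℓ C m K) {z : ℂ} (hz : ‖z‖ ≤ 1 / 2) :
    ‖F (1 / 2 + T * Complex.I + z)‖ ≤ Real.exp (K + C + 2 * (m * Real.log 2) + 3 / 2 * ℓ) := by
  have hx := abs_le.1 ((Complex.abs_re_le_norm z).trans hz)
  have hy := (Complex.abs_im_le_norm z).trans hz
  have hm := H.hm
  have hℓ := H.hℓ
  have hC := H.hC
  have hK := H.hK
  have hl2 : 0 < Real.log 2 := Real.log_pos (by norm_num)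
  have hml : 0 ≤ m * Real.log 2 := by positivity
  have hg : ∀ x : ℝ, 0 ≤ x → log⁺ ‖F (1 / 2 + x + ((T + z.im : ℝ) : ℂ) * Complex.I)‖ ≤
      C + ℓ + m * Real.log 2 := by
    intro x hx0
    have h1 := H.g (1 / 2 + x + ((T + z.im : ℝ) : ℂ) * Complex.I) (by simp; exact hx0)
    have e1 : (1 / 2 + (x : ℂ) + ((T + z.im : ℝ) : ℂ) * Complex.I).im - T = z.im := by simp
    rw [e1] at h1
    have h2 : Real.log (1 + |z.im|) ≤ Real.log 2 := Real.log_le_log (by positivity) (by linarith)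
    have h3 := mul_le_mul_of_nonneg_left h2 hm
    linarith
  refine (le_exp_posLog (norm_nonneg _)).trans (Real.exp_le_exp.2 ?_)
  rcases le_total 0 z.re with h | h
  · have e : (1 / 2 + T * Complex.I + z : ℂ) = 1 / 2 + (z.re : ℂ) + ((T + z.im : ℝ) : ℂ) * Complex.I := by
      apply Complex.ext <;> simp
    rw [e]
    have := hg z.re h
    linarith
  · have e : (1 / 2 + T * Complex.I + z : ℂ) =
        1 / 2 - ((-z.re : ℝ) : ℂ) + ((T + z.im : ℝ) : ℂ) * Complex.I := by
      apply Complex.ext <;> simp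
    rw [e]
    have h1 := H.r (-z.re) (T + z.im) (by linarith) (by linarith) (by
      rw [add_sub_cancel_left]; linarith)
    have h2 := hg (-z.re) (by linarith)
    have h3 : -z.re * (ℓ + m * Real.log 2) ≤ 1 / 2 * (ℓ + m * Real.log 2) := by
      apply mul_le_mul_of_nonneg_right _ (by positivity); linarith
    linarith

/-- **Small values near a large value.** -/
theorem small_values {p C m K κ μ : ℝ} (hp : 0 < p) (hκμ : κ < μ) :
    ∃ δ : ℝ, 0 < δ ∧ ∃ Λ₀ : ℝ, ∀ (F : ℂ → ℂ) (T Λ : ℝ), Λ₀ ≤ Λ → LD F T (p * Λ) C m K →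
      Real.exp (μ * Λ) ≤ ‖F (1 / 2 + T * Complex.I)‖ → ∀ h : ℝ, 0 < h → h ≤ 1 / 8 →
      ∀ c : ℝ, 0 < c → c ≤ 1 →
      CapGe {x : ℝ | |x - T| ≤ h ∧ ‖F (1 / 2 + x * Complex.I)‖ ≤ Real.exp (κ * Λ)} c →
      c ≤ h * (8 * h / 3) ^ δ := by
  set B : ℝ := 2 + |μ| / p with hB
  have hB0 : 0 < B := by positivity
  set a : ℝ := (μ - κ) / 2 with ha
  have ha0 : 0 < a := by rw [ha]; linarith
  set c₀ : ℝ := K + C + 2 * (m * Real.log 2) with hc₀
  -- `Λ` large
  have hev : ∀ᶠ Λ : ℝ in atTop, 1 ≤ Λ ∧ Real.exp (c₀ - p * Λ / 2) ≤ 1 / 4 ∧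
      2 * (B * p * Λ + 1) * Real.exp (-(a * Λ)) ≤ 1 / 4 := by
    refine (eventually_ge_atTop 1).and (Filter.Eventually.and ?_ ?_)
    · have h1 : Tendsto (fun Λ : ℝ => Real.exp (c₀ - p * Λ / 2)) atTop (𝓝 0) := by
        apply Real.tendsto_exp_atBot.comp
        have h2 : Tendsto (fun Λ : ℝ => p / 2 * Λ) atTop atTop :=
          tendsto_id.const_mul_atTop (by positivity)
        have h3 := tendsto_atBot_add_const_left atTop c₀ (tendsto_neg_atTop_atBot.comp h2)
        refine h3.congr fun x => ?_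
        simp only [Function.comp]
        ring
      exact (h1.eventually (gt_mem_nhds (show (0:ℝ) < 1 / 4 by norm_num))).mono fun x hx => hx.le
    · have h1 : Tendsto (fun Λ : ℝ => (a * Λ) ^ 1 * Real.exp (-(a * Λ))) atTop (𝓝 0) :=
        (Real.tendsto_pow_mul_exp_neg_atTop_nhds_zero 1).comp (tendsto_id.const_mul_atTop ha0)
      have h2 : Tendsto (fun Λ : ℝ => (a * Λ) ^ 0 * Real.exp (-(a * Λ))) atTop (𝓝 0) :=
        (Real.tendsto_pow_mul_exp_neg_atTop_nhds_zero 0).comp (tendsto_id.const_mul_atTop ha0)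
      have h3 := (h1.const_mul (2 * (B * p / a))).add (h2.const_mul 2)
      rw [mul_zero, mul_zero, add_zero] at h3
      have h4 : Tendsto (fun Λ : ℝ => 2 * (B * p * Λ + 1) * Real.exp (-(a * Λ))) atTop (𝓝 0) := by
        refine h3.congr fun x => ?_
        field_simp
      exact (h4.eventually (gt_mem_nhds (show (0:ℝ) < 1 / 4 by norm_num))).mono fun x hx => hx.le
  obtain ⟨Λ₀, hΛ₀⟩ := eventually_atTop.1 hev
  refine ⟨a / (B * p), by positivity, Λ₀, fun F T Λ hΛ H hbig h hh hh8 c hc hc1 hcap => ?_⟩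
  obtain ⟨hΛ1, hE1, hE2⟩ := hΛ₀ Λ hΛ
  have hΛ0 : 0 < Λ := by linarith
  by_contra hcon
  push Not at hcon
  set D : ℝ := Real.log (3 / (8 * h)) with hD
  have h83 : 0 < 8 * h / 3 := by positivity
  have hD1 : 1 ≤ D := by
    have h1 : Real.log 3 ≤ D := by
      apply Real.log_le_log (by norm_num)
      rw [le_div_iff₀ (by positivity)]; linarith
    linarith [log_three]
  have hDe : 8 * h / 3 = Real.exp (-D) := by
    rw [hD, ← Real.log_inv, Real.exp_log (by positivity), inv_div]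
  set N : ℕ := ⌊B * p * Λ / D⌋₊ with hN
  have hN1 : (N : ℝ) ≤ B * p * Λ / D := Nat.floor_le (by positivity)
  have hN2 : B * p * Λ / D < N + 1 := Nat.lt_floor_add_one _
  have hN1' : (N : ℝ) * D ≤ B * p * Λ := by rwa [le_div_iff₀ (by linarith)] at hN1
  have hN2' : B * p * Λ < (N + 1) * D := by rwa [div_lt_iff₀ (by linarith)] at hN2
  have hNB : (N : ℝ) ≤ B * p * Λ := by
    have : (N : ℝ) * 1 ≤ N * D := mul_le_mul_of_nonneg_left hD1 (Nat.cast_nonneg _)
    linarith
  set E : Set ℝ := {x : ℝ | |x - T| ≤ h ∧ ‖F (1 / 2 + x * Complex.I)‖ ≤ Real.exp (κ * Λ)} with hE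
  have hTE : T ∉ E := by
    intro hmem
    have h1 := hmem.2
    have h2 : Real.exp (κ * Λ) < Real.exp (μ * Λ) :=
      Real.exp_lt_exp.2 (mul_lt_mul_of_pos_right hκμ hΛ0)
    linarith
  set f : ℂ → ℂ := fun z => F (1 / 2 + T * Complex.I + z) with hf
  have hfd : Differentiable ℂ f := H.hd.comp (by fun_prop)
  have hmain := window (T := T) (M := Real.exp (c₀ + 3 / 2 * (p * Λ))) (a := Real.exp (κ * Λ)) hfd hh hh8
    hc hc1 (fun z hz => disc H hz.le) (Real.exp_pos _).le (E := E) (fun x hx => hx.1) hTE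
    (fun x hx => by
      have e : (1 / 2 + T * Complex.I + ((x - T : ℝ) : ℂ) * Complex.I : ℂ) = 1 / 2 + x * Complex.I := by
        push_cast; ring
      rw [hf]
      simp only
      rw [e]
      exact hx.2) hcap N
  have hf0 : f 0 = F (1 / 2 + T * Complex.I) := by rw [hf]; simp
  rw [hf0] at hmain
  -- first term
  have h1 : Real.exp (c₀ + 3 / 2 * (p * Λ)) * (8 * h / 3) ^ (N + 1) ≤ Real.exp (μ * Λ) * (1 / 4) := by
    have e1 : (8 * h / 3) ^ (N + 1) = Real.exp (-((N + 1) * D)) := by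
      rw [hDe, ← Real.exp_nat_mul]; congr 1; push_cast; ring
    rw [e1, ← Real.exp_add]
    have h2 : Real.exp (c₀ + 3 / 2 * (p * Λ) + -((N + 1) * D)) ≤
        Real.exp (μ * Λ) * Real.exp (c₀ - p * Λ / 2) := by
      rw [← Real.exp_add]
      apply Real.exp_le_exp.2
      have h3 : B * p * Λ = 2 * p * Λ + |μ| * Λ := by rw [hB]; field_simp
      have h4 : -(|μ| * Λ) ≤ μ * Λ := by
        have := neg_abs_le μ
        nlinarith
      linarith
    exact h2.trans (mul_le_mul_of_nonneg_left hE1 (Real.exp_pos _).le)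
  -- second term
  have h2 : 2 * (N + 1) * Real.exp (κ * Λ) * (h / c) ^ N ≤ Real.exp (μ * Λ) * (1 / 4) := by
    have h3 : h / c ≤ Real.exp (a / (B * p) * D) := by
      have e1 : (8 * h / 3) ^ (a / (B * p)) = Real.exp (-(a / (B * p) * D)) := by
        rw [hDe, ← Real.exp_mul]; congr 1; ring
      rw [e1] at hcon
      rw [div_le_iff₀ hc]
      have h4 : Real.exp (a / (B * p) * D) * (h * Real.exp (-(a / (B * p) * D))) = h := by
        rw [Real.exp_neg]; field_simp
      have h5 := mul_le_mul_of_nonneg_left hcon.le (Real.exp_pos (a / (B * p) * D)).le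
      rwa [h4] at h5
    have h4 : (h / c) ^ N ≤ Real.exp (a * Λ) := by
      calc (h / c) ^ N ≤ Real.exp (a / (B * p) * D) ^ N := pow_le_pow_left₀ (by positivity) h3 N
        _ = Real.exp (N * (a / (B * p) * D)) := by rw [← Real.exp_nat_mul]
        _ ≤ Real.exp (a * Λ) := by
            apply Real.exp_le_exp.2
            have : (N : ℝ) * (a / (B * p) * D) = a / (B * p) * (N * D) := by ring
            rw [this]
            calc a / (B * p) * (N * D) ≤ a / (B * p) * (B * p * Λ) :=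
                  mul_le_mul_of_nonneg_left hN1' (by positivity)
              _ = a * Λ := by field_simp
    have h5 : 2 * ((N : ℝ) + 1) ≤ 2 * (B * p * Λ + 1) := by linarith
    calc 2 * (N + 1) * Real.exp (κ * Λ) * (h / c) ^ N ≤
          2 * (B * p * Λ + 1) * Real.exp (κ * Λ) * Real.exp (a * Λ) := by gcongr
      _ = Real.exp (μ * Λ) * (2 * (B * p * Λ + 1) * Real.exp (-(a * Λ))) := by
          have : Real.exp (κ * Λ) * Real.exp (a * Λ) = Real.exp (μ * Λ) * Real.exp (-(a * Λ)) := by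
            rw [← Real.exp_add, ← Real.exp_add]; congr 1; rw [ha]; ring
          linear_combination 2 * (B * p * Λ + 1) * this
      _ ≤ Real.exp (μ * Λ) * (1 / 4) := mul_le_mul_of_nonneg_left hE2 (Real.exp_pos _).le
  have h3 := Real.exp_pos (μ * Λ)
  linarith

end Pool.Agent.X114.CP
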