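import Pool.Agent.X114.TS3
import Pool.Agent.X114.TS4
import Pool.Agent.H983R4.GL.F3

/-! Sampling for families of L-functions: undersampled nets and sets of positive capacity. -/

set_option autoImplicit false

open MeasureTheory Filter Topology Set Real

namespace Pool.Agent.X114.FM

open Pool.Agent.H983R4.LH Pool.Agent.H983R4.GL Pool.Agent.H983R4.GL.Z
open Pool.Agent.X114.TS (window)

variable {ι : Type} {L : ι → ℂ → ℂ} {X : ι → ℝ → ℝ}

/-- the normalised function -/
noncomputable def f (F : ℂ → ℂ) (T ℓ : ℝ) (z : ℂ) : ℂ :=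
  F (1 / 2 + T * Complex.I + z) * Complex.exp ((ℓ / 2 : ℝ) * z)

lemma f_diff {F : ℂ → ℂ} (hF : Differentiable ℂ F) (T ℓ : ℝ) : Differentiable ℂ (f F T ℓ) := by
  unfold f
  exact (hF.comp (by fun_prop)).mul (by fun_prop)

lemma f_norm (F : ℂ → ℂ) (T ℓ : ℝ) (z : ℂ) : ‖f F T ℓ z‖ = ‖F (1 / 2 + T * Complex.I + z)‖ *
    Real.exp (ℓ / 2 * z.re) := by
  unfold f
  rw [norm_mul, Complex.norm_exp, Complex.re_ofReal_mul]

lemma f_line (F : ℂ → ℂ) (T ℓ y : ℝ) :
    ‖f F T ℓ (y * Complex.I)‖ = ‖F (1 / 2 + ((T + y : ℝ) : ℂ) * Complex.I)‖ := by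
  rw [f_norm]
  have hre : ((y : ℂ) * Complex.I).re = 0 := by simp
  rw [hre, mul_zero, Real.exp_zero, mul_one]
  congr 2
  push_cast; ring

lemma f_zero (F : ℂ → ℂ) (T ℓ : ℝ) :
    ‖f F T ℓ 0‖ = ‖F (1 / 2 + (T : ℂ) * Complex.I)‖ := by
  have := f_line F T ℓ 0
  rwa [Complex.ofReal_zero, zero_mul, add_zero] at this

/-- the bound on discs -/
lemma disc (H : Fam L X) {p C m K : ℝ} (hp : 0 < p) (hC : 0 ≤ C) (hm : 0 ≤ m) (hK : 0 ≤ K)
    (hld : ∀ i T, LD (L i) T (p * Real.log (X i T)) C m K) {θ : ℝ} (hθ0 : 0 ≤ θ)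
    (hθ : AdmOn L X univ θ) {ε : ℝ} (hε : 0 < ε) :
    ∃ c : ℝ, 0 < c ∧ ∀ (i : ι) (T R : ℝ), 0 < R → R ≤ 1 / 2 → ∀ z : ℂ, ‖z‖ ≤ R →
      ‖f (L i) T (p * Real.log (X i T)) z‖ ≤
        c * Real.exp ((θ + ε) * Real.log (X i T) + R / 2 * (p * Real.log (X i T))) := by
  have hpi := Real.pi_pos
  have hl2 := Real.log_pos (show (1:ℝ) < 2 by norm_num)
  have hC0 : 0 ≤ C0 := C0_nonneg
  obtain ⟨B, hB⟩ := hθ ε hε
  obtain ⟨n, hn, hsh⟩ := H.shift
  set B₁ : ℝ := max 1 |B| with hB₁
  have hB1 : 1 ≤ B₁ := le_max_left _ _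
  have hlB : 0 ≤ Real.log B₁ := Real.log_nonneg hB1
  set m' : ℝ := (θ + ε) * n with hm'
  have hm'0 : 0 ≤ m' := by positivity
  refine ⟨Real.exp (K + (Real.log B₁ + m' * Real.log 2 + m' * C0 / (2 * π)) + m * Real.log 2),
    Real.exp_pos _, fun i T R hR hR2 z hz => ?_⟩
  have hX1 := H.one i T
  set Λ : ℝ := Real.log (X i T) with hΛ
  have hΛ0 : 0 ≤ Λ := Real.log_nonneg hX1
  set A : ℝ := Real.log B₁ + (θ + ε) * Λ with hA
  have hD := hld i T
  have hLZ : LZ (L i) T (p * Λ) m K := ⟨hD.hd, hD.hℓ, hm, hK, ⟨_, _, hm, hD.growth⟩, hD.r⟩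
  have hline : ∀ x : ℝ, log⁺ ‖L i (1 / 2 + (x : ℂ) * Complex.I)‖ ≤
      A + m' * Real.log (1 + |x - T|) := by
    intro x
    have h3 := hB i x (mem_univ _)
    have hXx := H.one i x
    have h4 : ‖L i (1 / 2 + (x : ℂ) * Complex.I)‖ ≤ B₁ * X i x ^ (θ + ε) := by
      refine h3.trans (mul_le_mul_of_nonneg_right ?_ (by positivity))
      exact (le_abs_self B).trans (le_max_right _ _)
    have h5 := posLog_le_posLog (norm_nonneg _) h4
    have h7 : 1 ≤ X i x ^ (θ + ε) := Real.one_le_rpow hXx (by linarith)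
    have h6 : log⁺ (B₁ * X i x ^ (θ + ε)) = Real.log B₁ + (θ + ε) * Real.log (X i x) := by
      rw [posLog_eq_log, Real.log_mul (by positivity) (by positivity), Real.log_rpow (by linarith)]
      rw [abs_of_nonneg (by positivity)]
      nlinarith
    have h8 := hsh i T (x - T)
    rw [add_sub_cancel] at h8
    have h9 : Real.log (X i x) ≤ n * Real.log (1 + |x - T|) + Λ := by
      have h10 := Real.log_le_log (by linarith) h8
      rw [Real.log_mul (by positivity) (by linarith), Real.log_rpow (by positivity)] at h10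
      exact h10
    have h10 := mul_le_mul_of_nonneg_left h9 (by linarith : 0 ≤ θ + ε)
    rw [hA, hm']
    linarith
  have hx : |z.re| ≤ R := (Complex.abs_re_le_norm z).trans hz
  have hy : |z.im| ≤ R := (Complex.abs_im_le_norm z).trans hz
  have hx' := abs_le.1 hx
  have hy' := abs_le.1 hy
  have hq : 0 ≤ m' * C0 / (2 * π) := by positivity
  -- on the right of the line
  have hright : ∀ a : ℝ, 0 ≤ a → a ≤ 1 / 2 →
      log⁺ ‖L i (1 / 2 + a + ((T + z.im : ℝ) : ℂ) * Complex.I)‖ ≤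
        A + m' * Real.log 2 + m' * C0 / (2 * π) := by
    intro a ha0 ha1
    rcases eq_or_lt_of_le ha0 with h | h
    · rw [← h]
      have h1 := hline (T + z.im)
      have h2 : Real.log (1 + |T + z.im - T|) ≤ Real.log 2 := by
        apply Real.log_le_log (by positivity)
        rw [add_sub_cancel_left]
        linarith
      have h3 := mul_le_mul_of_nonneg_left h2 hm'0
      rw [Complex.ofReal_zero, add_zero]
      linarith
    · have h1 := inner2 hLZ (A := A) (m' := m') (κ := A) (h := 1 / 2) (a := a) (t := T + z.im) (E := ∅)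
        hm'0 hline MeasurableSet.empty (fun x hx => absurd hx (notMem_empty x))
        (fun x hx => absurd hx (notMem_empty x)) le_rfl (by norm_num) h ha1
        (by rw [add_sub_cancel_left]; linarith)
      rw [measure_empty, ENNReal.toReal_zero, mul_zero, zero_div, sub_zero] at h1
      exact h1
  have hmain : log⁺ ‖L i (1 / 2 + z.re + ((T + z.im : ℝ) : ℂ) * Complex.I)‖ ≤
      K + (A + m' * Real.log 2 + m' * C0 / (2 * π)) + max 0 (-z.re) * (p * Λ) + m * Real.log 2 := by
    rcases le_total 0 z.re with h | h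
    · have h1 := hright z.re h (by linarith)
      rw [max_eq_left (by linarith), zero_mul, add_zero]
      have : 0 ≤ m * Real.log 2 := by positivity
      linarith
    · have h1 := hright (-z.re) (by linarith) (by linarith)
      have h2 := hLZ.r (-z.re) (T + z.im) (by linarith) (by linarith) (by
        rw [add_sub_cancel_left]; linarith)
      have e : (1 / 2 - ((-z.re : ℝ) : ℂ) + ((T + z.im : ℝ) : ℂ) * Complex.I) =
          1 / 2 + z.re + ((T + z.im : ℝ) : ℂ) * Complex.I := by push_cast; ring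
      rw [e] at h2
      rw [max_eq_right (by linarith)]
      have h3 : -z.re * (p * Λ + m * Real.log 2) ≤ -z.re * (p * Λ) + m * Real.log 2 := by
        have h4 : -z.re * (m * Real.log 2) ≤ 1 * (m * Real.log 2) :=
          mul_le_mul_of_nonneg_right (by linarith) (by positivity)
        linarith
      linarith
  have e : (1 / 2 + T * Complex.I + z : ℂ) = 1 / 2 + z.re + ((T + z.im : ℝ) : ℂ) * Complex.I := by
    apply Complex.ext <;> simp
  rw [f_norm, e, ← Real.exp_add]
  have h3 : ∀ w : ℝ, 0 ≤ w → w ≤ Real.exp (log⁺ w) := by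
    intro w hw
    rcases eq_or_lt_of_le hw with h | h
    · rw [← h]; positivity
    · calc w = Real.exp (Real.log w) := (Real.exp_log h).symm
        _ ≤ _ := Real.exp_le_exp.2 (le_max_right _ _)
  refine (mul_le_mul_of_nonneg_right ((h3 _ (norm_nonneg _)).trans (Real.exp_le_exp.2 hmain))
    (Real.exp_pos _).le).trans ?_
  rw [← Real.exp_add]
  apply Real.exp_le_exp.2
  have h4 : max 0 (-z.re) * (p * Λ) + p * Λ / 2 * z.re ≤ R / 2 * (p * Λ) := by
    have hpΛ : 0 ≤ p * Λ := by positivity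
    rcases le_total 0 z.re with h | h
    · rw [max_eq_left (by linarith)]; nlinarith
    · rw [max_eq_right (by linarith)]; nlinarith
  rw [hA]
  linarith

/-- values are bounded for bounded conductor -/
lemma bdd (H : Fam L X) (R : ℝ) : ∃ B : ℝ, 0 < B ∧ ∀ i T, X i T ≤ R →
    ‖L i (1 / 2 + (T : ℂ) * Complex.I)‖ ≤ B := by
  obtain ⟨p, C, m, K, hp, hC, hm, hK, hld⟩ := H.ld
  refine ⟨Real.exp (C + p * Real.log R), Real.exp_pos _, fun i T hX => ?_⟩
  have h1 := (hld i T).g (1 / 2 + (T : ℂ) * Complex.I) (by simp)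
  have him : (1 / 2 + (T : ℂ) * Complex.I).im = T := by simp
  rw [him, sub_self, abs_zero, add_zero, Real.log_one, mul_zero, add_zero] at h1
  have h2 : Real.log (X i T) ≤ Real.log R := Real.log_le_log (by linarith [H.one i T]) hX
  have h3 : ∀ w : ℝ, 0 ≤ w → w ≤ Real.exp (log⁺ w) := by
    intro w hw
    rcases eq_or_lt_of_le hw with h | h
    · rw [← h]; positivity
    · calc w = Real.exp (Real.log w) := (Real.exp_log h).symm
        _ ≤ _ := Real.exp_le_exp.2 (le_max_right _ _)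
  refine (h3 _ (norm_nonneg _)).trans (Real.exp_le_exp.2 ?_)
  have := mul_le_mul_of_nonneg_left h2 hp.le
  linarith

/-- a first exponent -/
lemma base (H : Fam L X) : ∃ θ : ℝ, 0 ≤ θ ∧ AdmOn L X univ θ := by
  obtain ⟨p, C, m, K, hp, hC, hm, hK, hld⟩ := H.ld
  refine ⟨p, hp.le, fun ε hε => ⟨Real.exp C, fun i T _ => ?_⟩⟩
  have hX1 := H.one i T
  have h1 := (hld i T).g (1 / 2 + (T : ℂ) * Complex.I) (by simp)
  have him : (1 / 2 + (T : ℂ) * Complex.I).im = T := by simp
  rw [him, sub_self, abs_zero, add_zero, Real.log_one, mul_zero, add_zero] at h1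
  have h3 : ∀ w : ℝ, 0 ≤ w → w ≤ Real.exp (log⁺ w) := by
    intro w hw
    rcases eq_or_lt_of_le hw with h | h
    · rw [← h]; positivity
    · calc w = Real.exp (Real.log w) := (Real.exp_log h).symm
        _ ≤ _ := Real.exp_le_exp.2 (le_max_right _ _)
  refine (h3 _ (norm_nonneg _)).trans ?_
  rw [Real.rpow_def_of_pos (by linarith), ← Real.exp_add]
  apply Real.exp_le_exp.2
  have : 0 ≤ Real.log (X i T) * ε := mul_nonneg (Real.log_nonneg hX1) hε.le
  linarith

/-- all windows `[T - r, T + r]` with `X` large contain at least `4 r p log X` points of `S` (at the index `i`)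
with normalised logarithmic energy at most `η log X` per point -/
def Rich (X : ι → ℝ → ℝ) (S : Set (ι × ℝ)) (p r η : ℝ) : Prop := ∃ X₀ : ℝ, ∀ (i : ι) (T : ℝ),
  X₀ ≤ X i T → ∃ s : Finset ℝ,
  (∀ x ∈ s, (i, x) ∈ S ∧ |x - T| ≤ r) ∧ 4 * r * (p * Real.log (X i T)) ≤ s.card ∧
  ∑ x ∈ s, ∑ y ∈ s.erase x, Real.log (2 * r / |x - y|) ≤ η * s.card * (p * Real.log (X i T))

/-- **The step.** -/
theorem step (H : Fam L X) {p C m K : ℝ} (hp : 0 < p) (hC : 0 ≤ C) (hm : 0 ≤ m) (hK : 0 ≤ K)
    (hld : ∀ i T, LD (L i) T (p * Real.log (X i T)) C m K) {S : Set (ι × ℝ)} {r η κ θ : ℝ}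
    (hr : 0 < r) (hr8 : r ≤ 1 / 8) (hη : 0 < η) (hS : Rich X S p r η) (hκ : 0 ≤ κ)
    (hon : AdmOn L X S κ) (hθ0 : 0 ≤ θ) (hθ : AdmOn L X univ θ) :
    AdmOn L X univ (max (θ - 0.1 * r * p) (κ + 2 * η * p)) := by
  intro ε hε
  have hrp : 0 < r * p := by positivity
  have hηp : 0 < η * p := by positivity
  obtain ⟨c, hc, hdisc⟩ := disc H hp hC hm hK hld hθ0 hθ hε
  obtain ⟨B, hB⟩ := hon ε hε
  obtain ⟨X₀, hX₀⟩ := hS
  obtain ⟨n, hn, hsh⟩ := H.shift
  obtain ⟨B₂, hB₂, hbdd⟩ := bdd H (max X₀ 2)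
  set B₃ : ℝ := |B| * 2 ^ (n * (κ + ε)) with hB₃
  refine ⟨c + B₃ + B₂, fun i T _ => ?_⟩
  have hX1 := H.one i T
  have hXp : 0 < X i T := by linarith
  set ρ : ℝ := max (θ - 0.1 * r * p) (κ + 2 * η * p) + ε with hρ
  have hρ0 : 0 ≤ ρ := by
    have := le_max_right (θ - 0.1 * r * p) (κ + 2 * η * p)
    rw [hρ]; nlinarith
  have hXρ : 1 ≤ X i T ^ ρ := Real.one_le_rpow hX1 hρ0
  rcases le_or_gt (X i T) (max X₀ 2) with hX | hX
  · calc ‖L i (1 / 2 + (T : ℂ) * Complex.I)‖ ≤ B₂ * 1 := by rw [mul_one]; exact hbdd i T hX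
      _ ≤ (c + B₃ + B₂) * X i T ^ ρ := by
          gcongr
          have : 0 ≤ B₃ := by positivity
          linarith
  · have hX0 : X₀ ≤ X i T := (le_max_left _ _).trans hX.le
    have hX2 : 2 < X i T := (le_max_right _ _).trans_lt hX
    set Λ : ℝ := Real.log (X i T) with hΛ
    have hΛ0 : 0 < Λ := Real.log_pos (by linarith)
    obtain ⟨s, hs1, hs2, hs3⟩ := hX₀ i T hX0
    have hne : s.Nonempty := by
      rw [← Finset.card_pos]
      have : (0:ℝ) < s.card := lt_of_lt_of_le (by positivity) hs2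
      exact_mod_cast this
    -- the values on `s`
    have hval : ∀ x ∈ s, ‖L i (1 / 2 + (x : ℂ) * Complex.I)‖ ≤ B₃ * X i T ^ (κ + ε) := by
      intro x hx
      obtain ⟨h1, h2⟩ := hs1 x hx
      have h3 := hsh i T (x - T)
      rw [add_sub_cancel] at h3
      have h4 : X i x ≤ 2 ^ n * X i T := by
        refine h3.trans ?_
        gcongr
        linarith
      calc ‖L i (1 / 2 + (x : ℂ) * Complex.I)‖ ≤ B * X i x ^ (κ + ε) := hB i x h1
        _ ≤ |B| * (2 ^ n * X i T) ^ (κ + ε) := by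
            gcongr
            · exact Real.rpow_nonneg (by linarith [H.one i x]) _
            · exact le_abs_self B
            · linarith [H.one i x]
        _ = _ := by
            rw [Real.mul_rpow (by positivity) hXp.le, ← Real.rpow_mul (by norm_num), hB₃]
            ring
    have ha0 : 0 ≤ B₃ * X i T ^ (κ + ε) := by positivity
    have hmain : ‖L i (1 / 2 + (T : ℂ) * Complex.I)‖ ≤
        c * Real.exp ((θ + ε) * Λ + 4 * r / 2 * (p * Λ)) * Real.exp (-(2.18 * r * (p * Λ))) +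
        B₃ * X i T ^ (κ + ε) * Real.exp (2 * η * (p * Λ)) := by
      by_cases hTs : T ∈ s
      · have h1 := hval T hTs
        have h3 : 1 ≤ Real.exp (2 * η * (p * Λ)) := Real.one_le_exp (by positivity)
        have h5 : 0 ≤ c * Real.exp ((θ + ε) * Λ + 4 * r / 2 * (p * Λ)) *
          Real.exp (-(2.18 * r * (p * Λ))) := by positivity
        nlinarith
      · rw [← f_zero (L i) T (p * Λ)]
        refine window (f_diff (hld i T).hd T (p * Λ)) hr hη (by positivity) ?_ ha0
          (fun x hx => (hs1 x hx).2) hTs ?_ hs2 hs3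
        · intro z hz
          exact hdisc i T (4 * r) (by positivity) (by linarith) z hz.le
        · intro x hx
          rw [f_line, add_sub_cancel]
          exact hval x hx
    rw [mul_assoc c, ← Real.exp_add] at hmain
    have e0 : ∀ y : ℝ, X i T ^ y = Real.exp (y * Λ) := by
      intro y
      rw [Real.rpow_def_of_pos hXp]; congr 1; ring
    have e1 : Real.exp ((θ + ε) * Λ + 4 * r / 2 * (p * Λ) + -(2.18 * r * (p * Λ))) ≤ X i T ^ ρ := by
      rw [e0]
      apply Real.exp_le_exp.2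
      have h1 := le_max_left (θ - 0.1 * r * p) (κ + 2 * η * p)
      have h2 : (θ + ε) + 4 * r / 2 * p - 2.18 * r * p ≤ ρ := by rw [hρ]; nlinarith
      nlinarith
    have e2 : X i T ^ (κ + ε) * Real.exp (2 * η * (p * Λ)) ≤ X i T ^ ρ := by
      rw [e0, e0, ← Real.exp_add]
      apply Real.exp_le_exp.2
      have h1 := le_max_right (θ - 0.1 * r * p) (κ + 2 * η * p)
      have h2 : (κ + ε) + 2 * η * p ≤ ρ := by rw [hρ]; linarith
      nlinarith
    calc ‖L i (1 / 2 + (T : ℂ) * Complex.I)‖ ≤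
          c * Real.exp ((θ + ε) * Λ + 4 * r / 2 * (p * Λ) + -(2.18 * r * (p * Λ))) +
            B₃ * (X i T ^ (κ + ε) * Real.exp (2 * η * (p * Λ))) := by
          refine hmain.trans (le_of_eq ?_); ring
      _ ≤ c * X i T ^ ρ + B₃ * X i T ^ ρ := by gcongr
      _ ≤ _ := by nlinarith

/-- **The local criterion for families.** -/
theorem local_criterion (H : Fam L X) {p C m K : ℝ} (hp : 0 < p) (hC : 0 ≤ C) (hm : 0 ≤ m)
    (hK : 0 ≤ K) (hld : ∀ i T, LD (L i) T (p * Real.log (X i T)) C m K) {S : Set (ι × ℝ)}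
    {r η κ : ℝ} (hr : 0 < r) (hr8 : r ≤ 1 / 8) (hη : 0 < η) (hS : Rich X S p r η) (hκ : 0 ≤ κ)
    (hon : AdmOn L X S κ) : AdmOn L X univ (κ + 2 * η * p) := by
  obtain ⟨θ₀, hθ₀, hA₀⟩ := base H
  have hrp : 0 < r * p := by positivity
  have hηp : 0 < 2 * η * p := by positivity
  have h : ∀ n : ℕ, AdmOn L X univ (max (θ₀ - n * (0.1 * r * p)) (κ + 2 * η * p)) := by
    intro n
    induction n with
    | zero =>
      intro ε hε
      obtain ⟨B, hB⟩ := hA₀ ε hε
      refine ⟨|B|, fun i T h => (hB i T h).trans ?_⟩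
      have hX1 := H.one i T
      calc B * X i T ^ (θ₀ + ε) ≤ |B| * X i T ^ (θ₀ + ε) := by
            have := le_abs_self B
            have : 0 ≤ X i T ^ (θ₀ + ε) := by positivity
            gcongr
        _ ≤ _ := by
            gcongr
            simp
    | succ n ih =>
      have h1 := step H hp hC hm hK hld hr hr8 hη hS hκ hon (by
        have := le_max_right (θ₀ - n * (0.1 * r * p)) (κ + 2 * η * p)
        linarith) ih
      have e : max (max (θ₀ - n * (0.1 * r * p)) (κ + 2 * η * p) - 0.1 * r * p) (κ + 2 * η * p) =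
          max (θ₀ - ((n + 1 : ℕ) : ℝ) * (0.1 * r * p)) (κ + 2 * η * p) := by
        push_cast
        rcases le_total (θ₀ - n * (0.1 * r * p)) (κ + 2 * η * p) with h2 | h2
        · rw [max_eq_right h2, max_eq_right (by linarith), max_eq_right (by linarith)]
        · rw [max_eq_left h2]
          congr 1
          ring
      rwa [e] at h1
  obtain ⟨n, hn⟩ := exists_nat_gt (θ₀ / (0.1 * r * p))
  have h1 := h n
  have h2 : θ₀ ≤ n * (0.1 * r * p) := by
    rw [div_lt_iff₀ (by positivity)] at hn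
    exact hn.le
  rwa [max_eq_right (by linarith)] at h1

end Pool.Agent.X114.FM
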