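import Pool.Agent.X114.FM1

/-! Families: the local bound on discs and the pointwise inequality. -/

set_option autoImplicit false

open MeasureTheory Filter Topology Set Real

namespace Pool.Agent.X114.FM

open Pool.Agent.H983R4.LH Pool.Agent.H983R4.GL Pool.Agent.H983R4.GL.Z
open Pool.Agent.X114.TS (window)

lemma ld_mono {F : ℂ → ℂ} {T ℓ ℓ' C m K : ℝ} (H : LD F T ℓ C m K) (h : ℓ ≤ ℓ') :
    LD F T ℓ' C m K where
  hd := H.hd
  hℓ := H.hℓ.trans h
  hC := H.hC
  hm := H.hm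
  hK := H.hK
  g := fun s hs => (H.g s hs).trans (by linarith)
  r := fun σ t h0 h1 h2 => (H.r σ t h0 h1 h2).trans (by
    have := mul_le_mul_of_nonneg_left (show ℓ + m * Real.log 2 ≤ ℓ' + m * Real.log 2 by linarith) h0
    linarith)

lemma ne_exp_posLog (w : ℝ) (hw : 0 ≤ w) : w ≤ Real.exp (log⁺ w) := by
  rcases eq_or_lt_of_le hw with h | h
  · rw [← h]; positivity
  · calc w = Real.exp (Real.log w) := (Real.exp_log h).symm
      _ ≤ _ := Real.exp_le_exp.2 (le_max_right _ _)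

/-- the constant -/
noncomputable def c₀ (C m K ω : ℝ) : ℝ :=
  K + (C + (m + 1 / ω) * Real.log 2 + (m + 1 / ω) * C0 / (2 * π)) + m * Real.log 2

/-- the bound on discs by the maximum on the critical line nearby -/
lemma disc_loc {F : ℂ → ℂ} {T ℓ C m K : ℝ} (H : LD F T ℓ C m K) {ω W M : ℝ} (hω : 0 < ω)
    (hW0 : 0 ≤ W) (hW : ω * ℓ ≤ Real.log (1 + W)) (hM : 1 ≤ M)
    (hMb : ∀ u : ℝ, |u - T| ≤ W → ‖F (1 / 2 + (u : ℂ) * Complex.I)‖ ≤ M) {x y : ℝ}
    (hx : |x| ≤ 1 / 2) (hy : |y| ≤ 1 / 2) :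
    log⁺ ‖F (1 / 2 + x + ((T + y : ℝ) : ℂ) * Complex.I)‖ ≤
      c₀ C m K ω + Real.log M + max 0 (-x) * ℓ := by
  have hpi := Real.pi_pos
  have hl2 := Real.log_pos (show (1:ℝ) < 2 by norm_num)
  have hC0 : 0 ≤ C0 := C0_nonneg
  have hlM : 0 ≤ Real.log M := Real.log_nonneg hM
  have hC := H.hC
  have hm := H.hm
  have hK := H.hK
  have hℓ := H.hℓ
  set m' : ℝ := m + 1 / ω with hm'
  have hm'0 : 0 ≤ m' := by positivity
  set A : ℝ := C + Real.log M with hA
  have hLZ : LZ F T ℓ m K := ⟨H.hd, H.hℓ, hm, hK, ⟨_, _, hm, H.growth⟩, H.r⟩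
  have hline : ∀ x : ℝ, log⁺ ‖F (1 / 2 + (x : ℂ) * Complex.I)‖ ≤
      A + m' * Real.log (1 + |x - T|) := by
    intro x
    have h0 : 0 ≤ Real.log (1 + |x - T|) := Real.log_nonneg (by linarith [abs_nonneg (x - T)])
    rcases le_or_gt |x - T| W with hc | hc
    · have h5 := posLog_le_posLog (norm_nonneg _) (hMb x hc)
      rw [posLog_eq_log (x := M) (by rw [abs_of_nonneg (by linarith)]; exact hM)] at h5
      have : 0 ≤ m' * Real.log (1 + |x - T|) := by positivity
      rw [hA]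
      linarith
    · have h1 := H.g (1 / 2 + (x : ℂ) * Complex.I) (by simp)
      have him : (1 / 2 + (x : ℂ) * Complex.I).im = x := by simp
      rw [him] at h1
      have h2 : ℓ ≤ 1 / ω * Real.log (1 + |x - T|) := by
        have h3 : Real.log (1 + W) ≤ Real.log (1 + |x - T|) :=
          Real.log_le_log (by linarith) (by linarith)
        calc ℓ = 1 / ω * (ω * ℓ) := by field_simp
          _ ≤ _ := by gcongr; linarith
      rw [hA, hm']
      linarith
  have hx' := abs_le.1 hx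
  have hq : 0 ≤ m' * C0 / (2 * π) := by positivity
  -- on the right of the line
  have hright : ∀ a : ℝ, 0 ≤ a → a ≤ 1 / 2 →
      log⁺ ‖F (1 / 2 + a + ((T + y : ℝ) : ℂ) * Complex.I)‖ ≤
        A + m' * Real.log 2 + m' * C0 / (2 * π) := by
    intro a ha0 ha1
    rcases eq_or_lt_of_le ha0 with h | h
    · rw [← h]
      have h1 := hline (T + y)
      have h2 : Real.log (1 + |T + y - T|) ≤ Real.log 2 := by
        apply Real.log_le_log (by positivity)
        rw [add_sub_cancel_left]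
        linarith
      have h3 := mul_le_mul_of_nonneg_left h2 hm'0
      rw [Complex.ofReal_zero, add_zero]
      linarith
    · have h1 := inner2 hLZ (A := A) (m' := m') (κ := A) (h := 1 / 2) (a := a) (t := T + y) (E := ∅)
        hm'0 hline MeasurableSet.empty (fun x hx => absurd hx (notMem_empty x))
        (fun x hx => absurd hx (notMem_empty x)) le_rfl (by norm_num) h ha1
        (by rw [add_sub_cancel_left]; exact hy)
      rw [measure_empty, ENNReal.toReal_zero, mul_zero, zero_div, sub_zero] at h1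
      exact h1
  rcases le_total 0 x with h | h
  · have h1 := hright x h hx'.2
    rw [max_eq_left (by linarith), zero_mul, add_zero]
    unfold c₀
    have : 0 ≤ m * Real.log 2 := by positivity
    linarith
  · have h1 := hright (-x) (by linarith) (by linarith)
    have h2 := hLZ.r (-x) (T + y) (by linarith) (by linarith) (by
      rw [add_sub_cancel_left]; linarith)
    have e : (1 / 2 - ((-x : ℝ) : ℂ) + ((T + y : ℝ) : ℂ) * Complex.I) =
        1 / 2 + x + ((T + y : ℝ) : ℂ) * Complex.I := by push_cast; ring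
    rw [e] at h2
    rw [max_eq_right (by linarith)]
    have h3 : -x * (ℓ + m * Real.log 2) ≤ -x * ℓ + m * Real.log 2 := by
      have h4 : -x * (m * Real.log 2) ≤ 1 * (m * Real.log 2) :=
        mul_le_mul_of_nonneg_right (by linarith) (by positivity)
      linarith
    unfold c₀
    linarith

/-- the local bound on discs -/
lemma disc_bound {F : ℂ → ℂ} {T ℓ C m K : ℝ} (H : LD F T ℓ C m K) {ω W M : ℝ} (hω : 0 < ω)
    (hW0 : 0 ≤ W) (hW : ω * ℓ ≤ Real.log (1 + W)) (hM : 1 ≤ M)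
    (hMb : ∀ u : ℝ, |u - T| ≤ W → ‖F (1 / 2 + (u : ℂ) * Complex.I)‖ ≤ M) {R : ℝ} (hR : 0 < R)
    (hR2 : R ≤ 1 / 2) {z : ℂ} (hz : ‖z‖ ≤ R) :
    ‖f F T ℓ z‖ ≤ Real.exp (c₀ C m K ω) * M * Real.exp (R / 2 * ℓ) := by
  have hℓ0 := H.hℓ
  have hx : |z.re| ≤ R := (Complex.abs_re_le_norm z).trans hz
  have hy : |z.im| ≤ R := (Complex.abs_im_le_norm z).trans hz
  have h1 := disc_loc H hω hW0 hW hM hMb (x := z.re) (y := z.im) (by linarith) (by linarith)
  have e : (1 / 2 + T * Complex.I + z : ℂ) = 1 / 2 + z.re + ((T + z.im : ℝ) : ℂ) * Complex.I := by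
    apply Complex.ext <;> simp
  have eM : Real.exp (c₀ C m K ω) * M = Real.exp (c₀ C m K ω + Real.log M) := by
    rw [Real.exp_add, Real.exp_log (by linarith)]
  rw [f_norm, e, eM, ← Real.exp_add]
  refine (mul_le_mul_of_nonneg_right ((ne_exp_posLog _ (norm_nonneg _)).trans
    (Real.exp_le_exp.2 h1)) (Real.exp_pos _).le).trans ?_
  rw [← Real.exp_add]
  apply Real.exp_le_exp.2
  have h4 : max 0 (-z.re) * ℓ + ℓ / 2 * z.re ≤ R / 2 * ℓ := by
    have hx' := abs_le.1 hx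
    rcases le_total 0 z.re with h | h
    · rw [max_eq_left (by linarith)]; nlinarith
    · rw [max_eq_right (by linarith)]; nlinarith
  linarith

/-- **The pointwise inequality.** -/
theorem pointwise {F : ℂ → ℂ} {T ℓ C m K : ℝ} (H : LD F T ℓ C m K) (hℓ : 0 < ℓ) {ω W M : ℝ}
    (hω : 0 < ω) (hW0 : 0 ≤ W) (hW : ω * ℓ ≤ Real.log (1 + W)) (hM : 1 ≤ M)
    (hMb : ∀ u : ℝ, |u - T| ≤ W → ‖F (1 / 2 + (u : ℂ) * Complex.I)‖ ≤ M) {r η : ℝ} (hr : 0 < r)
    (hr8 : r ≤ 1 / 8) (hη : 0 < η) {s : Finset ℝ} {a : ℝ} (hs : ∀ x ∈ s, |x - T| ≤ r)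
    (hcard : 4 * r * ℓ ≤ s.card)
    (hE : ∑ x ∈ s, ∑ y ∈ s.erase x, Real.log (2 * r / |x - y|) ≤ η * s.card * ℓ)
    (ha : ∀ x ∈ s, ‖F (1 / 2 + (x : ℂ) * Complex.I)‖ ≤ a) :
    ‖F (1 / 2 + (T : ℂ) * Complex.I)‖ ≤
      Real.exp (c₀ C m K ω) * M * Real.exp (-(0.18 * r * ℓ)) + a * Real.exp (2 * η * ℓ) := by
  have hne : s.Nonempty := by
    rw [← Finset.card_pos]
    have : (0:ℝ) < s.card := lt_of_lt_of_le (by positivity) hcard
    exact_mod_cast this
  obtain ⟨x₀, hx₀⟩ := hne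
  have ha0 : 0 ≤ a := (norm_nonneg _).trans (ha x₀ hx₀)
  by_cases hTs : T ∈ s
  · have h1 := ha T hTs
    have h3 : 1 ≤ Real.exp (2 * η * ℓ) := Real.one_le_exp (by positivity)
    have h5 : 0 ≤ Real.exp (c₀ C m K ω) * M * Real.exp (-(0.18 * r * ℓ)) := by positivity
    nlinarith
  · rw [← f_zero F T ℓ]
    refine (window (f_diff H.hd T ℓ) hr hη hℓ (M := Real.exp (c₀ C m K ω) * M * Real.exp (2 * r * ℓ))
      (a := a) ?_ ha0 hs hTs ?_ hcard hE).trans ?_
    · intro z hz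
      have h1 := disc_bound H hω hW0 hW hM hMb (R := 4 * r) (by positivity) (by linarith) hz.le
      rwa [show 4 * r / 2 = 2 * r by ring] at h1
    · intro x hx
      rw [f_line, add_sub_cancel]
      exact ha x hx
    · rw [mul_assoc (Real.exp (c₀ C m K ω) * M), ← Real.exp_add]
      gcongr
      nlinarith

end Pool.Agent.X114.FM
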