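import Pool.Agent.X114.TM1

/-! Moments: the improvement step. -/

set_option autoImplicit false

open Filter Topology Set Real

namespace Pool.Agent.X114.TM

/-- `|ζ(1/2 + it)|` -/
noncomputable def Z (t : ℝ) : ℝ := ‖riemannZeta (1 / 2 + t * Complex.I)‖

lemma Z_nonneg (t : ℝ) : 0 ≤ Z t := norm_nonneg _

lemma Z_cont : Continuous Z := by
  rw [continuous_iff_continuousAt]
  intro t
  unfold Z
  have h : (1 / 2 + (t : ℂ) * Complex.I) ≠ 1 := by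
    intro h
    have := congrArg Complex.re h
    norm_num at this
  have h1 := (differentiableAt_riemannZeta h).continuousAt
  have h2 : ContinuousAt (fun t : ℝ => (1 / 2 + (t : ℂ) * Complex.I)) t := by fun_prop
  exact (ContinuousAt.comp (f := fun t : ℝ => (1 / 2 + (t : ℂ) * Complex.I)) (g := riemannZeta)
    h1 h2).norm

/-- `u m` is a maximum point of `Z` in `[m - 1, m + 1]` -/
def IsMax (u : ℕ → ℝ) : Prop := ∀ m : ℕ, |u m - m| ≤ 1 ∧ ∀ x : ℝ, |x - m| ≤ 1 → Z x ≤ Z (u m)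

lemma exists_isMax : ∃ u : ℕ → ℝ, IsMax u := by
  have h : ∀ m : ℕ, ∃ x : ℝ, |x - m| ≤ 1 ∧ ∀ y : ℝ, |y - m| ≤ 1 → Z y ≤ Z x := by
    intro m
    obtain ⟨x, hx, hx2⟩ := (isCompact_Icc (a := (m:ℝ) - 1) (b := m + 1)).exists_isMaxOn
      ⟨m, by constructor <;> linarith⟩ Z_cont.continuousOn
    refine ⟨x, ?_, fun y hy => hx2 ?_⟩
    · rw [abs_le]; constructor <;> linarith [hx.1, hx.2]
    · have := abs_le.1 hy
      constructor <;> linarith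
  choose u hu using h
  exact ⟨u, hu⟩

/-- the moments, with local maxima -/
def P (u : ℕ → ℝ) (q σ : ℝ) : Prop := ∀ ε : ℝ, 0 < ε → ∃ C : ℝ, ∀ N : ℕ, 1 ≤ N →
  ∑ m ∈ Finset.Ico N (2 * N), Z (u m) ^ q ≤ C * (N : ℝ) ^ (σ + ε)

/-- configurations with bounded moments -/
def Samp (u : ℕ → ℝ) (q κ r η : ℝ) : Prop := ∃ m₀ : ℕ, ∃ s : ℕ → Finset ℝ,
  (∀ m : ℕ, m₀ ≤ m → (∀ x ∈ s m, |x - u m| ≤ r) ∧ 4 * r * Real.log (u m) ≤ (s m).card ∧
    ∑ x ∈ s m, ∑ y ∈ (s m).erase x, Real.log (2 * r / |x - y|) ≤ η * (s m).card * Real.log (u m)) ∧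
  ∀ ε : ℝ, 0 < ε → ∃ C : ℝ, ∀ N : ℕ, 1 ≤ N →
    ∑ m ∈ Finset.Ico N (2 * N), ∑ x ∈ s m, Z x ^ q ≤ C * (N : ℝ) ^ (κ + ε)

lemma fin_fix {g : ℕ → ℝ} {ρ : ℝ} (hρ : 0 ≤ ρ) (h : ∃ C : ℝ, ∃ N₁ : ℕ, ∀ N : ℕ, N₁ ≤ N → 1 ≤ N →
    g N ≤ C * (N : ℝ) ^ ρ) : ∃ C : ℝ, ∀ N : ℕ, 1 ≤ N → g N ≤ C * (N : ℝ) ^ ρ := by
  obtain ⟨C, N₁, h⟩ := h
  refine ⟨|C| + ∑ i ∈ Finset.range N₁, |g i|, fun N hN => ?_⟩
  have h1 : (1:ℝ) ≤ (N : ℝ) ^ ρ := Real.one_le_rpow (by exact_mod_cast hN) hρ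
  have h2 : 0 ≤ ∑ i ∈ Finset.range N₁, |g i| := Finset.sum_nonneg fun i _ => abs_nonneg _
  rcases le_or_gt N₁ N with h3 | h3
  · calc g N ≤ C * (N : ℝ) ^ ρ := h N h3 hN
      _ ≤ |C| * (N : ℝ) ^ ρ := by gcongr; exact le_abs_self C
      _ ≤ _ := by gcongr; linarith
  · have h4 : |g N| ≤ ∑ i ∈ Finset.range N₁, |g i| :=
      Finset.single_le_sum (f := fun i => |g i|) (fun i _ => abs_nonneg _) (Finset.mem_range.2 h3)
    calc g N ≤ |g N| := le_abs_self _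
      _ ≤ (|C| + ∑ i ∈ Finset.range N₁, |g i|) * 1 := by linarith [abs_nonneg C]
      _ ≤ _ := by gcongr

lemma add_rpow_le {a b q : ℝ} (ha : 0 ≤ a) (hb : 0 ≤ b) (hq : 0 < q) :
    (a + b) ^ q ≤ 2 ^ q * (a ^ q + b ^ q) := by
  have h1 : a + b ≤ 2 * max a b := by
    have := le_max_left a b
    have := le_max_right a b
    linarith
  have hm : 0 ≤ max a b := le_max_of_le_left ha
  calc (a + b) ^ q ≤ (2 * max a b) ^ q := Real.rpow_le_rpow (by positivity) h1 hq.le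
    _ = 2 ^ q * (max a b) ^ q := Real.mul_rpow (by norm_num) hm
    _ ≤ 2 ^ q * (a ^ q + b ^ q) := by
        gcongr
        have h2 : 0 ≤ a ^ q := Real.rpow_nonneg ha q
        have h3 : 0 ≤ b ^ q := Real.rpow_nonneg hb q
        rcases max_choice a b with h | h <;> rw [h] <;> linarith

/-- sums over windows -/
lemma window_sum {g : ℕ → ℝ} (hg : ∀ m, 0 ≤ g m) {N w : ℕ} (hw : 2 * w + 2 ≤ N) :
    ∑ m ∈ Finset.Ico N (2 * N), ∑ i ∈ Finset.range (2 * w + 1), g (m - w + i) ≤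
      (2 * w + 1) * (∑ m ∈ Finset.Ico ((N + 1) / 2) (2 * ((N + 1) / 2)), g m +
        (∑ m ∈ Finset.Ico N (2 * N), g m + ∑ m ∈ Finset.Ico (2 * N) (2 * (2 * N)), g m)) := by
  classical
  rw [Finset.sum_comm]
  have h1 : ∀ i ∈ Finset.range (2 * w + 1), ∑ m ∈ Finset.Ico N (2 * N), g (m - w + i) ≤
      (∑ m ∈ Finset.Ico ((N + 1) / 2) (2 * ((N + 1) / 2)), g m +
        (∑ m ∈ Finset.Ico N (2 * N), g m + ∑ m ∈ Finset.Ico (2 * N) (2 * (2 * N)), g m)) := by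
    intro i hi
    rw [Finset.mem_range] at hi
    have hinj : Set.InjOn (fun m => m - w + i) (Finset.Ico N (2 * N) : Finset ℕ) := by
      intro a ha b hb hab
      rw [Finset.mem_coe, Finset.mem_Ico] at ha hb
      simp only at hab
      omega
    rw [← Finset.sum_image (f := g) (g := fun m => m - w + i) hinj]
    have hsub : (Finset.Ico N (2 * N)).image (fun m => m - w + i) ⊆
        Finset.Ico ((N + 1) / 2) (2 * ((N + 1) / 2)) ∪ (Finset.Ico N (2 * N) ∪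
          Finset.Ico (2 * N) (2 * (2 * N))) := by
      intro x hx
      obtain ⟨m, hm, rfl⟩ := Finset.mem_image.1 hx
      rw [Finset.mem_Ico] at hm
      simp only [Finset.mem_union, Finset.mem_Ico]
      omega
    refine (Finset.sum_le_sum_of_subset_of_nonneg hsub fun x _ _ => hg x).trans ?_
    have hu : ∀ A B : Finset ℕ, ∑ x ∈ A ∪ B, g x ≤ ∑ x ∈ A, g x + ∑ x ∈ B, g x := by
      intro A B
      rw [← Finset.sum_union_inter]
      have := Finset.sum_nonneg (s := A ∩ B) fun x _ => hg x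
      linarith
    exact (hu _ _).trans (add_le_add_right (hu _ _) _)
  refine (Finset.sum_le_sum h1).trans ?_
  rw [Finset.sum_const, Finset.card_range, nsmul_eq_mul]
  push_cast
  exact le_rfl

/-- **The step.** -/
theorem step {u : ℕ → ℝ} (hu : IsMax u) {q κ r η σ : ℝ} (hq : 0 < q) (hκ : 1 ≤ κ) (hr : 0 < r)
    (hr8 : r ≤ 1 / 8) (hη : 0 < η) (hσ : 0 ≤ σ) (hS : Samp u q κ r η) (hP : P u q σ) :
    P u q (max (σ - 0.1 * r * q) (κ + 2 * η * q)) := by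
  intro ε hε
  set ρ : ℝ := max (σ - 0.1 * r * q) (κ + 2 * η * q) + ε with hρ
  have hρ1 : 1 ≤ ρ := by
    have := le_max_right (σ - 0.1 * r * q) (κ + 2 * η * q)
    have : 0 ≤ 2 * η * q := by positivity
    rw [hρ]; linarith
  obtain ⟨m₀, s, hs, hsum⟩ := hS
  set ω : ℝ := min (0.04 * r * q) (1 / 2) with hω
  have hω0 : 0 < ω := lt_min (by positivity) (by norm_num)
  have hω1 : ω ≤ 0.04 * r * q := min_le_left _ _
  have hω2 : ω ≤ 1 / 2 := min_le_right _ _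
  obtain ⟨C₁, hC₁, hpw⟩ := pointwise hω0
  obtain ⟨C₂, hC₂⟩ := hP ε hε
  obtain ⟨C₃, hC₃⟩ := hsum ε hε
  have hrq : 0 < r * q := by positivity
  apply fin_fix (by linarith)
  -- the constants
  set A₁ : ℝ := 2 ^ q * (C₁ ^ q * 2 ^ (0.18 * r * q)) with hA₁
  set A₂ : ℝ := 2 ^ q * (2 ^ q * 3 ^ (2 * η * q)) with hA₂
  have hA1 : 0 ≤ A₁ := by positivity
  have hA2 : 0 ≤ A₂ := by positivity
  refine ⟨A₁ * (1 + 13 * (3 * (|C₂| * 2 ^ (σ + ε)))) + A₂ * |C₃|, m₀ + 64, fun N hN hN1 => ?_⟩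
  have hN64 : 64 ≤ N := by omega
  have hNr : (64:ℝ) ≤ N := by exact_mod_cast hN64
  have hN0 : (0:ℝ) < N := by linarith
  set w : ℕ := ⌈(3 * (N:ℝ)) ^ ω⌉₊ + 2 with hw
  have hwr : (w : ℝ) ≤ (3 * (N:ℝ)) ^ ω + 3 := by
    rw [hw]
    push_cast
    have := Nat.ceil_lt_add_one (show 0 ≤ (3 * (N:ℝ)) ^ ω by positivity)
    linarith
  have hpow : (3 * (N:ℝ)) ^ ω ≤ 3 * (N:ℝ) ^ ω := by
    rw [Real.mul_rpow (by norm_num) hN0.le]
    gcongr
    calc (3:ℝ) ^ ω ≤ 3 ^ (1:ℝ) := Real.rpow_le_rpow_of_exponent_le (by norm_num) (by linarith)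
      _ = 3 := Real.rpow_one 3
  have hNω : 1 ≤ (N:ℝ) ^ ω := Real.one_le_rpow (by linarith) hω0.le
  have hw2 : 2 * w + 2 ≤ N := by
    have h1 : (3 * (N:ℝ)) ^ ω ≤ Real.sqrt (3 * N) := by
      rw [Real.sqrt_eq_rpow]
      exact Real.rpow_le_rpow_of_exponent_le (by linarith) hω2
    have h2 : Real.sqrt (3 * N) ≤ N / 4 + 3 := by
      apply Real.sqrt_le_iff.2
      constructor
      · positivity
      · nlinarith [sq_nonneg ((N:ℝ) / 4 - 3)]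
    have h3 : (2 * w + 2 : ℝ) ≤ N := by
      nlinarith
    exact_mod_cast h3
  have hw13 : (2 * (w:ℝ) + 1) ≤ 13 * (N:ℝ) ^ ω := by linarith
  -- the local maxima
  set g : ℕ → ℝ := fun m => Z (u m) ^ q with hg
  have hg0 : ∀ m, 0 ≤ g m := fun m => Real.rpow_nonneg (Z_nonneg _) q
  have hkey : ∀ m ∈ Finset.Ico N (2 * N), g m ≤
      A₁ * (N:ℝ) ^ (-(0.18 * r * q)) * (1 + ∑ i ∈ Finset.range (2 * w + 1), g (m - w + i)) +
        A₂ * (N:ℝ) ^ (2 * η * q) * ∑ x ∈ s m, Z x ^ q := by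
    intro m hm
    rw [Finset.mem_Ico] at hm
    have hmr : (N:ℝ) ≤ m := by exact_mod_cast hm.1
    have hmr2 : (m:ℝ) + 1 ≤ 2 * N := by exact_mod_cast hm.2
    obtain ⟨hu1, hu2⟩ := hu m
    have hu1' := abs_le.1 hu1
    have hT1 : (N:ℝ) / 2 ≤ u m := by linarith
    have hT2 : u m ≤ 3 * N := by linarith
    have hT8 : 8 ≤ u m := by linarith
    have hT0 : 0 < u m := by linarith
    obtain ⟨hs1, hs2, hs3⟩ := hs m (by omega)
    set S₁ : ℝ := ∑ i ∈ Finset.range (2 * w + 1), g (m - w + i) with hS₁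
    have hS1 : 0 ≤ S₁ := Finset.sum_nonneg fun i _ => hg0 _
    set S₂ : ℝ := ∑ x ∈ s m, Z x ^ q with hS₂
    have hS2 : 0 ≤ S₂ := Finset.sum_nonneg fun x _ => Real.rpow_nonneg (Z_nonneg x) q
    set M : ℝ := (1 + S₁) ^ q⁻¹ with hM
    set a : ℝ := S₂ ^ q⁻¹ with ha
    have hM1 : 1 ≤ M := Real.one_le_rpow (by linarith) (by positivity)
    have ha0 : 0 ≤ a := Real.rpow_nonneg hS2 _
    have hMq : M ^ q = 1 + S₁ := Real.rpow_inv_rpow (by linarith) hq.ne'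
    have haq : a ^ q = S₂ := Real.rpow_inv_rpow hS2 hq.ne'
    have hroot : ∀ x y : ℝ, 0 ≤ x → x ^ q ≤ y → x ≤ y ^ q⁻¹ := by
      intro x y hx hxy
      have := Real.rpow_le_rpow (Real.rpow_nonneg hx q) hxy (inv_nonneg.2 hq.le)
      rwa [Real.rpow_rpow_inv hx hq.ne'] at this
    have hMb : ∀ x : ℝ, |x - u m| ≤ (u m) ^ ω → ‖riemannZeta (1 / 2 + (x : ℂ) * Complex.I)‖ ≤ M := by
      intro x hx
      have h1 : (u m) ^ ω ≤ (3 * (N:ℝ)) ^ ω := Real.rpow_le_rpow hT0.le hT2 hω0.le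
      have hx' := abs_le.1 (hx.trans h1)
      have h2 : (3 * (N:ℝ)) ^ ω ≤ w - 2 := by
        rw [hw]; push_cast
        have := Nat.le_ceil ((3 * (N:ℝ)) ^ ω)
        linarith
      have hwN : (2 * (w:ℝ) + 2) ≤ N := by exact_mod_cast hw2
      have hx0 : 0 ≤ x := by linarith
      set k : ℕ := ⌊x⌋₊ with hk
      have hk1 : (k:ℝ) ≤ x := Nat.floor_le hx0
      have hk2 : x < k + 1 := Nat.lt_floor_add_one x
      have h3 : Z x ≤ Z (u k) := (hu k).2 x (by rw [abs_le]; constructor <;> linarith)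
      have h4 : m - w ≤ k := by
        have : (m:ℝ) < k + w + 1 := by linarith
        have : m < k + w + 1 := by exact_mod_cast this
        omega
      have h5 : k ≤ m + w := by
        have : (k:ℝ) ≤ m + w := by linarith
        exact_mod_cast this
      obtain ⟨i, hi⟩ := Nat.exists_eq_add_of_le h4
      have hi2 : i ∈ Finset.range (2 * w + 1) := by
        rw [Finset.mem_range]; omega
      apply hroot _ _ (norm_nonneg _)
      calc ‖riemannZeta (1 / 2 + (x : ℂ) * Complex.I)‖ ^ q ≤ Z (u k) ^ q :=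
            Real.rpow_le_rpow (norm_nonneg _) h3 hq.le
        _ = g (m - w + i) := by rw [hi]
        _ ≤ S₁ := Finset.single_le_sum (f := fun i => g (m - w + i)) (fun i _ => hg0 _) hi2
        _ ≤ 1 + S₁ := by linarith
    have hab : ∀ x ∈ s m, ‖riemannZeta (1 / 2 + (x : ℂ) * Complex.I)‖ ≤ a := by
      intro x hx
      apply hroot _ _ (norm_nonneg _)
      exact Finset.single_le_sum (f := fun x => Z x ^ q)
        (fun x _ => Real.rpow_nonneg (Z_nonneg x) q) hx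
    have h1 := hpw r η hr hr8 hη (u m) hT8 M hM1 hMb (s m) a hs1 hs2 hs3 hab
    have h2 : g m ≤ (C₁ * M * (u m) ^ (-(0.18 * r)) + 2 * a * (u m) ^ (2 * η)) ^ q :=
      Real.rpow_le_rpow (Z_nonneg _) h1 hq.le
    refine h2.trans ((add_rpow_le (by positivity) (by positivity) hq).trans ?_)
    rw [Real.mul_rpow (by positivity) (by positivity), Real.mul_rpow hC₁.le (by linarith), hMq,
      Real.mul_rpow (by positivity) (by positivity), Real.mul_rpow (by norm_num) ha0, haq,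
      ← Real.rpow_mul hT0.le, ← Real.rpow_mul hT0.le]
    have e1 : (u m) ^ (-(0.18 * r) * q) ≤ 2 ^ (0.18 * r * q) * (N:ℝ) ^ (-(0.18 * r * q)) := by
      calc (u m) ^ (-(0.18 * r) * q) ≤ ((N:ℝ) / 2) ^ (-(0.18 * r) * q) :=
            Real.rpow_le_rpow_of_nonpos (by positivity) hT1 (by nlinarith)
        _ = _ := by
            rw [Real.div_rpow hN0.le (by norm_num), div_eq_mul_inv, ← Real.rpow_neg (by norm_num),
              mul_comm]
            congr 2 <;> ring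
    have e2 : (u m) ^ (2 * η * q) ≤ 3 ^ (2 * η * q) * (N:ℝ) ^ (2 * η * q) := by
      rw [← Real.mul_rpow (by norm_num) hN0.le]
      exact Real.rpow_le_rpow hT0.le hT2 (by positivity)
    calc 2 ^ q * (C₁ ^ q * (1 + S₁) * (u m) ^ (-(0.18 * r) * q) +
          2 ^ q * S₂ * (u m) ^ (2 * η * q)) ≤
        2 ^ q * (C₁ ^ q * (1 + S₁) * (2 ^ (0.18 * r * q) * (N:ℝ) ^ (-(0.18 * r * q))) +
          2 ^ q * S₂ * (3 ^ (2 * η * q) * (N:ℝ) ^ (2 * η * q))) := by gcongr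
      _ = _ := by rw [hA₁, hA₂]; ring
  refine (Finset.sum_le_sum hkey).trans ?_
  rw [Finset.sum_add_distrib, ← Finset.mul_sum, ← Finset.mul_sum, Finset.sum_add_distrib]
  have hcard : ∑ _m ∈ Finset.Ico N (2 * N), (1:ℝ) = N := by
    rw [Finset.sum_const, Nat.card_Ico, nsmul_eq_mul, mul_one]
    have : 2 * N - N = N := by omega
    rw [this]
  rw [hcard]
  have hwin := window_sum hg0 hw2
  -- the three blocks
  have hb : ∀ K : ℕ, 1 ≤ K → K ≤ 2 * N → ∑ m ∈ Finset.Ico K (2 * K), g m ≤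
      |C₂| * 2 ^ (σ + ε) * (N:ℝ) ^ (σ + ε) := by
    intro K hK hK2
    have hKr : (K:ℝ) ≤ 2 * N := by exact_mod_cast hK2
    calc ∑ m ∈ Finset.Ico K (2 * K), g m ≤ C₂ * (K:ℝ) ^ (σ + ε) := hC₂ K hK
      _ ≤ |C₂| * (2 * N) ^ (σ + ε) := by
          gcongr
          · exact le_abs_self C₂
      _ = _ := by rw [Real.mul_rpow (by norm_num) hN0.le]; ring
  have h3 := hb ((N + 1) / 2) (by omega) (by omega)
  have h4 := hb N hN1 (by omega)
  have h5 := hb (2 * N) (by omega) le_rfl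
  have hblock : ∑ m ∈ Finset.Ico N (2 * N), ∑ i ∈ Finset.range (2 * w + 1), g (m - w + i) ≤
      13 * (N:ℝ) ^ ω * (3 * (|C₂| * 2 ^ (σ + ε) * (N:ℝ) ^ (σ + ε))) := by
    refine hwin.trans ?_
    apply mul_le_mul hw13 (by linarith) _ (by positivity)
    have := Finset.sum_nonneg (s := Finset.Ico ((N + 1) / 2) (2 * ((N + 1) / 2))) fun x _ => hg0 x
    have := Finset.sum_nonneg (s := Finset.Ico N (2 * N)) fun x _ => hg0 x
    have := Finset.sum_nonneg (s := Finset.Ico (2 * N) (2 * (2 * N))) fun x _ => hg0 x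
    positivity
  have hN1r : (1:ℝ) ≤ N := by linarith
  -- exponents
  have x1 : (N:ℝ) ^ (-(0.18 * r * q)) * N ≤ (N:ℝ) ^ ρ := by
    calc (N:ℝ) ^ (-(0.18 * r * q)) * N ≤ 1 * N := by
          gcongr
          exact Real.rpow_le_one_of_one_le_of_nonpos hN1r (by nlinarith)
      _ = (N:ℝ) ^ (1:ℝ) := by rw [one_mul, Real.rpow_one]
      _ ≤ _ := Real.rpow_le_rpow_of_exponent_le hN1r hρ1
  have x2 : (N:ℝ) ^ (-(0.18 * r * q)) * ((N:ℝ) ^ ω * (N:ℝ) ^ (σ + ε)) ≤ (N:ℝ) ^ ρ := by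
    rw [← Real.rpow_add hN0, ← Real.rpow_add hN0]
    apply Real.rpow_le_rpow_of_exponent_le hN1r
    have := le_max_left (σ - 0.1 * r * q) (κ + 2 * η * q)
    rw [hρ]
    nlinarith
  have x3 : (N:ℝ) ^ (2 * η * q) * (N:ℝ) ^ (κ + ε) ≤ (N:ℝ) ^ ρ := by
    rw [← Real.rpow_add hN0]
    apply Real.rpow_le_rpow_of_exponent_le hN1r
    have := le_max_right (σ - 0.1 * r * q) (κ + 2 * η * q)
    rw [hρ]
    linarith
  have h6 := hC₃ N hN1
  have h7 : ∑ m ∈ Finset.Ico N (2 * N), ∑ x ∈ s m, Z x ^ q ≤ |C₃| * (N:ℝ) ^ (κ + ε) :=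
    h6.trans (by gcongr; exact le_abs_self C₃)
  calc A₁ * (N:ℝ) ^ (-(0.18 * r * q)) *
        (N + ∑ m ∈ Finset.Ico N (2 * N), ∑ i ∈ Finset.range (2 * w + 1), g (m - w + i)) +
      A₂ * (N:ℝ) ^ (2 * η * q) * ∑ m ∈ Finset.Ico N (2 * N), ∑ x ∈ s m, Z x ^ q
      ≤ A₁ * (N:ℝ) ^ (-(0.18 * r * q)) *
        (N + 13 * (N:ℝ) ^ ω * (3 * (|C₂| * 2 ^ (σ + ε) * (N:ℝ) ^ (σ + ε)))) +
      A₂ * (N:ℝ) ^ (2 * η * q) * (|C₃| * (N:ℝ) ^ (κ + ε)) := by gcongr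
    _ = A₁ * ((N:ℝ) ^ (-(0.18 * r * q)) * N) +
        A₁ * (13 * (3 * (|C₂| * 2 ^ (σ + ε)))) *
          ((N:ℝ) ^ (-(0.18 * r * q)) * ((N:ℝ) ^ ω * (N:ℝ) ^ (σ + ε))) +
        A₂ * |C₃| * ((N:ℝ) ^ (2 * η * q) * (N:ℝ) ^ (κ + ε)) := by ring
    _ ≤ A₁ * (N:ℝ) ^ ρ + A₁ * (13 * (3 * (|C₂| * 2 ^ (σ + ε)))) * (N:ℝ) ^ ρ +
        A₂ * |C₃| * (N:ℝ) ^ ρ := by gcongr
    _ = _ := by ring

end Pool.Agent.X114.TM
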