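import Pool.Agent.X114.FM3
import Pool.Agent.X114.TM2

/-! Moments over families: the improvement step and the iteration. -/

set_option autoImplicit false

open Filter Topology Set Real

namespace Pool.Agent.X114.FM

open Pool.Agent.H983R4.LH Pool.Agent.H983R4.GL Pool.Agent.H983R4.GL.Z
open Pool.Agent.X114.TM (add_rpow_le)

variable {ι : Type} {L : ι → ℂ → ℂ} {F : ℕ → Finset ι} {v : ℕ → ι → ℝ}

/-- the absolute values on the critical line -/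
noncomputable def G (L : ι → ℂ → ℂ) (i : ι) (t : ℝ) : ℝ := ‖L i (1 / 2 + (t : ℂ) * Complex.I)‖

lemma G_nonneg (i : ι) (t : ℝ) : 0 ≤ G L i t := norm_nonneg _

/-- `u i m` is a maximum point in `[m - 1, m + 1]` -/
def IsMax (L : ι → ℂ → ℂ) (u : ι → ℤ → ℝ) : Prop := ∀ (i : ι) (m : ℤ), |u i m - m| ≤ 1 ∧
  ∀ x : ℝ, |x - m| ≤ 1 → G L i x ≤ G L i (u i m)

lemma exists_isMax (h : ∀ i, Differentiable ℂ (L i)) : ∃ u : ι → ℤ → ℝ, IsMax L u := by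
  have h : ∀ (i : ι) (m : ℤ), ∃ x : ℝ, |x - m| ≤ 1 ∧ ∀ y : ℝ, |y - m| ≤ 1 → G L i y ≤ G L i x := by
    intro i m
    have hc : Continuous (G L i) := by
      unfold G
      exact continuous_norm.comp ((h i).continuous.comp (by fun_prop))
    obtain ⟨x, hx, hx2⟩ := (isCompact_Icc (a := (m:ℝ) - 1) (b := m + 1)).exists_isMaxOn
      ⟨m, by constructor <;> linarith⟩ hc.continuousOn
    refine ⟨x, ?_, fun y hy => hx2 ?_⟩
    · rw [abs_le]; constructor <;> linarith [hx.1, hx.2]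
    · have := abs_le.1 hy
      constructor <;> linarith
  choose u hu using h
  exact ⟨u, hu⟩

/-- what is used about the finite weighted families `F N` -/
structure WFam (L : ι → ℂ → ℂ) (F : ℕ → Finset ι) (v : ℕ → ι → ℝ) (p C m K δ κ : ℝ) : Prop where
  v0 : ∀ N i, 0 ≤ v N i
  ld : ∀ N : ℕ, 2 ≤ N → ∀ i ∈ F N, ∀ T : ℝ, |T| ≤ 2 * (N:ℝ) ^ δ → LD (L i) T (p * Real.log N) C m K
  mass : ∀ ε : ℝ, 0 < ε → ∃ B : ℝ, ∀ N : ℕ, 2 ≤ N → ∑ i ∈ F N, v N i ≤ B * (N:ℝ) ^ (κ + ε)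

/-- the moments, with local maxima -/
def PM (L : ι → ℂ → ℂ) (F : ℕ → Finset ι) (v : ℕ → ι → ℝ) (u : ι → ℤ → ℝ) (q δ σ : ℝ) : Prop :=
  ∀ ρ : ℝ, 0 < ρ → ρ < δ → ∀ ε : ℝ, 0 < ε → ∃ B : ℝ, ∀ N : ℕ, 2 ≤ N → ∀ m : ℤ,
    |(m:ℝ)| ≤ (N:ℝ) ^ ρ → ∑ i ∈ F N, v N i * G L i (u i m) ^ q ≤ B * (N:ℝ) ^ (σ + ε)

/-- configurations with bounded moments -/
def SM (L : ι → ℂ → ℂ) (F : ℕ → Finset ι) (v : ℕ → ι → ℝ) (q δ p κ r η : ℝ) : Prop :=
  ∀ ρ : ℝ, 0 < ρ → ρ < δ → ∃ N₀ : ℕ, ∃ s : ℕ → ℝ → Finset ℝ,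
  (∀ N : ℕ, N₀ ≤ N → ∀ c : ℝ, |c| ≤ 2 * (N:ℝ) ^ ρ → (∀ x ∈ s N c, |x - c| ≤ 3 / 4 * r) ∧
    4 * r * (p * Real.log N) ≤ (s N c).card ∧
    ∑ x ∈ s N c, ∑ y ∈ (s N c).erase x, Real.log (2 * r / |x - y|) ≤
      η * (s N c).card * (p * Real.log N)) ∧
  ∀ ε : ℝ, 0 < ε → ∃ B : ℝ, ∀ N : ℕ, N₀ ≤ N → 2 ≤ N → ∀ c : ℝ, |c| ≤ 2 * (N:ℝ) ^ ρ →
    ∑ x ∈ s N c, ∑ i ∈ F N, v N i * G L i x ^ q ≤ B * (N:ℝ) ^ (κ + ε)

/-- **The step.** -/
theorem stepF {u : ι → ℤ → ℝ} (hu : IsMax L u) {p C m K δ κ q r η σ : ℝ}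
    (hF : WFam L F v p C m K δ κ) (hp : 0 < p) (hq : 0 < q) (hκ : 0 ≤ κ) (hr : 0 < r)
    (hr8 : r ≤ 1 / 8) (hη : 0 < η) (hσ : 0 ≤ σ) (hS : SM L F v q δ p κ r η)
    (hP : PM L F v u q δ σ) :
    PM L F v u q δ (max (σ - 0.1 * r * p * q) (κ + 2 * η * p * q)) := by
  intro ρ hρ0 hρδ ε hε
  set τ : ℝ := max (σ - 0.1 * r * p * q) (κ + 2 * η * p * q) + ε with hτ
  have hrpq : 0 < r * p * q := by positivity
  have hηpq : 0 < 2 * η * p * q := by positivity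
  have hτ1 : κ + 2 * η * p * q + ε ≤ τ := by
    have := le_max_right (σ - 0.1 * r * p * q) (κ + 2 * η * p * q)
    rw [hτ]; linarith
  have hτ2 : σ - 0.1 * r * p * q + ε ≤ τ := by
    have := le_max_left (σ - 0.1 * r * p * q) (κ + 2 * η * p * q)
    rw [hτ]; linarith
  have hτ0 : 0 ≤ τ := by linarith
  obtain ⟨N₀, s, hs, hsum⟩ := hS ρ hρ0 hρδ
  set ρ' : ℝ := (ρ + δ) / 2 with hρ'
  have hρρ' : ρ < ρ' := by rw [hρ']; linarith
  have hρ'δ : ρ' < δ := by rw [hρ']; linarith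
  obtain ⟨B₁, hB₁⟩ := hF.mass ε hε
  obtain ⟨B₂, hB₂⟩ := hP ρ' (by linarith) hρ'δ ε hε
  obtain ⟨B₃, hB₃⟩ := hsum ε hε
  obtain ⟨B₄, hB₄⟩ := hP ρ hρ0 hρδ ε hε
  set ω : ℝ := min (0.04 * r * p * q) ρ with hω
  have hω0 : 0 < ω := lt_min (by positivity) hρ0
  have hω1 : ω ≤ 0.04 * r * p * q := min_le_left _ _
  have hω2 : ω ≤ ρ := min_le_right _ _
  obtain ⟨N₁, hN₁⟩ : ∃ N₁ : ℕ, ∀ N : ℕ, N₁ ≤ N → (6:ℝ) ≤ (N:ℝ) ^ (ρ' - ρ) := by
    have h1 := (tendsto_rpow_atTop (show 0 < ρ' - ρ by linarith)).comp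
      (tendsto_natCast_atTop_atTop (R := ℝ))
    have h2 := h1.eventually_ge_atTop 6
    rw [eventually_atTop] at h2
    exact h2
  set N₂ : ℕ := max N₀ (max N₁ 2) with hN₂
  set n₀ : ℕ := ⌊8 / r⌋₊ + 1 with hn₀
  set c₁ : ℝ := Real.exp (c₀ C m K (ω / p)) with hc₁
  have hc1 : 0 < c₁ := Real.exp_pos _
  set A₁ : ℝ := 2 ^ q * c₁ ^ q with hA₁
  set A₂ : ℝ := 2 ^ q with hA₂
  have hA1 : 0 ≤ A₁ := by positivity
  have hA2 : 0 ≤ A₂ := by positivity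
  refine ⟨A₁ * |B₁| + A₁ * (9 * |B₂|) + A₂ * (n₀ * |B₃|) + |B₄| * (N₂:ℝ) ^ (σ + ε),
    fun N hN μ hμ => ?_⟩
  have hNr : (2:ℝ) ≤ N := by exact_mod_cast hN
  have hN0 : (0:ℝ) < N := by linarith
  have hN1r : (1:ℝ) ≤ N := by linarith
  have hNτ : 1 ≤ (N:ℝ) ^ τ := Real.one_le_rpow hN1r hτ0
  have hN₂0 : (1:ℝ) ≤ N₂ := by
    have : 2 ≤ N₂ := (le_max_right _ _).trans (le_max_right _ _)
    have : (2:ℝ) ≤ N₂ := by exact_mod_cast this
    linarith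
  have hsN : 0 ≤ A₁ * |B₁| + A₁ * (9 * |B₂|) + A₂ * (n₀ * |B₃|) := by positivity
  have hsB : 0 ≤ |B₄| * (N₂:ℝ) ^ (σ + ε) := by positivity
  rcases lt_or_ge N N₂ with hNN | hNN
  · -- small `N`
    have hNN' : (N:ℝ) ≤ N₂ := by exact_mod_cast hNN.le
    calc ∑ i ∈ F N, v N i * G L i (u i μ) ^ q ≤ B₄ * (N:ℝ) ^ (σ + ε) := hB₄ N hN μ hμ
      _ ≤ |B₄| * (N₂:ℝ) ^ (σ + ε) := by
          gcongr
          · exact le_abs_self B₄
      _ ≤ _ := by nlinarith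
  have hNN0 : N₀ ≤ N := (le_max_left _ _).trans hNN
  have hNN1 : N₁ ≤ N := ((le_max_left _ _).trans (le_max_right _ _)).trans hNN
  have h6 := hN₁ N hNN1
  have hlog : 0 < Real.log N := Real.log_pos (by linarith)
  have hℓ : 0 < p * Real.log N := by positivity
  have hNω : 1 ≤ (N:ℝ) ^ ω := Real.one_le_rpow hN1r hω0.le
  have hNωρ : (N:ℝ) ^ ω ≤ (N:ℝ) ^ ρ := Real.rpow_le_rpow_of_exponent_le hN1r hω2
  have hNρ : 1 ≤ (N:ℝ) ^ ρ := Real.one_le_rpow hN1r hρ0.le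
  have hNρ' : 6 * (N:ℝ) ^ ρ ≤ (N:ℝ) ^ ρ' := by
    calc 6 * (N:ℝ) ^ ρ ≤ (N:ℝ) ^ (ρ' - ρ) * (N:ℝ) ^ ρ := by gcongr
      _ = _ := by rw [← Real.rpow_add hN0]; congr 1; ring
  have hNρδ : (N:ℝ) ^ ρ ≤ (N:ℝ) ^ δ := Real.rpow_le_rpow_of_exponent_le hN1r hρδ.le
  set w : ℕ := ⌈(N:ℝ) ^ ω⌉₊ + 2 with hw
  have hwr : (w : ℝ) ≤ (N:ℝ) ^ ω + 3 := by
    rw [hw]
    push_cast
    have := Nat.ceil_lt_add_one (show 0 ≤ (N:ℝ) ^ ω by positivity)
    linarith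
  have hwr2 : (N:ℝ) ^ ω ≤ w - 2 := by
    rw [hw]; push_cast
    have := Nat.le_ceil ((N:ℝ) ^ ω)
    linarith
  have hw9 : (2 * (w:ℝ) + 1) ≤ 9 * (N:ℝ) ^ ω := by linarith
  set J : Finset ℤ := Finset.Icc (μ - w) (μ + w) with hJ
  set cc : ℕ → ℝ := fun j => μ - 1 + j * (r / 4) with hcc
  have hccb : ∀ j ∈ Finset.range n₀, |cc j| ≤ 2 * (N:ℝ) ^ ρ := by
    intro j hj
    have h1 : j ≤ ⌊8 / r⌋₊ := by
      rw [Finset.mem_range, hn₀] at hj; omega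
    have h2 : (j:ℝ) ≤ 8 / r := (Nat.le_floor_iff (by positivity)).1 h1
    have h3 : (j:ℝ) * (r / 4) ≤ 2 := by
      rw [le_div_iff₀ hr] at h2
      linarith
    have h4 : 0 ≤ (j:ℝ) * (r / 4) := by positivity
    have h5 := abs_le.1 hμ
    rw [hcc, abs_le]
    constructor <;> linarith
  set g : ι → ℤ → ℝ := fun i j => G L i (u i j) ^ q with hg
  have hg0 : ∀ i j, 0 ≤ g i j := fun i j => Real.rpow_nonneg (G_nonneg _ _) q
  have hkey : ∀ i ∈ F N, g i μ ≤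
      A₁ * (N:ℝ) ^ (-(0.18 * r * p * q)) * (1 + ∑ j ∈ J, g i j) +
        A₂ * (N:ℝ) ^ (2 * η * p * q) *
          ∑ j ∈ Finset.range n₀, ∑ x ∈ s N (cc j), G L i x ^ q := by
    intro i hi
    obtain ⟨hu1, hu2⟩ := hu i μ
    have hu1' := abs_le.1 hu1
    have hμ' := abs_le.1 hμ
    have hTδ : |u i μ| ≤ 2 * (N:ℝ) ^ δ := by
      rw [abs_le]; constructor <;> linarith
    have hLD := hF.ld N hN i hi (u i μ) hTδ
    -- the centre
    obtain ⟨j, hj, hjT⟩ : ∃ j ∈ Finset.range n₀, |cc j - u i μ| ≤ r / 4 := by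
      have hy0 : 0 ≤ (u i μ - μ + 1) / (r / 4) := div_nonneg (by linarith) (by linarith)
      refine ⟨⌊(u i μ - μ + 1) / (r / 4)⌋₊, ?_, ?_⟩
      · rw [Finset.mem_range, hn₀]
        have h1 : (u i μ - μ + 1) / (r / 4) ≤ 8 / r := by
          rw [div_le_div_iff₀ (by linarith) hr]
          nlinarith
        have := Nat.floor_mono h1
        omega
      · have h1 := Nat.floor_le hy0
        have h2 := Nat.lt_floor_add_one ((u i μ - μ + 1) / (r / 4))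
        rw [le_div_iff₀ (by linarith)] at h1
        rw [div_lt_iff₀ (by linarith)] at h2
        rw [hcc, abs_le]
        constructor <;> nlinarith
    obtain ⟨hs1, hs2, hs3⟩ := hs N hNN0 (cc j) (hccb j hj)
    set S₁ : ℝ := ∑ j ∈ J, g i j with hS₁
    have hS1 : 0 ≤ S₁ := Finset.sum_nonneg fun j _ => hg0 i j
    set S₂ : ℝ := ∑ j ∈ Finset.range n₀, ∑ x ∈ s N (cc j), G L i x ^ q with hS₂
    have hS20 : ∀ j : ℕ, 0 ≤ ∑ x ∈ s N (cc j), G L i x ^ q := fun j =>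
      Finset.sum_nonneg fun x _ => Real.rpow_nonneg (G_nonneg _ x) q
    have hS2 : 0 ≤ S₂ := Finset.sum_nonneg fun j _ => hS20 j
    set M : ℝ := (1 + S₁) ^ q⁻¹ with hM
    set a : ℝ := S₂ ^ q⁻¹ with ha
    have hM1 : 1 ≤ M := Real.one_le_rpow (by linarith) (by positivity)
    have ha0 : 0 ≤ a := Real.rpow_nonneg hS2 _
    have hMq : M ^ q = 1 + S₁ := Real.rpow_inv_rpow (by linarith) hq.ne'
    have haq : a ^ q = S₂ := Real.rpow_inv_rpow hS2 hq.ne'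
    have hroot : ∀ x y : ℝ, 0 ≤ x → x ^ q ≤ y → x ≤ y ^ q⁻¹ := by
      intro x y hx hxy
      have := Real.rpow_le_rpow (Real.rpow_nonneg hx q) hxy (inv_nonneg.2 hq.le)
      rwa [Real.rpow_rpow_inv hx hq.ne'] at this
    have hMb : ∀ x : ℝ, |x - u i μ| ≤ (N:ℝ) ^ ω → ‖L i (1 / 2 + (x : ℂ) * Complex.I)‖ ≤ M := by
      intro x hx
      have hx' := abs_le.1 hx
      set k : ℤ := ⌊x⌋ with hk
      have hk1 : (k:ℝ) ≤ x := Int.floor_le x
      have hk2 : x < k + 1 := Int.lt_floor_add_one x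
      have h3 : G L i x ≤ G L i (u i k) := (hu i k).2 x (by rw [abs_le]; constructor <;> linarith)
      have h4 : μ - w ≤ k := by
        have h5 : (μ:ℝ) < k + w + 1 := by linarith
        have h6 : μ < k + w + 1 := by exact_mod_cast h5
        omega
      have h5 : k ≤ μ + w := by
        have h6 : (k:ℝ) ≤ μ + w := by linarith
        exact_mod_cast h6
      have hi2 : k ∈ J := Finset.mem_Icc.2 ⟨h4, h5⟩
      apply hroot _ _ (norm_nonneg _)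
      calc ‖L i (1 / 2 + (x : ℂ) * Complex.I)‖ ^ q ≤ G L i (u i k) ^ q :=
            Real.rpow_le_rpow (norm_nonneg _) h3 hq.le
        _ ≤ S₁ := Finset.single_le_sum (f := fun j => g i j) (fun j _ => hg0 i j) hi2
        _ ≤ 1 + S₁ := by linarith
    have hab : ∀ x ∈ s N (cc j), ‖L i (1 / 2 + (x : ℂ) * Complex.I)‖ ≤ a := by
      intro x hx
      apply hroot _ _ (norm_nonneg _)
      calc ‖L i (1 / 2 + (x : ℂ) * Complex.I)‖ ^ q ≤ ∑ x ∈ s N (cc j), G L i x ^ q :=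
            Finset.single_le_sum (f := fun x => G L i x ^ q)
              (fun x _ => Real.rpow_nonneg (G_nonneg _ x) q) hx
        _ ≤ S₂ := Finset.single_le_sum (f := fun j => ∑ x ∈ s N (cc j), G L i x ^ q)
              (fun j _ => hS20 j) hj
    have h1 := pointwise hLD hℓ (ω := ω / p) (W := (N:ℝ) ^ ω) (M := M) (by positivity) (by positivity)
      (by
        have e : ω / p * (p * Real.log N) = Real.log ((N:ℝ) ^ ω) := by
          rw [Real.log_rpow hN0]; field_simp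
        rw [e]
        exact Real.log_le_log (by positivity) (by linarith)) hM1 hMb hr hr8 hη
      (s := s N (cc j)) (a := a) (fun x hx => by
        have h1 := abs_le.1 (hs1 x hx)
        have h2 := abs_le.1 hjT
        rw [abs_le]; constructor <;> linarith) hs2 hs3 hab
    have h2 : g i μ ≤ (c₁ * M * Real.exp (-(0.18 * r * (p * Real.log N))) +
        a * Real.exp (2 * η * (p * Real.log N))) ^ q :=
      Real.rpow_le_rpow (G_nonneg _ _) h1 hq.le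
    refine h2.trans ((add_rpow_le (by positivity) (by positivity) hq).trans ?_)
    have e1 : Real.exp (-(0.18 * r * (p * Real.log N))) ^ q = (N:ℝ) ^ (-(0.18 * r * p * q)) := by
      rw [← Real.exp_mul, Real.rpow_def_of_pos hN0]; congr 1; ring
    have e2 : Real.exp (2 * η * (p * Real.log N)) ^ q = (N:ℝ) ^ (2 * η * p * q) := by
      rw [← Real.exp_mul, Real.rpow_def_of_pos hN0]; congr 1; ring
    rw [Real.mul_rpow (by positivity) (by positivity), Real.mul_rpow hc1.le (by linarith), hMq,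
      Real.mul_rpow (by positivity) (by positivity), haq, e1, e2, hA₁, hA₂]
    apply le_of_eq
    ring
  -- the sum
  have hv := hF.v0 N
  have h7 : ∑ i ∈ F N, v N i * G L i (u i μ) ^ q ≤
      ∑ i ∈ F N, (A₁ * (N:ℝ) ^ (-(0.18 * r * p * q)) * (v N i + ∑ j ∈ J, v N i * g i j) +
        A₂ * (N:ℝ) ^ (2 * η * p * q) *
          ∑ j ∈ Finset.range n₀, ∑ x ∈ s N (cc j), v N i * G L i x ^ q) := by
    apply Finset.sum_le_sum
    intro i hi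
    refine (mul_le_mul_of_nonneg_left (hkey i hi) (hv i)).trans (le_of_eq ?_)
    rw [← Finset.mul_sum]
    have e3 : ∑ j ∈ Finset.range n₀, ∑ x ∈ s N (cc j), v N i * G L i x ^ q =
        v N i * ∑ j ∈ Finset.range n₀, ∑ x ∈ s N (cc j), G L i x ^ q := by
      rw [Finset.mul_sum]
      exact Finset.sum_congr rfl fun j _ => (Finset.mul_sum _ _ _).symm
    rw [e3]
    ring
  refine h7.trans ?_
  rw [Finset.sum_add_distrib, ← Finset.mul_sum, ← Finset.mul_sum, Finset.sum_add_distrib,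
    Finset.sum_comm (s := F N) (t := J), Finset.sum_comm (s := F N) (t := Finset.range n₀)]
  have h8 : ∑ i ∈ F N, v N i ≤ |B₁| * (N:ℝ) ^ (κ + ε) :=
    (hB₁ N hN).trans (by gcongr; exact le_abs_self B₁)
  have h9 : ∑ j ∈ J, ∑ i ∈ F N, v N i * g i j ≤ (9 * (N:ℝ) ^ ω) * (|B₂| * (N:ℝ) ^ (σ + ε)) := by
    have h10 : ∀ j ∈ J, ∑ i ∈ F N, v N i * g i j ≤ |B₂| * (N:ℝ) ^ (σ + ε) := by
      intro j hj
      rw [hJ, Finset.mem_Icc] at hj
      have hj1 : (μ:ℝ) - w ≤ j := by exact_mod_cast hj.1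
      have hj2 : (j:ℝ) ≤ μ + w := by exact_mod_cast hj.2
      have h5 := abs_le.1 hμ
      have h11 : |(j:ℝ)| ≤ (N:ℝ) ^ ρ' := by
        rw [abs_le]; constructor <;> linarith
      exact (hB₂ N hN j h11).trans (by gcongr; exact le_abs_self B₂)
    refine (Finset.sum_le_sum h10).trans ?_
    rw [Finset.sum_const, nsmul_eq_mul, hJ, Int.card_Icc]
    have e4 : (((μ + w + 1 - (μ - w)).toNat : ℕ) : ℝ) = 2 * (w:ℝ) + 1 := by
      have : (μ + w + 1 - (μ - w)).toNat = 2 * w + 1 := by omega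
      rw [this]; push_cast; ring
    rw [e4]
    gcongr
  have h10 : ∑ j ∈ Finset.range n₀, ∑ i ∈ F N, ∑ x ∈ s N (cc j), v N i * G L i x ^ q ≤
      n₀ * (|B₃| * (N:ℝ) ^ (κ + ε)) := by
    have h11 : ∀ j ∈ Finset.range n₀, ∑ i ∈ F N, ∑ x ∈ s N (cc j), v N i * G L i x ^ q ≤
        |B₃| * (N:ℝ) ^ (κ + ε) := by
      intro j hj
      rw [Finset.sum_comm]
      exact (hB₃ N hNN0 hN (cc j) (hccb j hj)).trans (by gcongr; exact le_abs_self B₃)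
    refine (Finset.sum_le_sum h11).trans ?_
    rw [Finset.sum_const, nsmul_eq_mul, Finset.card_range]
  -- exponents
  have x1 : (N:ℝ) ^ (-(0.18 * r * p * q)) * (N:ℝ) ^ (κ + ε) ≤ (N:ℝ) ^ τ := by
    rw [← Real.rpow_add hN0]
    apply Real.rpow_le_rpow_of_exponent_le hN1r
    nlinarith
  have x2 : (N:ℝ) ^ (-(0.18 * r * p * q)) * ((N:ℝ) ^ ω * (N:ℝ) ^ (σ + ε)) ≤ (N:ℝ) ^ τ := by
    rw [← Real.rpow_add hN0, ← Real.rpow_add hN0]
    apply Real.rpow_le_rpow_of_exponent_le hN1r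
    nlinarith
  have x3 : (N:ℝ) ^ (2 * η * p * q) * (N:ℝ) ^ (κ + ε) ≤ (N:ℝ) ^ τ := by
    rw [← Real.rpow_add hN0]
    apply Real.rpow_le_rpow_of_exponent_le hN1r
    linarith
  calc A₁ * (N:ℝ) ^ (-(0.18 * r * p * q)) * (∑ i ∈ F N, v N i + ∑ j ∈ J, ∑ i ∈ F N, v N i * g i j) +
      A₂ * (N:ℝ) ^ (2 * η * p * q) *
        ∑ j ∈ Finset.range n₀, ∑ i ∈ F N, ∑ x ∈ s N (cc j), v N i * G L i x ^ q
      ≤ A₁ * (N:ℝ) ^ (-(0.18 * r * p * q)) * (|B₁| * (N:ℝ) ^ (κ + ε) +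
          (9 * (N:ℝ) ^ ω) * (|B₂| * (N:ℝ) ^ (σ + ε))) +
        A₂ * (N:ℝ) ^ (2 * η * p * q) * (n₀ * (|B₃| * (N:ℝ) ^ (κ + ε))) := by gcongr
    _ = A₁ * |B₁| * ((N:ℝ) ^ (-(0.18 * r * p * q)) * (N:ℝ) ^ (κ + ε)) +
        A₁ * (9 * |B₂|) * ((N:ℝ) ^ (-(0.18 * r * p * q)) * ((N:ℝ) ^ ω * (N:ℝ) ^ (σ + ε))) +
        A₂ * (n₀ * |B₃|) * ((N:ℝ) ^ (2 * η * p * q) * (N:ℝ) ^ (κ + ε)) := by ring
    _ ≤ A₁ * |B₁| * (N:ℝ) ^ τ + A₁ * (9 * |B₂|) * (N:ℝ) ^ τ + A₂ * (n₀ * |B₃|) * (N:ℝ) ^ τ := by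
        gcongr
    _ = (A₁ * |B₁| + A₁ * (9 * |B₂|) + A₂ * (n₀ * |B₃|)) * (N:ℝ) ^ τ := by ring
    _ ≤ _ := mul_le_mul_of_nonneg_right (by linarith) (by positivity)

lemma baseF {u : ι → ℤ → ℝ} (hu : IsMax L u) {p C m K δ κ q : ℝ}
    (hF : WFam L F v p C m K δ κ) (hp : 0 < p) (hq : 0 < q) (hκ : 0 ≤ κ) :
    PM L F v u q δ (κ + p * q) := by
  intro ρ hρ0 hρδ ε hε
  obtain ⟨B₁, hB₁⟩ := hF.mass ε hε
  refine ⟨Real.exp C ^ q * |B₁|, fun N hN μ hμ => ?_⟩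
  have hNr : (2:ℝ) ≤ N := by exact_mod_cast hN
  have hN0 : (0:ℝ) < N := by linarith
  have hN1r : (1:ℝ) ≤ N := by linarith
  have hNρ : 1 ≤ (N:ℝ) ^ ρ := Real.one_le_rpow hN1r hρ0.le
  have hNρδ : (N:ℝ) ^ ρ ≤ (N:ℝ) ^ δ := Real.rpow_le_rpow_of_exponent_le hN1r hρδ.le
  have h1 : ∀ i ∈ F N, v N i * G L i (u i μ) ^ q ≤
      v N i * (Real.exp C ^ q * (N:ℝ) ^ (p * q)) := by
    intro i hi
    refine mul_le_mul_of_nonneg_left ?_ (hF.v0 N i)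
    obtain ⟨hu1, hu2⟩ := hu i μ
    have hu1' := abs_le.1 hu1
    have hμ' := abs_le.1 hμ
    have hTδ : |u i μ| ≤ 2 * (N:ℝ) ^ δ := by
      rw [abs_le]; constructor <;> linarith
    have h1 := (hF.ld N hN i hi (u i μ) hTδ).g (1 / 2 + (u i μ : ℂ) * Complex.I) (by simp)
    have him : (1 / 2 + (u i μ : ℂ) * Complex.I).im = u i μ := by simp
    rw [him, sub_self, abs_zero, add_zero, Real.log_one, mul_zero, add_zero] at h1
    have h2 : G L i (u i μ) ≤ Real.exp C * (N:ℝ) ^ p := by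
      refine ((ne_exp_posLog _ (norm_nonneg _)).trans (Real.exp_le_exp.2 h1)).trans (le_of_eq ?_)
      rw [Real.exp_add, Real.rpow_def_of_pos hN0]
      congr 2
      ring
    refine (Real.rpow_le_rpow (G_nonneg _ _) h2 hq.le).trans (le_of_eq ?_)
    rw [Real.mul_rpow (Real.exp_pos _).le (by positivity), ← Real.rpow_mul hN0.le]
  refine (Finset.sum_le_sum h1).trans ?_
  rw [← Finset.sum_mul]
  calc (∑ i ∈ F N, v N i) * (Real.exp C ^ q * (N:ℝ) ^ (p * q)) ≤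
        (|B₁| * (N:ℝ) ^ (κ + ε)) * (Real.exp C ^ q * (N:ℝ) ^ (p * q)) := by
          gcongr
          exact (hB₁ N hN).trans (by gcongr; exact le_abs_self B₁)
    _ = Real.exp C ^ q * |B₁| * ((N:ℝ) ^ (κ + ε) * (N:ℝ) ^ (p * q)) := by ring
    _ = _ := by rw [← Real.rpow_add hN0]; congr 2; ring

/-- **The iteration.** -/
theorem iterF {u : ι → ℤ → ℝ} (hu : IsMax L u) {p C m K δ κ q r η : ℝ}
    (hF : WFam L F v p C m K δ κ) (hp : 0 < p) (hq : 0 < q) (hκ : 0 ≤ κ) (hr : 0 < r)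
    (hr8 : r ≤ 1 / 8) (hη : 0 < η) (hS : SM L F v q δ p κ r η) :
    PM L F v u q δ (κ + 2 * η * p * q) := by
  have hrq : 0 < 0.1 * r * p * q := by positivity
  have hηq : 0 < 2 * η * p * q := by positivity
  set σ₀ : ℝ := κ + p * q with hσ₀
  have h : ∀ n : ℕ, PM L F v u q δ (max (σ₀ - n * (0.1 * r * p * q)) (κ + 2 * η * p * q)) := by
    intro n
    induction n with
    | zero =>
      intro ρ h0 h1 ε hε
      obtain ⟨B, hB⟩ := baseF hu hF hp hq hκ ρ h0 h1 ε hε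
      refine ⟨|B|, fun N hN μ hμ => (hB N hN μ hμ).trans ?_⟩
      have hNr : (1:ℝ) ≤ N := by exact_mod_cast (by omega : 1 ≤ N)
      calc B * (N:ℝ) ^ (σ₀ + ε) ≤ |B| * (N:ℝ) ^ (σ₀ + ε) := by gcongr; exact le_abs_self B
        _ ≤ _ := by
            gcongr
            have := le_max_left (σ₀ - ((0:ℕ):ℝ) * (0.1 * r * p * q)) (κ + 2 * η * p * q)
            simpa using this
    | succ n ih =>
      have h1 := stepF hu hF hp hq hκ hr hr8 hη (by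
        have := le_max_right (σ₀ - n * (0.1 * r * p * q)) (κ + 2 * η * p * q)
        linarith) hS ih
      have e : max (max (σ₀ - n * (0.1 * r * p * q)) (κ + 2 * η * p * q) - 0.1 * r * p * q)
          (κ + 2 * η * p * q) =
          max (σ₀ - ((n + 1 : ℕ) : ℝ) * (0.1 * r * p * q)) (κ + 2 * η * p * q) := by
        push_cast
        rcases le_total (σ₀ - n * (0.1 * r * p * q)) (κ + 2 * η * p * q) with h2 | h2
        · rw [max_eq_right h2, max_eq_right (by linarith), max_eq_right (by linarith)]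
        · rw [max_eq_left h2]
          congr 1
          ring
      rwa [e] at h1
  obtain ⟨n, hn⟩ := exists_nat_gt (σ₀ / (0.1 * r * p * q))
  have h1 := h n
  have h2 : σ₀ ≤ n * (0.1 * r * p * q) := by
    rw [div_lt_iff₀ (by positivity)] at hn
    exact hn.le
  rwa [max_eq_right (by linarith)] at h1

end Pool.Agent.X114.FM
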