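import Pool.Agent.X114.FM4
import Pool.Agent.X114.FM2

/-! Moments over families: sampling with sets of positive capacity. -/

set_option autoImplicit false

open MeasureTheory Filter Topology Set Real

namespace Pool.Agent.X114.FM

open Pool.Agent.H983R4.GL
open Pool.Agent.X114.TS (w)

variable {ι : Type} {L : ι → ℂ → ℂ} {F : ℕ → Finset ι} {v : ℕ → ι → ℝ}

/-- translates of configurations -/
lemma conf_shift' {s : Finset ℝ} {y₀ r a η T Λ : ℝ} (hr : 0 < r) (hη : 0 < η)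
    (hs : ∀ x ∈ s, |x - y₀| ≤ r / 2) (ha : |a + y₀ - T| ≤ r / 4)
    (hE : ∑ x ∈ s, ∑ y ∈ s.erase x, Real.log (2 * r / |x - y|) ≤ η / (5 * r) * s.card ^ 2)
    (hL : 1 ≤ r * Λ) (hc : s.card = ⌈4 * r * Λ⌉₊) :
    ∃ s' : Finset ℝ, (∀ x ∈ s', |x - T| ≤ 3 / 4 * r ∧ ∃ α ∈ s, x = a + α) ∧
      4 * r * Λ ≤ s'.card ∧ (s'.card : ℝ) ≤ 5 * (r * Λ) ∧
      ∑ x ∈ s', ∑ y ∈ s'.erase x, Real.log (2 * r / |x - y|) ≤ η * s'.card * Λ := by
  classical
  set e : ℝ ↪ ℝ := ⟨fun x => a + x, fun b c h => by simpa using h⟩ with he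
  have hee : ∀ x, e x = a + x := fun _ => rfl
  have h2 : (s.card : ℝ) ≤ 5 * (r * Λ) := by
    rw [hc]
    have := (Nat.ceil_lt_add_one (show 0 ≤ 4 * r * Λ by nlinarith)).le
    linarith
  refine ⟨s.map e, ?_, ?_, by rwa [Finset.card_map], ?_⟩
  · intro x hx
    obtain ⟨α, hα, rfl⟩ := Finset.mem_map.1 hx
    have h1 := abs_le.1 (hs α hα)
    have h2 := abs_le.1 ha
    refine ⟨?_, α, hα, hee α⟩
    rw [hee, abs_le]
    constructor <;> linarith
  · rw [Finset.card_map, hc]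
    exact Nat.le_ceil _
  · rw [Finset.sum_map, Finset.card_map]
    have h1 : ∀ x ∈ s, ∑ y ∈ (s.map e).erase (e x), Real.log (2 * r / |e x - y|) =
        ∑ y ∈ s.erase x, Real.log (2 * r / |x - y|) := by
      intro x hx
      rw [← Finset.map_erase, Finset.sum_map]
      apply Finset.sum_congr rfl
      intro y hy
      rw [hee, hee, add_sub_add_left_eq_sub]
    rw [Finset.sum_congr rfl h1]
    refine hE.trans ?_
    have h3 : 0 ≤ (s.card : ℝ) := Nat.cast_nonneg _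
    calc η / (5 * r) * (s.card : ℝ) ^ 2 = η / (5 * r) * s.card * s.card := by ring
      _ ≤ η / (5 * r) * s.card * (5 * (r * Λ)) := by gcongr
      _ = _ := by field_simp

/-- nets in `[-N^δ, N^δ]` whose mesh tends to zero -/
def NetN (δ : ℝ) (D : ℕ → Set ℝ) : Prop := ∀ ρ : ℝ, 0 < ρ → ∃ N₀ : ℕ, ∀ N : ℕ, N₀ ≤ N → ∀ T : ℝ,
  |T| ≤ (N:ℝ) ^ δ → ∃ t ∈ D N, |t - T| ≤ ρ

/-- **Moments over families by thin sampling.** -/
theorem thinF {u : ι → ℤ → ℝ} (hu : IsMax L u) {p C m K δ κ q : ℝ} (hd : ∀ i, Differentiable ℂ (L i))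
    (hF : WFam L F v p C m K δ κ) (hp : 0 < p) (hq : 0 < q) (hκ : 0 ≤ κ) {E : Set ℝ}
    (hE : PosCap E) {D : ℕ → Set ℝ} (hD : NetN δ D)
    (h : ∀ α ∈ E, ∀ ε : ℝ, 0 < ε → ∃ B : ℝ, ∀ N : ℕ, 2 ≤ N → ∀ t ∈ D N, |t| ≤ (N:ℝ) ^ δ →
      ∑ i ∈ F N, v N i * G L i (t + α) ^ q ≤ B * (N:ℝ) ^ (κ + ε)) :
    PM L F v u q δ κ := by
  classical
  have main : ∀ η₀ : ℝ, 0 < η₀ → PM L F v u q δ ((κ + η₀) + 2 * η₀ * p * q) := by
    intro η₀ hη₀
    obtain ⟨ν, hfin, hν, hνE, hatom, hen⟩ := hE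
    have : IsFiniteMeasure ν := ⟨lt_top_iff_ne_top.2 hfin⟩
    have : NullSingletonClass ν := ⟨hatom⟩
    -- the sets with uniform constants, in bounded intervals
    set A : ℕ → Set ℝ := fun k => {α | ∀ N : ℕ, 2 ≤ N → ∀ t ∈ D N, |t| ≤ (N:ℝ) ^ δ →
      ∑ i ∈ F N, v N i * G L i (t + α) ^ q ≤ k * (N:ℝ) ^ (κ + η₀)} with hA
    have hAc : ∀ k, IsClosed (A k) := by
      intro k
      have e : A k = ⋂ (N : ℕ) (_ : 2 ≤ N) (t : ℝ) (_ : t ∈ D N) (_ : |t| ≤ (N:ℝ) ^ δ),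
          {α | ∑ i ∈ F N, v N i * G L i (t + α) ^ q ≤ k * (N:ℝ) ^ (κ + η₀)} := by
        ext α
        simp [hA]
      rw [e]
      refine isClosed_iInter fun N => isClosed_iInter fun _ => isClosed_iInter fun t =>
        isClosed_iInter fun _ => isClosed_iInter fun _ => ?_
      apply isClosed_le _ continuous_const
      refine continuous_finsetSum _ fun i _ => continuous_const.mul ?_
      refine Continuous.rpow_const ?_ fun _ => Or.inr hq.le
      unfold G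
      exact continuous_norm.comp ((hd i).continuous.comp (by fun_prop))
    have hcov : E ⊆ ⋃ k : ℕ, A k ∩ Ico (-((k + 1 : ℕ) : ℝ)) ((k + 1 : ℕ) : ℝ) := by
      intro α hα
      obtain ⟨B, hB⟩ := h α hα η₀ hη₀
      obtain ⟨k, hk⟩ := exists_nat_gt (max B |α|)
      have hk1 : B < k := (le_max_left _ _).trans_lt hk
      have hk2 : |α| < k := (le_max_right _ _).trans_lt hk
      rw [abs_lt] at hk2
      rw [mem_iUnion]
      refine ⟨k, ?_, ?_, ?_⟩
      · intro N hN t ht htN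
        refine (hB N hN t ht htN).trans ?_
        gcongr
      · push_cast; linarith
      · push_cast; linarith
    obtain ⟨k, hk⟩ : ∃ k : ℕ, ν (A k ∩ Ico (-((k + 1 : ℕ) : ℝ)) ((k + 1 : ℕ) : ℝ)) ≠ 0 := by
      by_contra hno
      push Not at hno
      apply hν
      rw [← Measure.measure_univ_eq_zero]
      refine measure_mono_null (t := (⋃ k : ℕ, A k ∩ Ico (-((k + 1 : ℕ) : ℝ)) ((k + 1 : ℕ) : ℝ)) ∪ Eᶜ) ?_ ?_
      · intro x _
        by_cases hx : x ∈ E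
        · exact Or.inl (hcov hx)
        · exact Or.inr hx
      · rw [measure_union_null_iff]
        exact ⟨measure_iUnion_null hno, hνE⟩
    set Y : Set ℝ := A k ∩ Ico (-((k + 1 : ℕ) : ℝ)) ((k + 1 : ℕ) : ℝ) with hY
    have hYm : MeasurableSet Y := (hAc k).measurableSet.inter measurableSet_Ico
    set μ : Measure ℝ := ν.restrict Y with hμ
    have : NullSingletonClass μ := ⟨fun x => by
      have := Measure.le_iff'.1 (Measure.restrict_le_self (μ := ν) (s := Y)) {x}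
      rw [hatom x] at this
      exact le_antisymm this (zero_le)⟩
    have hμ0 : μ ≠ 0 := by
      intro h0
      apply hk
      rw [← Measure.restrict_apply_self, ← hμ, h0]
      rfl
    have hμE : ∫⁻ x, ∫⁻ y, w x y ∂μ ∂μ ≠ ⊤ := by
      refine ne_top_of_le_ne_top hen ?_
      calc ∫⁻ x, ∫⁻ y, w x y ∂μ ∂μ ≤ ∫⁻ x, ∫⁻ y, w x y ∂ν ∂μ :=
            lintegral_mono fun x => lintegral_mono' Measure.restrict_le_self le_rfl
        _ ≤ ∫⁻ x, ∫⁻ y, w x y ∂ν ∂ν := lintegral_mono' Measure.restrict_le_self le_rfl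
    set A' : Set ℝ := A k ∩ Ico (-((k + 1 : ℕ) : ℝ)) ((k + 1 : ℕ) : ℝ) with hA'
    have hμA : μ (A' ∩ Ico (-((k + 1 : ℕ) : ℝ)) ((k + 1 : ℕ) : ℝ))ᶜ = 0 := by
      have e : A' ∩ Ico (-((k + 1 : ℕ) : ℝ)) ((k + 1 : ℕ) : ℝ) = Y := by
        rw [hA', hY, inter_assoc, inter_self]
      rw [e, hμ, Measure.restrict_apply hYm.compl, compl_inter_self, measure_empty]
    obtain ⟨r, y₀, hr0, hr8, hconf⟩ := Pool.Agent.X114.TM.conf hμ0 hμE (A := A') hYm
      (N := k + 1) (Nat.succ_pos k) hμA (η := η₀) (by positivity)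
    -- the configurations
    have hSM : SM L F v q δ p (κ + η₀) r η₀ := by
      intro ρ hρ0 hρδ
      obtain ⟨N₁, hN₁⟩ := hD (r / 4) (by positivity)
      obtain ⟨N₂, hN₂⟩ : ∃ N₂ : ℕ, ∀ N : ℕ, N₂ ≤ N → 2 + |y₀| + 1 ≤ (N:ℝ) ^ (δ - ρ) := by
        have h1 := (tendsto_rpow_atTop (show 0 < δ - ρ by linarith)).comp
          (tendsto_natCast_atTop_atTop (R := ℝ))
        have h2 := h1.eventually_ge_atTop (2 + |y₀| + 1)
        rw [eventually_atTop] at h2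
        exact h2
      obtain ⟨N₃, hN₃⟩ : ∃ N₃ : ℕ, ∀ N : ℕ, N₃ ≤ N → 1 / (r * p) ≤ Real.log N := by
        have h1 := Real.tendsto_log_atTop.comp (tendsto_natCast_atTop_atTop (R := ℝ))
        have h2 := h1.eventually_ge_atTop (1 / (r * p))
        rw [eventually_atTop] at h2
        exact h2
      set N₀ : ℕ := max (max N₁ N₂) (max N₃ 2) with hN₀
      have hex : ∀ N : ℕ, N₀ ≤ N → ∀ c : ℝ, |c| ≤ 2 * (N:ℝ) ^ ρ → ∃ s : Finset ℝ,
          (∀ x ∈ s, |x - c| ≤ 3 / 4 * r) ∧ 4 * r * (p * Real.log N) ≤ s.card ∧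
          ∑ x ∈ s, ∑ y ∈ s.erase x, Real.log (2 * r / |x - y|) ≤
            η₀ * s.card * (p * Real.log N) ∧ (s.card : ℝ) ≤ 5 * (r * (p * Real.log N)) ∧
          ∀ x ∈ s, ∑ i ∈ F N, v N i * G L i x ^ q ≤ k * (N:ℝ) ^ (κ + η₀) := by
        intro N hN c hc
        have hN1 : N₁ ≤ N := ((le_max_left _ _).trans (le_max_left _ _)).trans hN
        have hN2 : N₂ ≤ N := ((le_max_right _ _).trans (le_max_left _ _)).trans hN
        have hN3 : N₃ ≤ N := ((le_max_left _ _).trans (le_max_right _ _)).trans hN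
        have hN4 : 2 ≤ N := ((le_max_right _ _).trans (le_max_right _ _)).trans hN
        have hNr : (2:ℝ) ≤ N := by exact_mod_cast hN4
        have hNp : (0:ℝ) < N := by linarith
        have hNρ : 1 ≤ (N:ℝ) ^ ρ := Real.one_le_rpow (by linarith) hρ0.le
        have h1 : 2 * (N:ℝ) ^ ρ + |y₀| + 1 ≤ (N:ℝ) ^ δ := by
          have h2 := hN₂ N hN2
          calc 2 * (N:ℝ) ^ ρ + |y₀| + 1 ≤ (2 + |y₀| + 1) * (N:ℝ) ^ ρ := by
                nlinarith [abs_nonneg y₀]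
            _ ≤ (N:ℝ) ^ (δ - ρ) * (N:ℝ) ^ ρ := by gcongr
            _ = _ := by rw [← Real.rpow_add hNp]; congr 1; ring
        obtain ⟨t, htD, ht⟩ := hN₁ N hN1 (c - y₀) (by
          have := abs_sub c y₀
          linarith)
        have htb : |t| ≤ (N:ℝ) ^ δ := by
          have h2 : |t| ≤ |t - (c - y₀)| + |c - y₀| := by
            have := abs_add_le (t - (c - y₀)) (c - y₀)
            rwa [sub_add_cancel] at this
          have := abs_sub c y₀
          linarith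
        have hL : 1 ≤ r * (p * Real.log N) := by
          have h5 := hN₃ N hN3
          rw [div_le_iff₀ (by positivity)] at h5
          linarith
        obtain ⟨s, hs1, hs2, hs3⟩ := hconf ⌈4 * r * (p * Real.log N)⌉₊
        obtain ⟨s', h5, h6, h8, h7⟩ := conf_shift' (s := s) (y₀ := y₀) (a := t) (T := c)
          (Λ := p * Real.log N) hr0 hη₀
          (fun x hx => (hs2 x hx).2) (by rwa [show t + y₀ - c = t - (c - y₀) by ring])
          (by rw [hs1]; exact hs3) hL hs1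
        refine ⟨s', fun x hx => (h5 x hx).1, h6, h7, h8, fun x hx => ?_⟩
        obtain ⟨_, α, hα, rfl⟩ := h5 x hx
        exact (hs2 α hα).1.1 N hN4 t htD htb
      choose! s hs using hex
      refine ⟨N₀, s, fun N hN c hc => ⟨(hs N hN c hc).1, (hs N hN c hc).2.1, (hs N hN c hc).2.2.1⟩,
        fun ε hε => ?_⟩
      refine ⟨5 * (r * p) * (1 / ε) * k, fun N hN hN2 c hc => ?_⟩
      obtain ⟨-, -, -, h1, h2⟩ := hs N hN c hc
      have hNr : (2:ℝ) ≤ N := by exact_mod_cast hN2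
      have hNp : (0:ℝ) < N := by linarith
      have hlog : Real.log N ≤ (N:ℝ) ^ ε / ε := Real.log_le_rpow_div hNp.le hε
      have hlog0 : 0 ≤ Real.log N := Real.log_nonneg (by linarith)
      have hk0 : (0:ℝ) ≤ k := Nat.cast_nonneg k
      calc ∑ x ∈ s N c, ∑ i ∈ F N, v N i * G L i x ^ q ≤ ∑ _x ∈ s N c, k * (N:ℝ) ^ (κ + η₀) :=
            Finset.sum_le_sum h2
        _ = (s N c).card * (k * (N:ℝ) ^ (κ + η₀)) := by rw [Finset.sum_const, nsmul_eq_mul]
        _ ≤ (5 * (r * (p * Real.log N))) * (k * (N:ℝ) ^ (κ + η₀)) := by gcongr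
        _ ≤ (5 * (r * (p * ((N:ℝ) ^ ε / ε)))) * (k * (N:ℝ) ^ (κ + η₀)) := by gcongr
        _ = 5 * (r * p) * (1 / ε) * k * ((N:ℝ) ^ (κ + η₀) * (N:ℝ) ^ ε) := by ring
        _ = _ := by rw [← Real.rpow_add hNp]
    have hF' : WFam L F v p C m K δ (κ + η₀) := ⟨hF.v0, hF.ld, fun ε hε => by
      obtain ⟨B, hB⟩ := hF.mass ε hε
      refine ⟨|B|, fun N hN => (hB N hN).trans ?_⟩
      have hNr : (1:ℝ) ≤ N := by exact_mod_cast (by omega : 1 ≤ N)
      calc B * (N:ℝ) ^ (κ + ε) ≤ |B| * (N:ℝ) ^ (κ + ε) := by gcongr; exact le_abs_self B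
        _ ≤ _ := by gcongr; linarith⟩
    exact iterF hu hF' hp hq (by linarith) hr0 hr8 hη₀ hSM
  intro ρ h0 h1 ε hε
  set η₀ : ℝ := ε / (2 * (1 + 2 * p * q)) with hη₀
  have hη0 : 0 < η₀ := by positivity
  obtain ⟨B, hB⟩ := main η₀ hη0 ρ h0 h1 (ε / 2) (by positivity)
  refine ⟨B, fun N hN μ hμ => ?_⟩
  have := hB N hN μ hμ
  rwa [show κ + η₀ + 2 * η₀ * p * q + ε / 2 = κ + ε by rw [hη₀]; field_simp; ring] at this

end Pool.Agent.X114.FM
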