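import Pool.Agent.X114.TS3

/-! A local form of the bound for the zeta function on discs, and the pointwise inequality. -/

set_option autoImplicit false

open MeasureTheory Filter Topology Set Real

namespace Pool.Agent.X114.TM

open Pool.Agent.H983R4.LH Pool.Agent.H983R4.GL Pool.Agent.H983R4.GL.Z Pool.Agent.X114.TS

/-- the bound on discs by the maximum on the critical line nearby -/
lemma disc_loc {ω : ℝ} (hω : 0 < ω) :
    ∃ C : ℝ, ∀ T : ℝ, 8 ≤ T → ∀ M : ℝ, 1 ≤ M →
      (∀ u : ℝ, |u - T| ≤ T ^ ω → ‖riemannZeta (1 / 2 + (u : ℂ) * Complex.I)‖ ≤ M) →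
      ∀ x y : ℝ, |x| ≤ 1 / 2 → |y| ≤ 1 / 2 →
      log⁺ ‖FT T (1 / 2 + x + ((T + y : ℝ) : ℂ) * Complex.I)‖ ≤
        C + Real.log M + max 0 (-x) * Real.log T := by
  have hpi := Real.pi_pos
  have hl2 := log2_pos
  have hC0 := C0_nonneg
  obtain ⟨θ, hθ0, hθ, -⟩ := leastZ
  obtain ⟨B, hB⟩ := hθ 1 one_pos
  obtain ⟨K, hK, hlz⟩ := lz
  set B₁ : ℝ := max 1 |B| with hB₁
  have hB1 : 1 ≤ B₁ := le_max_left _ _
  have hlB : 0 ≤ Real.log B₁ := Real.log_nonneg hB1
  set m' : ℝ := 1 + (θ + 1) * (1 + 1 / ω) with hm'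
  have hm'0 : 0 ≤ m' := by positivity
  set c₁ : ℝ := Real.log 2 + Real.log B₁ + (θ + 1) * Real.log 2 with hc₁
  have hc1 : 0 ≤ c₁ := by rw [hc₁]; positivity
  refine ⟨K + (c₁ + m' * Real.log 2 + m' * C0 / (2 * π)) + Real.log 2,
    fun T hT8 M hM hMb x y hx hy => ?_⟩
  have hT0 : 0 < T := by linarith
  set ℓ : ℝ := Real.log T with hℓ
  have hℓ0 : 0 ≤ ℓ := Real.log_nonneg (by linarith)
  have hlM : 0 ≤ Real.log M := Real.log_nonneg hM
  set A : ℝ := c₁ + Real.log M with hA
  have e0 : ∀ x : ℝ, (1 / 2 + (x : ℂ) * Complex.I) ≠ 1 := fun x => ne_one_of_re (by simp; norm_num)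
  have b0 : ∀ x : ℝ, ‖(1 / 2 + (x : ℂ) * Complex.I) - 1‖ ≤ 1 / 2 + |x| := by
    intro x
    refine (Complex.norm_le_abs_re_add_abs_im _).trans ?_
    have e1 : ((1 / 2 + (x : ℂ) * Complex.I) - 1).re = -(1 / 2) := by simp; norm_num
    have e2 : ((1 / 2 + (x : ℂ) * Complex.I) - 1).im = x := by simp
    rw [e1, e2, abs_neg, abs_of_pos (by norm_num : (0:ℝ) < 1 / 2)]
  have habs : ∀ x : ℝ, 1 + |x| ≤ 2 * (1 + |x - T|) * T := by
    intro x
    have h3 : |x| ≤ |x - T| + T := by
      have := abs_sub_abs_le_abs_sub x T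
      rw [abs_of_pos hT0] at this
      linarith
    nlinarith [abs_nonneg (x - T)]
  have hline : ∀ x : ℝ, log⁺ ‖FT T (1 / 2 + (x : ℂ) * Complex.I)‖ ≤
      A + m' * Real.log (1 + |x - T|) := by
    intro x
    have hx0 : 0 ≤ |x - T| := abs_nonneg _
    have g1 := FT_le hT0 (c := 2 * (1 + |x - T|)) (by linarith) (e0 x)
      ((b0 x).trans (by linarith [habs x]))
    have h8 : Real.log (2 * (1 + |x - T|)) = Real.log 2 + Real.log (1 + |x - T|) :=
      Real.log_mul (by norm_num) (by positivity)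
    have h0 : 0 ≤ Real.log (1 + |x - T|) := Real.log_nonneg (by linarith)
    rcases le_or_gt |x - T| (T ^ ω) with hc | hc
    · have h5 := posLog_le_posLog (norm_nonneg _) (hMb x hc)
      rw [posLog_eq_log (x := M) (by rw [abs_of_nonneg (by linarith)]; exact hM)] at h5
      have h11 : 0 ≤ (θ + 1) * (1 + 1 / ω) * Real.log (1 + |x - T|) := by positivity
      have h12 : 0 ≤ (θ + 1) * Real.log 2 := by positivity
      rw [hA, hm', hc₁]
      linarith
    · have h3 := hB x
      have h4 : ‖riemannZeta (1 / 2 + (x : ℂ) * Complex.I)‖ ≤ B₁ * (1 + |x|) ^ (θ + 1) := by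
        refine h3.trans (mul_le_mul_of_nonneg_right ?_ (by positivity))
        exact (le_abs_self B).trans (le_max_right _ _)
      have h5 := posLog_le_posLog (norm_nonneg _) h4
      have h6 : log⁺ (B₁ * (1 + |x|) ^ (θ + 1)) = Real.log B₁ + (θ + 1) * Real.log (1 + |x|) := by
        have h7 : 1 ≤ (1 + |x|) ^ (θ + 1) := Real.one_le_rpow (by linarith [abs_nonneg x]) (by linarith)
        rw [posLog_eq_log, Real.log_mul (by positivity) (by positivity), Real.log_rpow (by positivity)]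
        rw [abs_of_nonneg (by positivity)]
        nlinarith
      have h9 : Real.log (1 + |x|) ≤ Real.log 2 + Real.log (1 + |x - T|) + ℓ := by
        have h10 := Real.log_le_log (by positivity) (habs x)
        rw [Real.log_mul (by positivity) hT0.ne', h8] at h10
        exact h10
      have h10 : ℓ ≤ 1 / ω * Real.log (1 + |x - T|) := by
        have h11 : ω * ℓ ≤ Real.log (1 + |x - T|) := by
          rw [hℓ, ← Real.log_rpow hT0]
          exact Real.log_le_log (by positivity) (by linarith)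
        calc ℓ = 1 / ω * (ω * ℓ) := by field_simp
          _ ≤ _ := by gcongr
      have h11 := mul_le_mul_of_nonneg_left (h9.trans (add_le_add_right h10 _)) (by linarith : 0 ≤ θ + 1)
      rw [hA, hm', hc₁]
      nlinarith
  have hLZ := hlz T hT8
  have hy' := abs_le.1 hy
  have hx' := abs_le.1 hx
  have hq : 0 ≤ m' * C0 / (2 * π) := by positivity
  -- on the right of the line
  have hright : ∀ a : ℝ, 0 ≤ a → a ≤ 1 / 2 →
      log⁺ ‖FT T (1 / 2 + a + ((T + y : ℝ) : ℂ) * Complex.I)‖ ≤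
        A + m' * Real.log 2 + m' * C0 / (2 * π) := by
    intro a ha0 ha1
    rcases eq_or_lt_of_le ha0 with h | h
    · rw [← h]
      have h1 := hline (T + y)
      have h2 : Real.log (1 + |T + y - T|) ≤ Real.log 2 := by
        apply Real.log_le_log (by positivity)
        rw [add_sub_cancel_left]
        linarith
      have h3 := mul_le_mul_of_nonneg_left h2 hm'0
      rw [Complex.ofReal_zero, add_zero]
      linarith
    · have h1 := inner2 hLZ (A := A) (m' := m') (κ := A) (h := 1 / 2) (a := a) (t := T + y) (E := ∅)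
        hm'0 hline MeasurableSet.empty (fun x hx => absurd hx (notMem_empty x))
        (fun x hx => absurd hx (notMem_empty x)) le_rfl (by norm_num) h ha1
        (by rw [add_sub_cancel_left]; exact hy)
      rw [measure_empty, ENNReal.toReal_zero, mul_zero, zero_div, sub_zero] at h1
      exact h1
  rcases le_total 0 x with h | h
  · have h1 := hright x h hx'.2
    rw [max_eq_left (by linarith), zero_mul, add_zero]
    linarith
  · have h1 := hright (-x) (by linarith) (by linarith)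
    have h2 := hLZ.r (-x) (T + y) (by linarith) (by linarith) (by
      rw [add_sub_cancel_left]; linarith)
    have e : (1 / 2 - ((-x : ℝ) : ℂ) + ((T + y : ℝ) : ℂ) * Complex.I) =
        1 / 2 + x + ((T + y : ℝ) : ℂ) * Complex.I := by push_cast; ring
    rw [e] at h2
    rw [max_eq_right (by linarith)]
    have h3 : -x * (ℓ + 1 * Real.log 2) ≤ -x * ℓ + Real.log 2 := by nlinarith
    linarith

/-- the local bound on discs -/
lemma disc_bound' {ω : ℝ} (hω : 0 < ω) :
    ∃ C : ℝ, 0 < C ∧ ∀ T : ℝ, 8 ≤ T → ∀ M : ℝ, 1 ≤ M →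
      (∀ u : ℝ, |u - T| ≤ T ^ ω → ‖riemannZeta (1 / 2 + (u : ℂ) * Complex.I)‖ ≤ M) →
      ∀ R : ℝ, 0 < R → R ≤ 1 / 2 → ∀ z : ℂ, ‖z‖ ≤ R →
      ‖f T z‖ ≤ C * M * Real.exp (R / 2 * Real.log T) := by
  obtain ⟨C, hC⟩ := disc_loc hω
  refine ⟨Real.exp C, Real.exp_pos _, fun T hT M hM hMb R hR hR2 z hz => ?_⟩
  have hℓ0 : 0 ≤ Real.log T := Real.log_nonneg (by linarith)
  have hx : |z.re| ≤ R := (Complex.abs_re_le_norm z).trans hz
  have hy : |z.im| ≤ R := (Complex.abs_im_le_norm z).trans hz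
  have h1 := hC T hT M hM hMb z.re z.im (by linarith) (by linarith)
  have e : (1 / 2 + T * Complex.I + z : ℂ) = 1 / 2 + z.re + ((T + z.im : ℝ) : ℂ) * Complex.I := by
    apply Complex.ext <;> simp
  have eM : Real.exp C * M = Real.exp (C + Real.log M) := by
    rw [Real.exp_add, Real.exp_log (by linarith)]
  rw [f_norm, e, eM, ← Real.exp_add]
  have h2 : ‖FT T (1 / 2 + z.re + ((T + z.im : ℝ) : ℂ) * Complex.I)‖ ≤
      Real.exp (C + Real.log M + max 0 (-z.re) * Real.log T) := by
    have h3 : ∀ w : ℝ, 0 ≤ w → w ≤ Real.exp (log⁺ w) := by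
      intro w hw
      rcases eq_or_lt_of_le hw with h | h
      · rw [← h]; positivity
      · calc w = Real.exp (Real.log w) := (Real.exp_log h).symm
          _ ≤ _ := Real.exp_le_exp.2 (le_max_right _ _)
    exact (h3 _ (norm_nonneg _)).trans (Real.exp_le_exp.2 h1)
  refine (mul_le_mul_of_nonneg_right h2 (Real.exp_pos _).le).trans ?_
  rw [← Real.exp_add]
  apply Real.exp_le_exp.2
  have h4 : max 0 (-z.re) * Real.log T + Real.log T / 2 * z.re ≤ R / 2 * Real.log T := by
    have hx' := abs_le.1 hx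
    rcases le_total 0 z.re with h | h
    · rw [max_eq_left (by linarith)]; nlinarith
    · rw [max_eq_right (by linarith)]; nlinarith
  linarith

/-- **The pointwise inequality.** -/
theorem pointwise {ω : ℝ} (hω : 0 < ω) :
    ∃ C : ℝ, 0 < C ∧ ∀ r η : ℝ, 0 < r → r ≤ 1 / 8 → 0 < η → ∀ T : ℝ, 8 ≤ T → ∀ M : ℝ, 1 ≤ M →
      (∀ u : ℝ, |u - T| ≤ T ^ ω → ‖riemannZeta (1 / 2 + (u : ℂ) * Complex.I)‖ ≤ M) →
      ∀ (s : Finset ℝ) (a : ℝ), (∀ x ∈ s, |x - T| ≤ r) → 4 * r * Real.log T ≤ s.card →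
      ∑ x ∈ s, ∑ y ∈ s.erase x, Real.log (2 * r / |x - y|) ≤ η * s.card * Real.log T →
      (∀ x ∈ s, ‖riemannZeta (1 / 2 + (x : ℂ) * Complex.I)‖ ≤ a) →
      ‖riemannZeta (1 / 2 + (T : ℂ) * Complex.I)‖ ≤
        C * M * T ^ (-(0.18 * r)) + 2 * a * T ^ (2 * η) := by
  obtain ⟨C, hC, h⟩ := disc_bound' hω
  refine ⟨C, hC, fun r η hr hr8 hη T hT M hM hMb s a hs hcard hE ha => ?_⟩
  have hT0 : 0 < T := by linarith
  set L : ℝ := Real.log T with hL
  have hL0 : 0 < L := Real.log_pos (by linarith)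
  have hne : s.Nonempty := by
    rw [← Finset.card_pos]
    have : (0:ℝ) < s.card := lt_of_lt_of_le (by positivity) hcard
    exact_mod_cast this
  obtain ⟨x₀, hx₀⟩ := hne
  have ha0 : 0 ≤ a := (norm_nonneg _).trans (ha x₀ hx₀)
  have e1 : T ^ (-(0.18 * r)) = Real.exp (-(0.18 * r * L)) := by
    rw [Real.rpow_def_of_pos hT0]; congr 1; ring
  have e2 : T ^ (2 * η) = Real.exp (2 * η * L) := by
    rw [Real.rpow_def_of_pos hT0]; congr 1; ring
  rw [e1, e2]
  by_cases hTs : T ∈ s
  · have h1 := ha T hTs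
    have h3 : 1 ≤ Real.exp (2 * η * L) := Real.one_le_exp (by positivity)
    have h5 : 0 ≤ C * M * Real.exp (-(0.18 * r * L)) := by positivity
    nlinarith
  · refine (f_zero hT).trans ?_
    refine (window (f_diff T) hr hη hL0 (M := C * M * Real.exp (2 * r * L)) (a := 2 * a) ?_
      (by positivity) hs hTs ?_ hcard hE).trans ?_
    · intro z hz
      have h1 := h T hT M hM hMb (4 * r) (by positivity) (by linarith) z hz.le
      rwa [show 4 * r / 2 = 2 * r by ring] at h1
    · intro x hx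
      have hx' := hs x hx
      have h1 := f_line hT (y := x - T) (hx'.trans (by linarith))
      rw [add_sub_cancel] at h1
      exact h1.trans (mul_le_mul_of_nonneg_left (ha x hx) (by norm_num))
    · rw [mul_assoc (C * M), ← Real.exp_add]
      gcongr
      nlinarith

end Pool.Agent.X114.TM
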