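import Pool.Agent.X114.TM3

/-! Moments: sampled sums and integrals. -/

set_option autoImplicit false

open Filter Topology Set Real MeasureTheory

namespace Pool.Agent.X114.TM

open Pool.Agent.X114.TS (w configs w_meas)

/-- the sampled moments -/
def SampleBound (t : ℕ → ℝ) (q κ α : ℝ) : Prop := ∀ ε : ℝ, 0 < ε → ∃ C : ℝ, ∀ T : ℝ, 1 ≤ T →
  ∀ F : Finset ℕ, (∀ n ∈ F, T ≤ t n ∧ t n ≤ 2 * T) → ∑ n ∈ F, Z (t n + α) ^ q ≤ C * T ^ (κ + ε)

/-- the moments -/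
def MomentBound (q κ : ℝ) : Prop := ∀ ε : ℝ, 0 < ε → ∃ C : ℝ, ∀ T : ℝ, 1 ≤ T →
  ∫ x in T..(2 * T), Z x ^ q ≤ C * T ^ (κ + ε)

lemma Zq_cont {q : ℝ} (hq : 0 < q) : Continuous fun x : ℝ => Z x ^ q :=
  Z_cont.rpow_const fun _ => Or.inr hq.le

lemma Zq_nonneg (q x : ℝ) : 0 ≤ Z x ^ q := Real.rpow_nonneg (Z_nonneg x) q

/-- a bound for double sums over configurations -/
lemma sum_conf {s : ℕ → Finset ℝ} (hs : ∀ n, (s n).card = n) {n : ℕ → ℕ} {I : Finset ℕ} {K : ℕ}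
    (hn : ∀ m ∈ I, n m ≤ K) {G : ℕ → ℝ → ℝ} (hG : ∀ m x, 0 ≤ G m x) {V : ℝ}
    (hV : ∀ k, ∀ x ∈ s k, ∑ m ∈ I, G m x ≤ V) :
    ∑ m ∈ I, ∑ x ∈ s (n m), G m x ≤ (K + 1) ^ 2 * V := by
  classical
  have h1 : ∀ m ∈ I, ∑ x ∈ s (n m), G m x ≤ ∑ k ∈ Finset.range (K + 1), ∑ x ∈ s k, G m x := by
    intro m hm
    exact Finset.single_le_sum (f := fun k => ∑ x ∈ s k, G m x)
      (fun k _ => Finset.sum_nonneg fun x _ => hG m x)
      (Finset.mem_range.2 (Nat.lt_succ_of_le (hn m hm)))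
  refine (Finset.sum_le_sum h1).trans ?_
  rw [Finset.sum_comm]
  have h2 : ∀ k ∈ Finset.range (K + 1), ∑ m ∈ I, ∑ x ∈ s k, G m x ≤ (K + 1) * max V 0 := by
    intro k hk
    rw [Finset.sum_comm]
    refine (Finset.sum_le_sum (g := fun _ => max V 0) fun x hx => (hV k x hx).trans (le_max_left _ _)).trans ?_
    rw [Finset.sum_const, hs, nsmul_eq_mul]
    have hkr : (k:ℝ) ≤ K + 1 := by
      have := Finset.mem_range.1 hk
      exact_mod_cast this.le
    exact mul_le_mul_of_nonneg_right hkr (le_max_right _ _)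
  by_cases hV0 : 0 ≤ V
  · refine (Finset.sum_le_sum h2).trans ?_
    rw [Finset.sum_const, Finset.card_range, nsmul_eq_mul, max_eq_left hV0]
    push_cast
    apply le_of_eq
    ring
  · -- then all configurations are empty
    have h3 : ∀ k ∈ Finset.range (K + 1), ∑ m ∈ I, ∑ x ∈ s k, G m x = 0 := by
      intro k _
      rcases (s k).eq_empty_or_nonempty with h | ⟨x, hx⟩
      · simp [h]
      · exfalso
        have h4 := hV k x hx
        have h5 : 0 ≤ ∑ m ∈ I, G m x := Finset.sum_nonneg fun m _ => hG m x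
        linarith
    exfalso
    obtain ⟨x, hx⟩ : (s 1).Nonempty := by
      rw [← Finset.card_pos, hs]; norm_num
    have h4 := hV 1 x hx
    have h5 : 0 ≤ ∑ m ∈ I, G m x := Finset.sum_nonneg fun m _ => hG m x
    linarith

/-- sums over a map with small fibres -/
lemma fibre_sum {ν : ℕ → ℕ} {I : Finset ℕ} {g : ℕ → ℝ} (hg : ∀ n, 0 ≤ g n)
    (hf : ∀ m ∈ I, ∀ m' ∈ I, ν m = ν m' → m ≤ m' → m' ≤ m + 2) :
    ∑ m ∈ I, g (ν m) ≤ 3 * ∑ n ∈ I.image ν, g n := by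
  classical
  rw [Finset.sum_comp, Finset.mul_sum]
  apply Finset.sum_le_sum
  intro n hn
  rw [nsmul_eq_mul]
  apply mul_le_mul_of_nonneg_right _ (hg n)
  set J := I.filter fun a => ν a = n with hJ
  have hne : J.Nonempty := by
    obtain ⟨m, hm, rfl⟩ := Finset.mem_image.1 hn
    exact ⟨m, Finset.mem_filter.2 ⟨hm, rfl⟩⟩
  have hmin := Finset.min'_mem J hne
  have hsub : J ⊆ Finset.Icc (J.min' hne) (J.min' hne + 2) := by
    intro m hm
    rw [Finset.mem_Icc]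
    have h1 := Finset.min'_le J m hm
    refine ⟨h1, ?_⟩
    have hm' := Finset.mem_filter.1 hm
    have hmin' := Finset.mem_filter.1 hmin
    exact hf _ hmin'.1 m hm'.1 (hmin'.2.trans hm'.2.symm) h1
  have h2 := Finset.card_le_card hsub
  rw [Nat.card_Icc] at h2
  have h3 : J.card ≤ 3 := by omega
  exact_mod_cast h3

/-- **Configurations from sampled sums.** -/
theorem samp_seq {u : ℕ → ℝ} (hu : IsMax u) {q κ r y₀ η : ℝ} (hκ : 0 ≤ κ)
    (hr : 0 < r) (hr8 : r ≤ 1 / 8) (hη : 0 < η) {t : ℕ → ℝ} (ht : Tendsto t atTop atTop)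
    (hgap : Tendsto (fun n => t (n + 1) - t n) atTop (𝓝 0)) {A : Set ℝ} {K₀ : ℝ}
    (hA : ∀ α ∈ A, ∀ T : ℝ, 1 ≤ T → ∀ F : Finset ℕ, (∀ n ∈ F, T ≤ t n ∧ t n ≤ 2 * T) →
      ∑ n ∈ F, Z (t n + α) ^ q ≤ K₀ * T ^ κ)
    (hconf : ∀ n : ℕ, ∃ s : Finset ℝ, s.card = n ∧ (∀ x ∈ s, x ∈ A ∧ |x - y₀| ≤ r / 2) ∧
      ∑ x ∈ s, ∑ y ∈ s.erase x, Real.log (2 * r / |x - y|) ≤ η / (5 * r) * n ^ 2) :
    Samp u q κ r η := by
  classical
  choose s hs1 hs2 hs3 using hconf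
  obtain ⟨n₀, hn₀⟩ := eventually_atTop.1 (hgap.eventually (gt_mem_nhds (show (0:ℝ) < r / 2 by positivity)))
  set m₀ : ℕ := ⌈max (t n₀ + y₀) (Real.exp (1 / r))⌉₊ + 2 with hm₀
  -- the translates
  have hν : ∀ m : ℕ, ∃ n : ℕ, m₀ ≤ m → |t n + y₀ - u m| ≤ r / 2 := by
    intro m
    by_cases hm : m₀ ≤ m
    · have hmr : (m₀:ℝ) ≤ m := by exact_mod_cast hm
      have h1 : max (t n₀ + y₀) (Real.exp (1 / r)) + 2 ≤ m₀ := by
        rw [hm₀]; push_cast
        have := Nat.le_ceil (max (t n₀ + y₀) (Real.exp (1 / r)))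
        linarith
      have h2 := abs_le.1 (hu m).1
      have hT1 : t n₀ ≤ u m - y₀ := by linarith [le_max_left (t n₀ + y₀) (Real.exp (1 / r))]
      have hex : ∃ k : ℕ, u m - y₀ < t (n₀ + k) := by
        have h1 : ∀ᶠ n in atTop, u m - y₀ < t n := ht.eventually (eventually_gt_atTop _)
        obtain ⟨a, ha⟩ := eventually_atTop.1 h1
        exact ⟨a, ha (n₀ + a) (by omega)⟩
      set k := Nat.find hex with hk
      have hk1 : u m - y₀ < t (n₀ + k) := Nat.find_spec hex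
      have hk0 : k ≠ 0 := by
        intro h
        rw [h, add_zero] at hk1
        linarith
      obtain ⟨l, hl⟩ := Nat.exists_eq_succ_of_ne_zero hk0
      have h3 : ¬ u m - y₀ < t (n₀ + l) := Nat.find_min hex (by rw [← hk, hl]; exact Nat.lt_succ_self l)
      refine ⟨n₀ + l, fun _ => ?_⟩
      have h4 := hn₀ (n₀ + l) (by omega)
      rw [hl] at hk1
      have h5 : n₀ + l.succ = n₀ + l + 1 := by omega
      rw [h5] at hk1
      rw [abs_le]
      push Not at h3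
      constructor <;> linarith
    · exact ⟨0, fun h => absurd h hm⟩
  choose ν hν using hν
  have hLm : ∀ m : ℕ, m₀ ≤ m → 1 ≤ r * Real.log (u m) := by
    intro m hm
    have hmr : (m₀:ℝ) ≤ m := by exact_mod_cast hm
    have h1 : max (t n₀ + y₀) (Real.exp (1 / r)) + 2 ≤ m₀ := by
      rw [hm₀]; push_cast
      have := Nat.le_ceil (max (t n₀ + y₀) (Real.exp (1 / r)))
      linarith
    have h2 := abs_le.1 (hu m).1
    have h3 : Real.exp (1 / r) ≤ u m := by linarith [le_max_right (t n₀ + y₀) (Real.exp (1 / r))]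
    have hTp : 0 < u m := (Real.exp_pos _).trans_le h3
    have hL : 1 / r ≤ Real.log (u m) := by rwa [Real.le_log_iff_exp_le hTp]
    rw [div_le_iff₀ hr] at hL
    linarith
  set k : ℕ → ℕ := fun m => ⌈4 * r * Real.log (u m)⌉₊ with hk
  have hS : ∀ m : ℕ, ∃ s' : Finset ℝ, (m₀ ≤ m → (∀ x ∈ s', |x - u m| ≤ r) ∧
      4 * r * Real.log (u m) ≤ s'.card ∧
      ∑ x ∈ s', ∑ y ∈ s'.erase x, Real.log (2 * r / |x - y|) ≤ η * s'.card * Real.log (u m)) ∧
      ∑ x ∈ s', Z x ^ q ≤ if m₀ ≤ m then ∑ x ∈ s (k m), Z (t (ν m) + x) ^ q else 0 := by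
    intro m
    by_cases hm : m₀ ≤ m
    · obtain ⟨s', h1, h2, h3, h4⟩ := conf_shift (s := s (k m)) (y₀ := y₀) (a := t (ν m)) (T := u m)
        hr hη (fun x hx => (hs2 _ x hx).2) (hν m hm) (by rw [hs1]; exact hs3 (k m)) (hLm m hm) (hs1 _)
      refine ⟨s', fun _ => ⟨h1, h2, h3⟩, ?_⟩
      rw [if_pos hm, h4 fun x => Z x ^ q]
    · exact ⟨∅, fun h => absurd h hm, by rw [if_neg hm]; simp⟩
  choose s' hs' hs'' using hS
  refine ⟨m₀, s', hs', fun ε hε => ?_⟩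
  apply fin_fix (by linarith)
  obtain ⟨C, hC, hlog⟩ := log_small (c := 4 * r) (δ := ε / 2) (by positivity) (by positivity)
  have hy := abs_nonneg y₀
  refine ⟨C ^ 2 * (3 * (3 * (|K₀| * 2 ^ κ))), ⌈2 * |y₀|⌉₊ + 8, fun N hN hN1 => ?_⟩
  have hNr : (N:ℝ) ≥ 2 * |y₀| + 8 := by
    have h1 : ((⌈2 * |y₀|⌉₊ + 8 : ℕ) : ℝ) ≤ N := by exact_mod_cast hN
    push_cast at h1
    have := Nat.le_ceil (2 * |y₀|)
    linarith
  have hN0 : (0:ℝ) < N := by linarith
  set I : Finset ℕ := (Finset.Ico N (2 * N)).filter fun m => m₀ ≤ m with hI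
  have h1 : ∑ m ∈ Finset.Ico N (2 * N), ∑ x ∈ s' m, Z x ^ q ≤
      ∑ m ∈ I, ∑ x ∈ s (k m), Z (t (ν m) + x) ^ q := by
    refine (Finset.sum_le_sum fun m _ => hs'' m).trans ?_
    rw [hI, Finset.sum_filter]
  set K : ℕ := ⌈4 * r * Real.log (3 * N)⌉₊ with hK
  have hum : ∀ m ∈ I, (N:ℝ) - 1 ≤ u m ∧ u m ≤ 2 * N := by
    intro m hm
    rw [hI, Finset.mem_filter, Finset.mem_Ico] at hm
    have hmr : (N:ℝ) ≤ m := by exact_mod_cast hm.1.1
    have hmr2 : (m:ℝ) + 1 ≤ 2 * N := by exact_mod_cast hm.1.2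
    have h2 := abs_le.1 (hu m).1
    constructor <;> linarith
  have h2 := sum_conf (s := s) hs1 (n := k) (I := I) (K := K) (by
    intro m hm
    have h3 := hum m hm
    rw [hK, hk]
    apply Nat.ceil_mono
    gcongr
    · linarith
    · linarith) (G := fun m x => Z (t (ν m) + x) ^ q) (fun m x => Zq_nonneg q _)
    (V := 3 * (3 * (|K₀| * (2 ^ κ * (N:ℝ) ^ κ)))) (by
    intro k' α hα
    have hαA := (hs2 k' α hα).1
    have h4 := fibre_sum (ν := ν) (I := I) (g := fun n => Z (t n + α) ^ q) (fun n => Zq_nonneg q _) (by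
      intro m hm m' hm' he _
      rw [hI, Finset.mem_filter] at hm hm'
      have a1 := abs_le.1 (hν m hm.2)
      have a2 := abs_le.1 (hν m' hm'.2)
      have a3 := abs_le.1 (hu m).1
      have a4 := abs_le.1 (hu m').1
      rw [← he] at a2
      have a5 : (m':ℝ) < m + 3 := by linarith
      have a6 : m' < m + 3 := by exact_mod_cast a5
      omega)
    refine h4.trans ?_
    gcongr
    -- the range of the sampling points
    set F := I.image ν with hF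
    have hFr : ∀ n ∈ F, (N:ℝ) / 2 ≤ t n ∧ t n ≤ 4 * N := by
      intro n hn
      obtain ⟨m, hm, rfl⟩ := Finset.mem_image.1 hn
      have b1 := hum m hm
      rw [hI, Finset.mem_filter] at hm
      have b2 := abs_le.1 (hν m hm.2)
      have b3 := abs_le.1 (le_refl |y₀|)
      constructor <;> linarith
    have hb : ∀ T : ℝ, 1 ≤ T → T ≤ 2 * N → ∑ n ∈ F.filter (fun n => T ≤ t n ∧ t n ≤ 2 * T),
        Z (t n + α) ^ q ≤ |K₀| * (2 ^ κ * (N:ℝ) ^ κ) := by
      intro T hT hT2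
      refine (hA α hαA T hT _ fun n hn => (Finset.mem_filter.1 hn).2).trans ?_
      rw [← Real.mul_rpow (by norm_num) hN0.le]
      calc K₀ * T ^ κ ≤ |K₀| * T ^ κ := by gcongr; exact le_abs_self K₀
        _ ≤ _ := by gcongr
    have hsub : F ⊆ F.filter (fun n => (N:ℝ) / 2 ≤ t n ∧ t n ≤ 2 * (N / 2)) ∪
        (F.filter (fun n => (N:ℝ) ≤ t n ∧ t n ≤ 2 * N) ∪
          F.filter (fun n => 2 * (N:ℝ) ≤ t n ∧ t n ≤ 2 * (2 * N))) := by
      intro n hn
      have h5 := hFr n hn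
      simp only [Finset.mem_union, Finset.mem_filter]
      rcases le_or_gt (t n) N with h6 | h6
      · left
        exact ⟨hn, h5.1, by linarith⟩
      · rcases le_or_gt (t n) (2 * N) with h7 | h7
        · right; left
          exact ⟨hn, h6.le, h7⟩
        · right; right
          exact ⟨hn, h7.le, by linarith⟩
    have hun : ∀ A B : Finset ℕ, ∑ x ∈ A ∪ B, Z (t x + α) ^ q ≤
        ∑ x ∈ A, Z (t x + α) ^ q + ∑ x ∈ B, Z (t x + α) ^ q := by
      intro A B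
      rw [← Finset.sum_union_inter]
      have := Finset.sum_nonneg (s := A ∩ B) fun x _ => Zq_nonneg q (t x + α)
      linarith
    have c1 := hb (N / 2) (by linarith) (by linarith)
    have c2 := hb N (by linarith) (by linarith)
    have c3 := hb (2 * N) (by linarith) le_rfl
    have c4 := (Finset.sum_le_sum_of_subset_of_nonneg (f := fun n => Z (t n + α) ^ q) hsub
      fun x _ _ => Zq_nonneg q _).trans ((hun _ _).trans (add_le_add_right (hun _ _) _))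
    linarith)
  refine h1.trans (h2.trans ?_)
  have h3 := hlog N hN1
  have h4 : ((K:ℝ) + 1) ^ 2 ≤ C ^ 2 * (N:ℝ) ^ ε := by
    have h5 : ((K:ℝ) + 1) ^ 2 ≤ (C * (N:ℝ) ^ (ε / 2)) ^ 2 := by gcongr
    rw [mul_pow, ← Real.rpow_natCast ((N:ℝ) ^ (ε / 2)), ← Real.rpow_mul hN0.le] at h5
    convert h5 using 3
    push_cast; ring
  calc ((K:ℝ) + 1) ^ 2 * (3 * (3 * (|K₀| * (2 ^ κ * (N:ℝ) ^ κ)))) ≤
      (C ^ 2 * (N:ℝ) ^ ε) * (3 * (3 * (|K₀| * (2 ^ κ * (N:ℝ) ^ κ)))) := by gcongr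
    _ = _ := by rw [Real.rpow_add hN0]; ring

end Pool.Agent.X114.TM
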