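import Mathlib

/-! Cauchy's formula for several simple poles and the resulting inequality. -/

set_option autoImplicit false

open Complex Metric Set

namespace Pool.Agent.X114.TS

/-- the partial fraction expansion of the reciprocal of a product of distinct linear factors -/
lemma partial_fractions {t : Finset ℂ} (ht : t.Nonempty) {z : ℂ} (hz : z ∉ t) :
    ∑ w ∈ t, Lagrange.nodalWeight t id w * (z - w)⁻¹ = (∏ w ∈ t, (z - w))⁻¹ := by
  have h1 := Lagrange.eval_interpolate_not_at_node (s := t) (v := (id : ℂ → ℂ)) (x := z)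
    (fun _ => (1 : ℂ)) (fun i hi h => hz (h ▸ hi))
  have h2 : Lagrange.interpolate t (id : ℂ → ℂ) (fun _ => (1 : ℂ)) = 1 :=
    Lagrange.interpolate_one (fun a _ b _ h => h) ht
  rw [h2, Polynomial.eval_one, Lagrange.eval_nodal] at h1
  simp only [mul_one, id] at h1
  have h3 : (∏ w ∈ t, (z - w)) ≠ 0 := by
    rw [Finset.prod_ne_zero_iff]
    intro w hw h
    exact hz (by rw [sub_eq_zero.1 h]; exact hw)
  exact eq_inv_of_mul_eq_one_right h1.symm

lemma cauchy_one {f : ℂ → ℂ} (hf : Differentiable ℂ f) {R : ℝ} {w : ℂ} (hw : ‖w‖ < R) :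
    (∮ z in C(0, R), (z - w)⁻¹ * f z) = 2 * Real.pi * I * f w := by
  have h := Complex.circleIntegral_sub_inv_smul_of_differentiable_on_off_countable
    (R := R) (c := 0) (w := w) (f := f) (s := ∅) countable_empty
    (by rw [mem_ball_zero_iff]; exact hw) hf.continuous.continuousOn (fun z _ => hf z)
  simpa [smul_eq_mul] using h

/-- the sum over simple poles -/
lemma cauchy_sum {f : ℂ → ℂ} (hf : Differentiable ℂ f) {R : ℝ} (hR : 0 < R) {t : Finset ℂ}
    (ht : t.Nonempty) (htR : ∀ w ∈ t, ‖w‖ < R) :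
    (∮ z in C(0, R), (∏ w ∈ t, (z - w))⁻¹ * f z) =
      2 * Real.pi * I * ∑ w ∈ t, Lagrange.nodalWeight t id w * f w := by
  have h1 : (∮ z in C(0, R), (∏ w ∈ t, (z - w))⁻¹ * f z) =
      ∮ z in C(0, R), ∑ w ∈ t, Lagrange.nodalWeight t id w * ((z - w)⁻¹ * f z) := by
    apply circleIntegral.integral_congr hR.le
    intro z hz
    have hz' : ‖z‖ = R := by simpa using hz
    have hzt : z ∉ t := fun h => by have := htR z h; linarith
    simp only
    rw [← partial_fractions ht hzt, Finset.sum_mul]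
    exact Finset.sum_congr rfl fun w _ => by ring
  have hci : ∀ w ∈ t, CircleIntegrable (fun z => Lagrange.nodalWeight t id w * ((z - w)⁻¹ * f z)) 0 R := by
    intro w hw
    apply ContinuousOn.circleIntegrable hR.le
    apply ContinuousOn.mul continuousOn_const
    apply ContinuousOn.mul _ hf.continuous.continuousOn
    apply ContinuousOn.inv₀ (by fun_prop)
    intro z hz h
    have hz' : ‖z‖ = R := by simpa using hz
    have := htR w hw
    rw [sub_eq_zero.1 h] at hz'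
    linarith
  rw [h1, circleIntegral.integral_fun_sum hci, Finset.mul_sum]
  refine Finset.sum_congr rfl fun w hw => ?_
  rw [circleIntegral.integral_const_mul, cauchy_one hf (htR w hw)]
  ring

/-- **the inequality** -/
theorem point_bound {f : ℂ → ℂ} (hf : Differentiable ℂ f) {R r M : ℝ} (hr : 0 < r) (hrR : r < R)
    (hM : ∀ z : ℂ, ‖z‖ = R → ‖f z‖ ≤ M) {s : Finset ℂ} (hs0 : (0 : ℂ) ∉ s)
    (hs : ∀ w ∈ s, ‖w‖ ≤ r) :
    ‖f 0‖ ≤ M * (r / (R - r)) ^ s.card +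
      ∑ w ∈ s, ‖f w‖ * (r ^ (s.card - 1) * ∏ v ∈ s.erase w, ‖w - v‖⁻¹) := by
  classical
  have hR : 0 < R := hr.trans hrR
  have hM0 : 0 ≤ M := (norm_nonneg _).trans (hM (R : ℂ) (by simp [abs_of_pos hR]))
  set t : Finset ℂ := insert 0 s with ht
  have htR : ∀ w ∈ t, ‖w‖ < R := by
    intro w hw
    rcases Finset.mem_insert.1 hw with h | h
    · rw [h, norm_zero]; exact hR
    · exact (hs w h).trans_lt hrR
  have htne : t.Nonempty := ⟨0, Finset.mem_insert_self _ _⟩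
  have h1 := cauchy_sum hf hR htne htR
  have hw0 : Lagrange.nodalWeight t id (0:ℂ) = ∏ v ∈ s, (0 - v)⁻¹ := by
    unfold Lagrange.nodalWeight
    rw [ht, Finset.erase_insert hs0]
    rfl
  have hww : ∀ w ∈ s, Lagrange.nodalWeight t id w = w⁻¹ * ∏ v ∈ s.erase w, (w - v)⁻¹ := by
    intro w hw
    have hne : w ≠ 0 := fun h => hs0 (h ▸ hw)
    unfold Lagrange.nodalWeight
    have h0 : (0:ℂ) ∉ s.erase w := fun h => hs0 (Finset.mem_of_mem_erase h)
    rw [ht, Finset.erase_insert_of_ne hne.symm, Finset.prod_insert h0]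
    simp
  -- the integral is small
  have h2 : ‖∮ z in C(0, R), (∏ w ∈ t, (z - w))⁻¹ * f z‖ ≤
      2 * Real.pi * R * ((R⁻¹ * ((R - r)⁻¹) ^ s.card) * M) := by
    apply circleIntegral.norm_integral_le_of_norm_le_const hR.le
    intro z hz
    have hz' : ‖z‖ = R := by simpa using hz
    rw [norm_mul, norm_inv, norm_prod, ht, Finset.prod_insert hs0, sub_zero, hz', mul_inv]
    have h3 : ((R - r)) ^ s.card ≤ ∏ w ∈ s, ‖z - w‖ := by
      rw [← Finset.prod_const]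
      apply Finset.prod_le_prod
      · intro w _; linarith
      · intro w hw
        have := norm_sub_norm_le z w
        have := hs w hw
        linarith
    have h4 : (∏ w ∈ s, ‖z - w‖)⁻¹ ≤ ((R - r)⁻¹) ^ s.card := by
      rw [inv_pow]
      exact inv_anti₀ (by have : 0 < R - r := by linarith
                          positivity) h3
    have h5 := hM z hz'
    have h6 : 0 ≤ (∏ w ∈ s, ‖z - w‖)⁻¹ := inv_nonneg.2 (Finset.prod_nonneg fun _ _ => norm_nonneg _)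
    have h7 : 0 < R - r := by linarith
    gcongr
  rw [h1] at h2
  have hsum : ∑ w ∈ t, Lagrange.nodalWeight t id w * f w =
      (∏ v ∈ s, (0 - v)⁻¹) * f 0 + ∑ w ∈ s, (w⁻¹ * ∏ v ∈ s.erase w, (w - v)⁻¹) * f w := by
    rw [ht, Finset.sum_insert hs0, ← ht, hw0]
    congr 1
    exact Finset.sum_congr rfl fun w hw => by rw [hww w hw]
  set Q : ℂ := ∑ w ∈ s, (w⁻¹ * ∏ v ∈ s.erase w, (w - v)⁻¹) * f w with hQ
  rw [hsum, norm_mul, norm_mul, norm_mul, Complex.norm_I, mul_one, Complex.norm_real,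
    Complex.norm_ofNat, Real.norm_eq_abs, abs_of_pos Real.pi_pos] at h2
  have h3 : ‖(∏ v ∈ s, (0 - v)⁻¹) * f 0 + Q‖ ≤ ((R - r)⁻¹) ^ s.card * M := by
    have h4 : 2 * Real.pi * R * ((R⁻¹ * ((R - r)⁻¹) ^ s.card) * M) =
        2 * Real.pi * (((R - r)⁻¹) ^ s.card * M) := by
      field_simp
    rw [h4] at h2
    exact le_of_mul_le_mul_left h2 (by positivity)
  have h4 : ‖(∏ v ∈ s, (0 - v)⁻¹) * f 0‖ ≤ ((R - r)⁻¹) ^ s.card * M + ‖Q‖ := by
    have := norm_sub_norm_le ((∏ v ∈ s, (0 - v)⁻¹) * f 0) (-Q)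
    rw [sub_neg_eq_add, norm_neg] at this
    linarith
  have hP : (∏ v ∈ s, ‖v‖) ≤ r ^ s.card := by
    rw [← Finset.prod_const]
    exact Finset.prod_le_prod (fun _ _ => norm_nonneg _) hs
  have hPpos : 0 < ∏ v ∈ s, ‖v‖ := Finset.prod_pos fun v hv => norm_pos_iff.2 fun h => hs0 (h ▸ hv)
  have h5 : ‖f 0‖ = (∏ v ∈ s, ‖v‖) * ‖(∏ v ∈ s, (0 - v)⁻¹) * f 0‖ := by
    rw [norm_mul, norm_prod]
    have : ∏ v ∈ s, ‖(0 - v)⁻¹‖ = (∏ v ∈ s, ‖v‖)⁻¹ := by
      rw [← Finset.prod_inv_distrib]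
      exact Finset.prod_congr rfl fun v _ => by simp
    rw [this]
    field_simp
  rw [h5]
  have h6 : (∏ v ∈ s, ‖v‖) * ‖(∏ v ∈ s, (0 - v)⁻¹) * f 0‖ ≤
      (∏ v ∈ s, ‖v‖) * (((R - r)⁻¹) ^ s.card * M) + (∏ v ∈ s, ‖v‖) * ‖Q‖ := by
    rw [← mul_add]
    exact mul_le_mul_of_nonneg_left h4 hPpos.le
  refine h6.trans (add_le_add ?_ ?_)
  · have h7 : 0 < R - r := by linarith
    calc (∏ v ∈ s, ‖v‖) * (((R - r)⁻¹) ^ s.card * M) ≤ r ^ s.card * (((R - r)⁻¹) ^ s.card * M) := by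
          gcongr
      _ = M * (r / (R - r)) ^ s.card := by rw [div_eq_mul_inv, mul_pow]; ring
  · have h8 : ‖Q‖ ≤ ∑ w ∈ s, (‖w‖⁻¹ * ∏ v ∈ s.erase w, ‖w - v‖⁻¹) * ‖f w‖ := by
      refine (norm_sum_le _ _).trans (Finset.sum_le_sum fun w _ => ?_)
      rw [norm_mul, norm_mul, norm_inv, norm_prod]
      simp only [norm_inv]
      exact le_rfl
    refine (mul_le_mul_of_nonneg_left h8 hPpos.le).trans ?_
    rw [Finset.mul_sum]
    refine Finset.sum_le_sum fun w hw => ?_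
    have hne : ‖w‖ ≠ 0 := norm_ne_zero_iff.2 fun h => hs0 (h ▸ hw)
    have h9 : (∏ v ∈ s, ‖v‖) * ‖w‖⁻¹ = ∏ v ∈ s.erase w, ‖v‖ := by
      rw [← Finset.mul_prod_erase s _ hw]
      field_simp
    have h10 : ∏ v ∈ s.erase w, ‖v‖ ≤ r ^ (s.card - 1) := by
      rw [← Finset.card_erase_of_mem hw, ← Finset.prod_const]
      exact Finset.prod_le_prod (fun _ _ => norm_nonneg _) fun v hv => hs v (Finset.mem_of_mem_erase hv)
    have h11 : 0 ≤ ∏ v ∈ s.erase w, ‖w - v‖⁻¹ :=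
      Finset.prod_nonneg fun _ _ => inv_nonneg.2 (norm_nonneg _)
    calc (∏ v ∈ s, ‖v‖) * ((‖w‖⁻¹ * ∏ v ∈ s.erase w, ‖w - v‖⁻¹) * ‖f w‖)
        = ‖f w‖ * (((∏ v ∈ s, ‖v‖) * ‖w‖⁻¹) * ∏ v ∈ s.erase w, ‖w - v‖⁻¹) := by ring
      _ ≤ _ := by
          rw [h9]
          gcongr

end Pool.Agent.X114.TS
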