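import Pool.Agent.H983R4.GL.Z3
import Pool.Agent.X114.TS1

/-! The zeta function near a height `T`, and sampling. -/

set_option autoImplicit false

open MeasureTheory Filter Topology Set Real

namespace Pool.Agent.X114.TS

open Pool.Agent.H983R4.LH Pool.Agent.H983R4.GL Pool.Agent.H983R4.GL.Z

lemma disc_log {θ : ℝ} (hθ0 : 0 ≤ θ) (hθ : Adm θ) {ε : ℝ} (hε : 0 < ε) :
    ∃ C : ℝ, ∀ T : ℝ, 8 ≤ T → ∀ x y : ℝ, |x| ≤ 1 / 2 → |y| ≤ 1 / 2 →
      log⁺ ‖FT T (1 / 2 + x + ((T + y : ℝ) : ℂ) * Complex.I)‖ ≤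
        C + (θ + ε) * Real.log T + max 0 (-x) * Real.log T := by
  have hpi := Real.pi_pos
  have hl2 := log2_pos
  have hC0 := C0_nonneg
  obtain ⟨B, hB⟩ := hθ ε hε
  obtain ⟨K, hK, hlz⟩ := lz
  set B₁ : ℝ := max 1 |B| with hB₁
  have hB1 : 1 ≤ B₁ := le_max_left _ _
  have hlB : 0 ≤ Real.log B₁ := Real.log_nonneg hB1
  set m' : ℝ := 1 + (θ + ε) with hm'
  have hm'0 : 0 ≤ m' := by rw [hm']; linarith
  set c₁ : ℝ := Real.log 2 + Real.log B₁ + (θ + ε) * Real.log 2 with hc₁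
  have hc1 : 0 ≤ c₁ := by rw [hc₁]; positivity
  refine ⟨K + (c₁ + m' * Real.log 2 + m' * C0 / (2 * π)) + Real.log 2, fun T hT8 x y hx hy => ?_⟩
  have hT0 : 0 < T := by linarith
  set ℓ : ℝ := Real.log T with hℓ
  have hℓ0 : 0 ≤ ℓ := Real.log_nonneg (by linarith)
  set A : ℝ := c₁ + (θ + ε) * ℓ with hA
  have e0 : ∀ x : ℝ, (1 / 2 + (x : ℂ) * Complex.I) ≠ 1 := fun x => ne_one_of_re (by simp; norm_num)
  have b0 : ∀ x : ℝ, ‖(1 / 2 + (x : ℂ) * Complex.I) - 1‖ ≤ 1 / 2 + |x| := by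
    intro x
    refine (Complex.norm_le_abs_re_add_abs_im _).trans ?_
    have e1 : ((1 / 2 + (x : ℂ) * Complex.I) - 1).re = -(1 / 2) := by simp; norm_num
    have e2 : ((1 / 2 + (x : ℂ) * Complex.I) - 1).im = x := by simp
    rw [e1, e2, abs_neg, abs_of_pos (by norm_num : (0:ℝ) < 1 / 2)]
  have habs : ∀ x : ℝ, 1 + |x| ≤ 2 * (1 + |x - T|) * T := by
    intro x
    have h3 : |x| ≤ |x - T| + T := by
      have := abs_sub_abs_le_abs_sub x T
      rw [abs_of_pos hT0] at this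
      linarith
    nlinarith [abs_nonneg (x - T)]
  have hline : ∀ x : ℝ, log⁺ ‖FT T (1 / 2 + (x : ℂ) * Complex.I)‖ ≤
      A + m' * Real.log (1 + |x - T|) := by
    intro x
    have hx0 : 0 ≤ |x - T| := abs_nonneg _
    have g1 := FT_le hT0 (c := 2 * (1 + |x - T|)) (by linarith) (e0 x)
      ((b0 x).trans (by linarith [habs x]))
    have h3 := hB x
    have h4 : ‖riemannZeta (1 / 2 + (x : ℂ) * Complex.I)‖ ≤ B₁ * (1 + |x|) ^ (θ + ε) := by
      refine h3.trans (mul_le_mul_of_nonneg_right ?_ (by positivity))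
      exact (le_abs_self B).trans (le_max_right _ _)
    have h5 := posLog_le_posLog (norm_nonneg _) h4
    have h6 : log⁺ (B₁ * (1 + |x|) ^ (θ + ε)) = Real.log B₁ + (θ + ε) * Real.log (1 + |x|) := by
      have h7 : 1 ≤ (1 + |x|) ^ (θ + ε) := Real.one_le_rpow (by linarith [abs_nonneg x]) (by linarith)
      rw [posLog_eq_log, Real.log_mul (by positivity) (by positivity), Real.log_rpow (by positivity)]
      rw [abs_of_nonneg (by positivity)]
      nlinarith
    have h8 : Real.log (2 * (1 + |x - T|)) = Real.log 2 + Real.log (1 + |x - T|) :=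
      Real.log_mul (by norm_num) (by positivity)
    have h9 : Real.log (1 + |x|) ≤ Real.log 2 + Real.log (1 + |x - T|) + ℓ := by
      have h10 := Real.log_le_log (by positivity) (habs x)
      rw [Real.log_mul (by positivity) hT0.ne', h8] at h10
      exact h10
    have h10 := mul_le_mul_of_nonneg_left h9 (by linarith : 0 ≤ θ + ε)
    rw [hA, hm', hc₁]
    linarith
  have hLZ := hlz T hT8
  have hy' := abs_le.1 hy
  have hx' := abs_le.1 hx
  have hq : 0 ≤ m' * C0 / (2 * π) := by positivity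
  -- on the right of the line
  have hright : ∀ a : ℝ, 0 ≤ a → a ≤ 1 / 2 →
      log⁺ ‖FT T (1 / 2 + a + ((T + y : ℝ) : ℂ) * Complex.I)‖ ≤
        A + m' * Real.log 2 + m' * C0 / (2 * π) := by
    intro a ha0 ha1
    rcases eq_or_lt_of_le ha0 with h | h
    · rw [← h]
      have h1 := hline (T + y)
      have h2 : Real.log (1 + |T + y - T|) ≤ Real.log 2 := by
        apply Real.log_le_log (by positivity)
        rw [add_sub_cancel_left]
        linarith
      have h3 := mul_le_mul_of_nonneg_left h2 hm'0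
      rw [Complex.ofReal_zero, add_zero]
      linarith
    · have h1 := inner2 hLZ (A := A) (m' := m') (κ := A) (h := 1 / 2) (a := a) (t := T + y) (E := ∅)
        hm'0 hline MeasurableSet.empty (fun x hx => absurd hx (notMem_empty x))
        (fun x hx => absurd hx (notMem_empty x)) le_rfl (by norm_num) h ha1
        (by rw [add_sub_cancel_left]; exact hy)
      rw [measure_empty, ENNReal.toReal_zero, mul_zero, zero_div, sub_zero] at h1
      exact h1
  rcases le_total 0 x with h | h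
  · have h1 := hright x h hx'.2
    rw [max_eq_left (by linarith), zero_mul, add_zero]
    linarith
  · have h1 := hright (-x) (by linarith) (by linarith)
    have h2 := hLZ.r (-x) (T + y) (by linarith) (by linarith) (by
      rw [add_sub_cancel_left]; linarith)
    have e : (1 / 2 - ((-x : ℝ) : ℂ) + ((T + y : ℝ) : ℂ) * Complex.I) =
        1 / 2 + x + ((T + y : ℝ) : ℂ) * Complex.I := by push_cast; ring
    rw [e] at h2
    rw [max_eq_right (by linarith)]
    have h3 : -x * (ℓ + 1 * Real.log 2) ≤ -x * ℓ + Real.log 2 := by nlinarith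
    linarith

/-- the normalised function -/
noncomputable def f (T : ℝ) (z : ℂ) : ℂ :=
  FT T (1 / 2 + T * Complex.I + z) * Complex.exp ((Real.log T / 2 : ℝ) * z)

lemma f_diff (T : ℝ) : Differentiable ℂ (f T) := by
  unfold f FT
  exact ((differentiable_riemannZeta₁.comp (by fun_prop)).div_const _).mul (by fun_prop)

lemma f_norm (T : ℝ) (z : ℂ) : ‖f T z‖ = ‖FT T (1 / 2 + T * Complex.I + z)‖ *
    Real.exp (Real.log T / 2 * z.re) := by
  unfold f
  rw [norm_mul, Complex.norm_exp, Complex.re_ofReal_mul]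

/-- the bound on discs -/
lemma disc_bound {θ : ℝ} (hθ0 : 0 ≤ θ) (hθ : Adm θ) {ε : ℝ} (hε : 0 < ε) :
    ∃ C : ℝ, 0 < C ∧ ∀ T : ℝ, 8 ≤ T → ∀ R : ℝ, 0 < R → R ≤ 1 / 2 → ∀ z : ℂ, ‖z‖ ≤ R →
      ‖f T z‖ ≤ C * Real.exp ((θ + ε + R / 2) * Real.log T) := by
  obtain ⟨C, hC⟩ := disc_log hθ0 hθ hε
  refine ⟨Real.exp C, Real.exp_pos _, fun T hT R hR hR2 z hz => ?_⟩
  have hℓ0 : 0 ≤ Real.log T := Real.log_nonneg (by linarith)
  have hx : |z.re| ≤ R := (Complex.abs_re_le_norm z).trans hz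
  have hy : |z.im| ≤ R := (Complex.abs_im_le_norm z).trans hz
  have h1 := hC T hT z.re z.im (by linarith) (by linarith)
  have e : (1 / 2 + T * Complex.I + z : ℂ) = 1 / 2 + z.re + ((T + z.im : ℝ) : ℂ) * Complex.I := by
    apply Complex.ext <;> simp
  rw [f_norm, e, ← Real.exp_add]
  have h2 : ‖FT T (1 / 2 + z.re + ((T + z.im : ℝ) : ℂ) * Complex.I)‖ ≤
      Real.exp (C + (θ + ε) * Real.log T + max 0 (-z.re) * Real.log T) := by
    have h3 : ∀ w : ℝ, 0 ≤ w → w ≤ Real.exp (log⁺ w) := by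
      intro w hw
      rcases eq_or_lt_of_le hw with h | h
      · rw [← h]; positivity
      · calc w = Real.exp (Real.log w) := (Real.exp_log h).symm
          _ ≤ _ := Real.exp_le_exp.2 (le_max_right _ _)
    exact (h3 _ (norm_nonneg _)).trans (Real.exp_le_exp.2 h1)
  refine (mul_le_mul_of_nonneg_right h2 (Real.exp_pos _).le).trans ?_
  rw [← Real.exp_add]
  apply Real.exp_le_exp.2
  have h4 : max 0 (-z.re) * Real.log T + Real.log T / 2 * z.re ≤ R / 2 * Real.log T := by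
    have hx' := abs_le.1 hx
    rcases le_total 0 z.re with h | h
    · rw [max_eq_left (by linarith)]; nlinarith
    · rw [max_eq_right (by linarith)]; nlinarith
  linarith

lemma f_zero {T : ℝ} (hT : 8 ≤ T) : ‖riemannZeta (1 / 2 + T * Complex.I)‖ ≤ ‖f T 0‖ := by
  rw [f_norm, Complex.zero_re, mul_zero, Real.exp_zero, mul_one, add_zero]
  have hne : (1 / 2 + (T : ℂ) * Complex.I) ≠ 1 := ne_one_of_re (by simp; norm_num)
  rw [FT_norm (by linarith) hne]
  have h1 := Complex.abs_im_le_norm ((1 / 2 + T * Complex.I : ℂ) - 1)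
  have him : ((1 / 2 + T * Complex.I : ℂ) - 1).im = T := by simp
  rw [him, abs_of_pos (by linarith)] at h1
  have h2 : 1 ≤ ‖(1 / 2 + T * Complex.I : ℂ) - 1‖ / T := by
    rw [le_div_iff₀ (by linarith)]; linarith
  nlinarith [norm_nonneg (riemannZeta (1 / 2 + T * Complex.I))]

lemma f_line {T : ℝ} (hT : 8 ≤ T) {y : ℝ} (hy : |y| ≤ 1 / 2) :
    ‖f T (y * Complex.I)‖ ≤ 2 * ‖riemannZeta (1 / 2 + ((T + y : ℝ) : ℂ) * Complex.I)‖ := by
  have hy' := abs_le.1 hy
  rw [f_norm]
  have hre : ((y : ℂ) * Complex.I).re = 0 := by simp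
  rw [hre, mul_zero, Real.exp_zero, mul_one]
  have e : (1 / 2 + T * Complex.I + y * Complex.I : ℂ) = 1 / 2 + ((T + y : ℝ) : ℂ) * Complex.I := by
    push_cast; ring
  rw [e]
  have hne : (1 / 2 + ((T + y : ℝ) : ℂ) * Complex.I) ≠ 1 := ne_one_of_re (by simp; norm_num)
  rw [FT_norm (by linarith) hne]
  refine mul_le_mul_of_nonneg_right ?_ (norm_nonneg _)
  rw [div_le_iff₀ (by linarith)]
  refine (Complex.norm_le_abs_re_add_abs_im _).trans ?_
  have e1 : ((1 / 2 + ((T + y : ℝ) : ℂ) * Complex.I) - 1).re = -(1 / 2) := by simp; norm_num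
  have e2 : ((1 / 2 + ((T + y : ℝ) : ℂ) * Complex.I) - 1).im = T + y := by simp
  rw [e1, e2, abs_neg, abs_of_pos (by norm_num : (0:ℝ) < 1 / 2), abs_of_pos (by linarith)]
  linarith

/-- large values exist beyond every height -/
lemma large_values {κ : ℝ} (hκ : 0 ≤ κ) (h : ¬ Adm κ) (T₀ : ℝ) :
    ∃ T : ℝ, T₀ ≤ T ∧ T ^ κ < ‖riemannZeta (1 / 2 + T * Complex.I)‖ := by
  by_contra hcon
  push Not at hcon
  apply h
  intro ε hε
  refine lh_of (T₁ := max T₀ 8) (by linarith) fun T hT => ?_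
  have hT8 : 8 ≤ T := (le_max_right _ _).trans hT
  calc ‖riemannZeta (1 / 2 + T * Complex.I)‖ ≤ T ^ κ := hcon T ((le_max_left _ _).trans hT)
    _ ≤ (1 + T) ^ κ := Real.rpow_le_rpow (by linarith) (by linarith) hκ
    _ ≤ (1 + T) ^ (κ + ε) := Real.rpow_le_rpow_of_exponent_le (by linarith) (by linarith)

end Pool.Agent.X114.TS
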